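import Pool.Agent.DK.Psi

/-!
# The algebra of the closing side, and the symmetries of the class `GG`
-/

set_option autoImplicit false

noncomputable section

namespace Pool.Agent.DK

open Pool.Agent.ZCyc Pool.Agent.TInf Polynomial
open Pool.Agent.VFP (Om tt)

universe u

section alg

variable {K : Type*} [Field K] {n ν : ℕ} {δ : Fin n → K} {M : Mq K} {S w : K}

/-- `(W ^ ν - a(1)) ² - S ² = a(1) ² - ∏ δ` -/
theorem Clo.mul (h : Clo ν δ M S w) :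
    cl ν M S w * cl ν M (-S) w = -(M.b.eval 1 * M.c.eval 1) := by
  have h1 := h.bc
  have h2 := h.sg
  unfold cl
  linear_combination -h2 + h1

theorem Clo.cl_ne (h : Clo ν δ M S w) : cl ν M S w ≠ 0 := by
  intro h0
  have h1 := h.mul
  rw [h0, zero_mul] at h1
  exact h.ne (neg_eq_zero.1 h1.symm)

theorem Clo.negS (h : Clo ν δ M S w) : Clo ν δ M (-S) w :=
  ⟨h.bc, h.ne, h.W0, by rw [neg_sq]; exact h.sg⟩

theorem cl_rot {η : K} (hη : η ^ ν = 1) : cl ν M S (η * w) = cl ν M S w := by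
  unfold cl
  rw [mul_pow, hη, one_mul]

theorem Clo.rot (h : Clo ν δ M S w) {η : K} (hη : η ^ ν = 1) (hη0 : η ≠ 0) :
    Clo ν δ M S (η * w) := by
  refine ⟨h.bc, h.ne, mul_ne_zero hη0 h.W0, ?_⟩
  rw [mul_pow, mul_pow, mul_comm 2 ν, pow_mul, hη, one_pow, one_mul, one_mul, mul_comm ν 2]
  exact h.sg

private theorem clo_rot_rot (ρ ρ' : K) (M : Mq K) : (M.rot ρ').rot ρ = M.rot (ρ * ρ') := by
  unfold Mq.rot
  congr 1
  · rw [← mul_assoc, ← C_mul]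
  · rw [← mul_assoc, ← C_mul, mul_inv]

theorem Clo.frb (h : Clo ν δ M S w) : (M.fr (cl ν M S w)).b.eval 1 = cl ν M (-S) w := by
  have h1 := h.mul
  have h2 := h.cl_ne
  unfold Mq.fr Mq.rot
  simp only [eval_mul, eval_C]
  rw [div_mul_eq_mul_div, div_eq_iff h2]
  linear_combination -h1

theorem Clo.frc (h : Clo ν δ M S w) : (M.fr (cl ν M S w)).c.eval 1 = -cl ν M S w := by
  have h2 := h.cl_ne
  have h3 : M.c.eval 1 ≠ 0 := right_ne_zero_of_mul h.ne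
  unfold Mq.fr Mq.rot
  simp only [eval_mul, eval_C]
  field_simp

/-- `(M.fr T).c(1) = -T`, `(M.fr T).b(1) = T'` with `T T' = -b(1) c(1)`, and `rot ρ (rot ρ' M) =
rot (ρ ρ') M` -/
theorem Clo.fr_flip (h : Clo ν δ M S w) :
    (M.fr (cl ν M S w)).b.eval 1 ≠ 0 ∧ (M.fr (cl ν M S w)).c.eval 1 ≠ 0 ∧
    (M.fr (cl ν M S w)).rot (-((M.fr (cl ν M S w)).c.eval 1) /
      (M.fr (cl ν M S w)).b.eval 1) = M.fr (cl ν M (-S) w) := by
  have h2 := h.cl_ne
  have h3 := h.negS.cl_ne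
  rw [h.frb, h.frc]
  refine ⟨h3, neg_ne_zero.2 h2, ?_⟩
  rw [neg_neg]
  unfold Mq.fr
  rw [clo_rot_rot]
  congr 1
  field_simp

/-- the closing side has `V = W ^ ν` -/
theorem Clo.V0 [CharZero K] (h : Clo ν δ M S w) : (M.fr (cl ν M S w)).V0 = w ^ ν := by
  unfold Mq.V0
  rw [h.frb, h.frc]
  have h1 : (M.fr (cl ν M S w)).a = M.a := rfl
  rw [h1]
  unfold cl
  ring

/-- The closing side of a state `M` with `V₀ = W ^ ν`, `Sg₀ = -(b(1) + c(1)) / 2`. -/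
theorem clo_of_state [CharZero K]
    (hbc : M.b.eval 1 * M.c.eval 1 = ∏ j, δ j - M.a.eval 1 ^ 2)
    (hne : M.b.eval 1 * M.c.eval 1 ≠ 0) (hw : w ≠ 0) (hV : M.V0 = w ^ ν) :
    Clo ν δ M (-(M.b.eval 1 + M.c.eval 1) / 2) w ∧
    M.fr (cl ν M (-(M.b.eval 1 + M.c.eval 1) / 2) w) = M := by
  unfold Mq.V0 at hV
  have hc : M.c.eval 1 ≠ 0 := right_ne_zero_of_mul hne
  have hcT : cl ν M (-(M.b.eval 1 + M.c.eval 1) / 2) w = -M.c.eval 1 := by
    unfold cl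
    rw [← hV]
    ring
  refine ⟨⟨hbc, hne, hw, ?_⟩, ?_⟩
  · rw [mul_comm 2 ν, pow_mul, ← hV]
    linear_combination hbc
  · rw [hcT]
    unfold Mq.fr
    rw [div_self (neg_ne_zero.2 hc)]
    unfold Mq.rot
    simp

end alg

variable {k : Type u} [Field k] [IsAlgClosed k] [CharZero k] {n ν : ℕ} {ζ : k} {D : Bas k}
  {W : Type*} [AddCommGroup W] [Module ℚ W]

/-- the change of the sign of `σ` -/
theorem GG_negS (Y : SysW ν ζ D n W) (hζ : IsPrimitiveRoot ζ ν) (hν : 0 < ν) {s : Fin n → D.P}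
    (hs : Nd (D.ed s) (D.eb s)) {M : Mq k} {S w : k} (hC : Clo ν (D.ed s) M S w) :
    GG Y s M (-S) w = -GG Y s M S w := by
  obtain ⟨h1, h2, h3⟩ := hC.fr_flip
  unfold GG
  rw [← h3]
  exact Psi_flip Y hζ hν hs _ _ h1 h2

/-- multiplication of the product by a root of unity -/
theorem GG_shift (Y : SysW ν ζ D n W) (hζ : IsPrimitiveRoot ζ ν) (hν : 0 < ν) (hn : 0 < n)
    {s : Fin n → D.P} (hs : Nd (D.ed s) (D.eb s)) (M : Mq k) (S w : k) (c : ℕ) :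
    GG Y s M S (ζ ^ c * w) = (Y.om ^ c) (GG Y s M S w) := by
  have h1 : (ζ ^ c) ^ ν = 1 := by
    rw [← pow_mul, mul_comm, pow_mul, hζ.pow_eq_one, one_pow]
  unfold GG
  rw [cl_rot h1]
  exact Psi_shift Y hζ hν hn hs _ _ _

end Pool.Agent.DK
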