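import Pool.Agent.DK.RotFam

/-!
# The closing side
-/

set_option autoImplicit false

noncomputable section

namespace Pool.Agent.DK

open Pool.Agent.ZCyc Pool.Agent.TInf Polynomial
open Pool.Agent.VFP (Om tt)

universe u

variable {k : Type u} [Field k] [IsAlgClosed k] [CharZero k] {n ν : ℕ} {W : Type*}
  [AddCommGroup W] [Module ℚ W] {ζ : k} {δ B : Fin n → k} {om : Module.End ℚ W}
  {f : (Fin n → WPt k) → W}

omit [IsAlgClosed k] in
/-- the values of the two roots -/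
theorem rot_roots_at {v : Place k (Om k)} {A b c W₀ : k} (hb : b ≠ 0)
    (hW : W₀ ^ ν = A + (b - c) / 2) {ρ₁ ρ₂ : Om k}
    (h₁ : algebraMap k (Om k) b * (ρ₁ + ρ₂) = 2 * (tt k ^ ν - algebraMap k (Om k) A))
    (h₂ : algebraMap k (Om k) b * (ρ₁ * ρ₂) = -algebraMap k (Om k) c) (hv : v.At (tt k) W₀) :
    (v.At ρ₁ 1 ∧ v.At ρ₂ (-(c / b))) ∨ (v.At ρ₁ (-(c / b)) ∧ v.At ρ₂ 1) := by
  have hinj := (algebraMap k (Om k)).injective
  have hb' : algebraMap k (Om k) b ≠ 0 := (map_ne_zero_iff _ hinj).2 hb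
  set S : Om k := 2 * (tt k ^ ν - algebraMap k (Om k) A) / algebraMap k (Om k) b with hS
  have h2 : v.At (2 : Om k) 2 := by
    have := Place.at_const (v := v) (2 : k)
    rwa [map_ofNat] at this
  have hSv : v.At S (1 - c / b) := by
    have h3 : v.At S (2 * (W₀ ^ ν - A) / b) :=
      (h2.mul ((hv.pow ν).sub (Place.at_const A))).div (Place.at_const b) hb
    have h4 : 2 * (W₀ ^ ν - A) / b = 1 - c / b := by
      rw [hW]
      field_simp
      ring
    rwa [h4] at h3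
  have hsum : ρ₁ + ρ₂ = S := by
    rw [hS, eq_div_iff hb', ← h₁]
    ring
  have hprod : ρ₁ * ρ₂ = algebraMap k (Om k) (-(c / b)) := by
    rw [map_neg, map_div₀]
    field_simp
    linear_combination h₂
  have hmem : ρ₁ ∈ v.ring := by
    by_contra hn
    have h3 : v.Vanishes ρ₁⁻¹ := by
      rw [Place.vanishes_iff_or, inv_inv]
      exact Or.inr hn
    have h4 : ρ₁ ≠ 0 := by
      rintro rfl
      exact hn v.ring.zero_mem
    have h5 : v.Vanishes (S * ρ₁⁻¹ - algebraMap k (Om k) (-(c / b)) * (ρ₁⁻¹ * ρ₁⁻¹)) :=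
      Place.Vanishes.sub v (Place.Vanishes.mul' v h3 hSv.mem)
        (Place.Vanishes.mul' v (Place.Vanishes.mul v h3 (h3.mem v)) (v.const_mem _))
    have h6 : S * ρ₁⁻¹ - algebraMap k (Om k) (-(c / b)) * (ρ₁⁻¹ * ρ₁⁻¹) = 1 := by
      rw [← hsum, ← hprod]
      field_simp
      ring
    rw [h6, ← map_one (algebraMap k (Om k))] at h5
    exact Place.const_unit v one_ne_zero h5
  have hfac : v.Vanishes ((ρ₁ - algebraMap k (Om k) 1) * (ρ₁ - algebraMap k (Om k) (-(c / b)))) := by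
    have h3 : (ρ₁ - algebraMap k (Om k) 1) * (ρ₁ - algebraMap k (Om k) (-(c / b))) =
        (S - algebraMap k (Om k) (1 - c / b)) * ρ₁ := by
      rw [← hsum, map_one, map_neg, map_sub, map_one]
      rw [map_neg] at hprod
      linear_combination -hprod
    rw [h3]
    exact Place.Vanishes.mul v hSv hmem
  have hor : v.Vanishes (ρ₁ - algebraMap k (Om k) 1) ∨
      v.Vanishes (ρ₁ - algebraMap k (Om k) (-(c / b))) := by
    have h3 : v.Vanishes (∏ i : Fin 2, (![ρ₁ - algebraMap k (Om k) 1,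
        ρ₁ - algebraMap k (Om k) (-(c / b))] : Fin 2 → Om k) i) := by
      rw [Fin.prod_univ_two]
      exact hfac
    obtain ⟨i, -, hi⟩ := v.vanishes_prod h3
    fin_cases i
    · exact Or.inl hi
    · exact Or.inr hi
  have h4 : ρ₂ = S - ρ₁ := by rw [← hsum]; ring
  rcases hor with h3 | h3
  · refine Or.inl ⟨h3, ?_⟩
    have h5 : v.At ρ₁ 1 := h3
    have h6 := hSv.sub h5
    rw [← h4] at h6
    have h7 : 1 - c / b - 1 = -(c / b) := by ring
    rwa [h7] at h6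
  · refine Or.inr ⟨h3, ?_⟩
    have h5 : v.At ρ₁ (-(c / b)) := h3
    have h6 := hSv.sub h5
    rw [← h4] at h6
    have h7 : 1 - c / b - -(c / b) = 1 := by ring
    rwa [h7] at h6

omit [IsAlgClosed k] [CharZero k] in
/-- `t ^ ν` is not a constant -/
theorem rho_ne (hν : 0 < ν) {A b c : k} {ρ : Om k} (h : tt k ^ ν = algebraMap k (Om k) A +
    (ρ * algebraMap k (Om k) b - ρ⁻¹ * algebraMap k (Om k) c) / 2) (x : k) :
    ρ ≠ algebraMap k (Om k) x := by
  intro hx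
  have h1 : tt k ^ ν = algebraMap k (Om k) (A + (x * b - x⁻¹ * c) / 2) := by
    rw [h, hx]
    simp only [map_add, map_div₀, map_sub, map_mul, map_inv₀, map_ofNat]
  have htr : Transcendental k (tt k) := by
    unfold tt
    rw [transcendental_algebraMap_iff (algebraMap (RatFunc k) (Om k)).injective]
    exact RatFunc.transcendental_X
  refine htr ⟨X ^ ν - C (A + (x * b - x⁻¹ * c) / 2), ?_, ?_⟩
  · exact X_pow_sub_C_ne_zero hν _
  · rw [map_sub, map_pow, aeval_X, aeval_C, h1, sub_self]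

omit [Module ℚ W] in
private theorem contr_one {c : Cfg k n} (hc : Good δ B c) {w : Fin n → k}
    (hw : ∀ j, w j ^ ν = (c.side B j).V) {v : Place k (Om k)} {ρ P : Om k}
    (h1 : v.At ρ 1) (h2 : v.At P (∏ j, w j)) :
    Contr ν f δ B c v ρ P (f (cpt B c w)) := by
  have h3 := Contr.good (ν := ν) (f := f) (δ := δ) (B := B) (c := c) (v := v) (ρ := ρ)
    (P := P) 1 w h1 one_ne_zero (by rw [DK.rotc_one hc]; exact hc)
    (by rw [DK.rotc_one hc]; exact hw) h2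
  rwa [DK.rotc_one hc] at h3

private theorem prod_w {c : Cfg k n} (hc : Good δ B c) {w : Fin n → k}
    (hw : ∀ j, w j ^ ν = (c.side B j).V) :
    (∏ j, w j) ^ ν = (c.M B).a.eval 1 + ((c.M B).b.eval 1 - (c.M B).c.eval 1) / 2 := by
  have e := DK.prod_V hc
  unfold Mq.V0 at e
  rw [← e, ← Finset.prod_pow]
  exact Finset.prod_congr rfl fun j _ => hw j

omit [IsAlgClosed k] in
private theorem pw_ne (hν : 0 < ν) {c : Cfg k n} (hc : Good δ B c) {w : Fin n → k}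
    (hw : ∀ j, w j ^ ν = (c.side B j).V) : ∏ j, w j ≠ 0 :=
  Finset.prod_ne_zero_iff.2 fun j _ => DK.w_ne hν (hc.2 j) (hw j)

omit [IsAlgClosed k] [CharZero k] in
private theorem tt6_ne (hν : 0 < ν) (A : k) : tt k ^ ν ≠ algebraMap k (Om k) A := by
  intro h
  refine rho_ne hν (A := A) (b := 0) (c := 0) (ρ := 1) ?_ 1 (by rw [map_one])
  rw [h]
  simp

/-- If `b(1) = 0` or `c(1) = 0` then the class is `0`: `contr_family` with one member. If `b(1) = 0`,
`c(1) ≠ 0`: `ρ = c(1) / (2 (a(1) - t ^ ν))`; if `b(1) ≠ 0`, `c(1) = 0`: `ρ = 2 (t ^ ν - a(1)) / b(1)`, and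
`P = t`, `c₀ = ∏ w j`, `c₁ = 0`; if `b(1) = c(1) = 0`: `ρ = t`, `P = ∏ w j`, `c₀ = 1`, `c₁ = 0`. -/
theorem zero_of (hf : WFn ν ζ δ B om f) (hζ : IsPrimitiveRoot ζ ν) (hν : 0 < ν) (h : Nd δ B)
    (hn : 0 < n) {c : Cfg k n} (hc : Good δ B c) {w : Fin n → k}
    (hw : ∀ j, w j ^ ν = (c.side B j).V)
    (h0 : (c.M B).b.eval 1 = 0 ∨ (c.M B).c.eval 1 = 0) : f (cpt B c w) = 0 := by
  have hW := prod_w hc hw
  have hW0 := pw_ne hν hc hw
  have hprod := fun (ρ : Om k) (hρ : ∀ x : k, ρ ≠ algebraMap k (Om k) x) =>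
    DK.prod_V_rotc h hc hρ
  have h2k : (2 : k) ≠ 0 := two_ne_zero
  obtain ⟨A, hA⟩ : ∃ A, A = (c.M B).a.eval 1 := ⟨_, rfl⟩
  obtain ⟨b, hb⟩ : ∃ b, b = (c.M B).b.eval 1 := ⟨_, rfl⟩
  obtain ⟨e, he⟩ : ∃ e, e = (c.M B).c.eval 1 := ⟨_, rfl⟩
  obtain ⟨W₀, hW₀⟩ : ∃ W₀, W₀ = ∏ j, w j := ⟨_, rfl⟩
  rw [← hA, ← hb, ← he] at hprod
  rw [← hA, ← hb, ← he, ← hW₀] at hW
  rw [← hb, ← he] at h0
  rw [← hW₀] at hW0
  -- one member of the family
  have key : ∀ (ρ P : Om k) (c₀ : k), (∀ x : k, ρ ≠ algebraMap k (Om k) x) →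
      P ^ ν = algebraMap k (Om k) A + (ρ * algebraMap k (Om k) b -
        ρ⁻¹ * algebraMap k (Om k) e) / 2 →
      (∀ v : Place k (Om k), v.At (tt k) c₀ → v.At ρ 1 ∧ v.At P W₀) →
      (∀ v : Place k (Om k), v.At (tt k) 0 → v.At ρ 0 ∨ v.At P 0) →
      f (cpt B c w) = 0 := by
    intro ρ P c₀ hρ hP h₀ h₁
    refine contr_family hf hζ hν h hn hc (R := Unit) (fun _ => ρ) (fun _ => P) (fun _ => hρ)
      (fun _ => ?_) c₀ 0 _ _ (fun v hv => ?_) fun v hv => ?_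
    · rw [hprod ρ hρ, hP]
    · obtain ⟨h3, h4⟩ := h₀ v hv
      rw [hW₀] at h4
      exact ⟨fun _ => f (cpt B c w), fun _ => contr_one hc hw h3 h4, by simp⟩
    · refine ⟨fun _ => 0, fun _ => Contr.bad ?_, by simp⟩
      rcases h₁ v hv with h3 | h3
      · exact Or.inl (Or.inr (Or.inl h3))
      · exact Or.inr h3
  have hnc : ∀ {ρ : Om k}, tt k ^ ν = algebraMap k (Om k) A + (ρ * algebraMap k (Om k) b -
      ρ⁻¹ * algebraMap k (Om k) e) / 2 → ∀ x : k, ρ ≠ algebraMap k (Om k) x :=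
    fun hρ x => rho_ne hν hρ x
  by_cases hb0 : b = 0
  · by_cases he0 : e = 0
    · -- both are zero
      refine key (tt k) (algebraMap k (Om k) W₀) 1 VFP.tt_ne ?_
        (fun v hv => ⟨hv, Place.at_const W₀⟩) fun v hv => Or.inl hv
      rw [hb0, he0] at hW ⊢
      rw [← map_pow, hW]
      simp
    · have hden : algebraMap k (Om k) (2 * A) - 2 * tt k ^ ν ≠ 0 := by
        intro h1
        apply tt6_ne hν A
        rw [map_mul, map_ofNat] at h1
        linear_combination (-1 / 2 : Om k) * h1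
      have hP : tt k ^ ν = algebraMap k (Om k) A +
          (algebraMap k (Om k) e / (algebraMap k (Om k) (2 * A) - 2 * tt k ^ ν) *
            algebraMap k (Om k) b -
          (algebraMap k (Om k) e / (algebraMap k (Om k) (2 * A) - 2 * tt k ^ ν))⁻¹ *
            algebraMap k (Om k) e) / 2 := by
        have he' : algebraMap k (Om k) e ≠ 0 := by
          rwa [Ne, map_eq_zero]
        rw [hb0, map_zero, mul_zero, zero_sub, inv_div, div_mul_cancel₀ _ he', map_mul, map_ofNat]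
        ring
      refine key _ (tt k) W₀ (hnc hP) hP (fun v hv => ⟨?_, hv⟩) fun v hv => Or.inr hv
      have h3 := (Place.at_const (v := v) e).div ((Place.at_const (v := v) (2 * A)).sub
        ((Place.at_const (v := v) 2).mul (hv.pow ν))) (by
          rw [hW, hb0]
          have : 2 * A - 2 * (A + (0 - e) / 2) = e := by ring
          rw [this]
          exact he0)
      rw [hW, hb0] at h3
      have h4 : 2 * A - 2 * (A + (0 - e) / 2) = e := by ring
      rw [h4, div_self he0, map_ofNat] at h3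
      exact h3
  · have he0 : e = 0 := h0.resolve_left hb0
    have hP : tt k ^ ν = algebraMap k (Om k) A +
        (algebraMap k (Om k) (2 / b) * (tt k ^ ν - algebraMap k (Om k) A) *
          algebraMap k (Om k) b -
        (algebraMap k (Om k) (2 / b) * (tt k ^ ν - algebraMap k (Om k) A))⁻¹ *
          algebraMap k (Om k) e) / 2 := by
      have hb' : algebraMap k (Om k) (2 / b) * algebraMap k (Om k) b = 2 := by
        rw [← map_mul, div_mul_cancel₀ _ hb0, map_ofNat]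
      rw [he0, map_zero, mul_zero, sub_zero, mul_right_comm, hb']
      ring
    refine key _ (tt k) W₀ (hnc hP) hP (fun v hv => ⟨?_, hv⟩) fun v hv => Or.inr hv
    have h3 := (Place.at_const (v := v) (2 / b)).mul ((hv.pow ν).sub (Place.at_const (v := v) A))
    rw [hW, he0] at h3
    have h4 : 2 / b * (A + (b - 0) / 2 - A) = 1 := by
      field_simp
      ring
    rwa [h4] at h3

/-- The closing side: `ρ' = -c(1) / b(1)`. Let `ρ₁`, `ρ₂` be the roots of
`b(1) X ² + 2 (a(1) - t ^ ν) X - c(1)` over `Om k`, `P = t`; use `contr_family` with two members,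
`c₀ = ∏ w j`, `c₁ = 0`, `rot_roots_at`. -/
theorem closing_side (hf : WFn ν ζ δ B om f) (hζ : IsPrimitiveRoot ζ ν) (hν : 0 < ν)
    (h : Nd δ B) (hn : 0 < n) {c : Cfg k n} (hc : Good δ B c) {w : Fin n → k}
    (hw : ∀ j, w j ^ ν = (c.side B j).V) (h0 : f (cpt B c w) ≠ 0) :
    (c.M B).b.eval 1 ≠ 0 ∧ (c.M B).c.eval 1 ≠ 0 ∧ (c.M B).c.eval 1 ≠ -(c.M B).b.eval 1 ∧
      Good δ B (c.rotc B (-((c.M B).c.eval 1 / (c.M B).b.eval 1))) ∧
      (c.rotc B (-((c.M B).c.eval 1 / (c.M B).b.eval 1))).M B =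
        (c.M B).rot (-((c.M B).c.eval 1 / (c.M B).b.eval 1)) ∧
      ∀ w' : Fin n → k,
        (∀ j, w' j ^ ν =
          ((c.rotc B (-((c.M B).c.eval 1 / (c.M B).b.eval 1))).side B j).V) →
        ∏ j, w' j = ∏ j, w j →
        f (cpt B (c.rotc B (-((c.M B).c.eval 1 / (c.M B).b.eval 1))) w') =
          -f (cpt B c w) := by
  have hW := prod_w hc hw
  have hW0 := pw_ne hν hc hw
  have hb0 : (c.M B).b.eval 1 ≠ 0 := fun h1 => h0 (zero_of hf hζ hν h hn hc hw (Or.inl h1))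
  have he0 : (c.M B).c.eval 1 ≠ 0 := fun h1 => h0 (zero_of hf hζ hν h hn hc hw (Or.inr h1))
  have hM : ∀ κ : k, κ ≠ 0 → Good δ B (c.rotc B κ) → (c.rotc B κ).M B = (c.M B).rot κ :=
    fun κ hκ hg => DK.rotc_M hc hκ hg
  have hprod := fun (ρ : Om k) (hρ : ∀ x : k, ρ ≠ algebraMap k (Om k) x) =>
    DK.prod_V_rotc h hc hρ
  obtain ⟨A, hA⟩ : ∃ A, A = (c.M B).a.eval 1 := ⟨_, rfl⟩
  obtain ⟨b, hb⟩ : ∃ b, b = (c.M B).b.eval 1 := ⟨_, rfl⟩
  obtain ⟨e, he⟩ : ∃ e, e = (c.M B).c.eval 1 := ⟨_, rfl⟩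
  obtain ⟨W₀, hW₀⟩ : ∃ W₀, W₀ = ∏ j, w j := ⟨_, rfl⟩
  rw [← hA, ← hb, ← he] at hprod
  rw [← hA, ← hb, ← he, ← hW₀] at hW
  rw [← hb] at hb0 ⊢
  rw [← he] at he0 ⊢
  rw [← hW₀] at hW0
  obtain ⟨κ, hκ⟩ : ∃ κ, κ = -(e / b) := ⟨_, rfl⟩
  have hκ0 : κ ≠ 0 := by
    rw [hκ]
    exact neg_ne_zero.2 (div_ne_zero he0 hb0)
  rw [← hκ]
  -- the roots
  have hb' : algebraMap k (Om k) b ≠ 0 := by rwa [Ne, map_eq_zero]
  have he' : algebraMap k (Om k) e ≠ 0 := by rwa [Ne, map_eq_zero]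
  obtain ⟨s, hs⟩ : ∃ s : Om k, s ^ 2 = (tt k ^ ν - algebraMap k (Om k) A) ^ 2 +
      algebraMap k (Om k) b * algebraMap k (Om k) e :=
    IsAlgClosed.exists_pow_nat_eq _ (by norm_num)
  obtain ⟨ρ₁, hρ₁⟩ : ∃ ρ : Om k, ρ = (tt k ^ ν - algebraMap k (Om k) A + s) /
    algebraMap k (Om k) b := ⟨_, rfl⟩
  obtain ⟨ρ₂, hρ₂⟩ : ∃ ρ : Om k, ρ = (tt k ^ ν - algebraMap k (Om k) A - s) /
    algebraMap k (Om k) b := ⟨_, rfl⟩
  have hsum : algebraMap k (Om k) b * (ρ₁ + ρ₂) = 2 * (tt k ^ ν - algebraMap k (Om k) A) := by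
    rw [hρ₁, hρ₂]
    field_simp
    ring
  have hmul : algebraMap k (Om k) b * (ρ₁ * ρ₂) = -algebraMap k (Om k) e := by
    rw [hρ₁, hρ₂]
    field_simp
    linear_combination -hs
  have hne : ρ₁ * ρ₂ ≠ 0 := by
    intro h1
    rw [h1, mul_zero] at hmul
    exact he' (neg_eq_zero.1 hmul.symm)
  have h1ne : ρ₁ ≠ 0 := left_ne_zero_of_mul hne
  have h2ne : ρ₂ ≠ 0 := right_ne_zero_of_mul hne
  have hP₁ : tt k ^ ν = algebraMap k (Om k) A + (ρ₁ * algebraMap k (Om k) b -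
      ρ₁⁻¹ * algebraMap k (Om k) e) / 2 := by
    have e1 : ρ₁⁻¹ * algebraMap k (Om k) e = -(algebraMap k (Om k) b * ρ₂) := by
      rw [inv_mul_eq_iff_eq_mul₀ h1ne]
      linear_combination hmul
    rw [e1]
    linear_combination (-1 / 2 : Om k) * hsum
  have hP₂ : tt k ^ ν = algebraMap k (Om k) A + (ρ₂ * algebraMap k (Om k) b -
      ρ₂⁻¹ * algebraMap k (Om k) e) / 2 := by
    have e1 : ρ₂⁻¹ * algebraMap k (Om k) e = -(algebraMap k (Om k) b * ρ₁) := by
      rw [inv_mul_eq_iff_eq_mul₀ h2ne]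
      linear_combination hmul
    rw [e1]
    linear_combination (-1 / 2 : Om k) * hsum
  have hc₁ := rho_ne hν hP₁
  have hc₂ := rho_ne hν hP₂
  -- the comparison
  have key : ∀ Y : W, (∀ (v : Place k (Om k)) (ρ : Om k), v.At ρ κ → v.At (tt k) W₀ →
      Contr ν f δ B c v ρ (tt k) Y) → f (cpt B c w) + Y = 0 := by
    intro Y hY
    refine contr_family hf hζ hν h hn hc (R := Fin 2) ![ρ₁, ρ₂] (fun _ => tt k) (fun r => ?_)
      (fun r => ?_) W₀ 0 _ _ (fun v hv => ?_) fun v hv => ?_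
    · fin_cases r
      · exact hc₁
      · exact hc₂
    · fin_cases r
      · exact hP₁.trans (hprod ρ₁ hc₁).symm
      · exact hP₂.trans (hprod ρ₂ hc₂).symm
    · have hv' : v.At (tt k) (∏ j, w j) := hW₀ ▸ hv
      rcases rot_roots_at hb0 hW hsum hmul hv with ⟨h3, h4⟩ | ⟨h3, h4⟩
      · refine ⟨![f (cpt B c w), Y], fun r => ?_, by simp [Fin.sum_univ_two]⟩
        fin_cases r
        · exact contr_one hc hw h3 hv'
        · exact hY v ρ₂ (hκ ▸ h4) hv
      · refine ⟨![Y, f (cpt B c w)], fun r => ?_, by simp [Fin.sum_univ_two, add_comm]⟩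
        fin_cases r
        · exact hY v ρ₁ (hκ ▸ h3) hv
        · exact contr_one hc hw h4 hv'
    · refine ⟨fun _ => 0, fun r => Contr.bad (Or.inr hv), by simp⟩
  have hg : Good δ B (c.rotc B κ) := by
    by_contra hg
    apply h0
    have h1 := key 0 fun v ρ h3 _ => Contr.bad (Or.inl (Or.inr (Or.inr ⟨κ, h3, hκ0, hg⟩)))
    rwa [add_zero] at h1
  have hκM := hM κ hκ0 hg
  have hval : ∀ w' : Fin n → k, (∀ j, w' j ^ ν = ((c.rotc B κ).side B j).V) →
      ∏ j, w' j = ∏ j, w j →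
      f (cpt B (c.rotc B κ) w') = -f (cpt B c w) := by
    intro w' hw' hp
    have h1 := key (f (cpt B (c.rotc B κ) w')) fun v ρ h3 h4 =>
      Contr.good κ w' h3 hκ0 hg hw' (by rw [hp, ← hW₀]; exact h4)
    exact (neg_eq_of_add_eq_zero_right h1).symm
  refine ⟨hb0, he0, ?_, hg, hκM, hval⟩
  intro h1
  have hκ1 : κ = 1 := by
    rw [hκ, h1, neg_div, neg_neg, div_self hb0]
  subst hκ1
  have h2 := hval w (by rw [DK.rotc_one hc]; exact hw) rfl
  rw [DK.rotc_one hc] at h2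
  apply h0
  have h3 : (2 : ℚ) • f (cpt B c w) = 0 := by
    rw [two_smul]
    nth_rewrite 1 [h2]
    exact neg_add_cancel _
  exact (smul_eq_zero.1 h3).resolve_left two_ne_zero

end Pool.Agent.DK
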