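import Pool.Agent.DK.ZeroII

/-!
# The two vanishing theorems for the curves `σ ² = w ^ (2 ν) + B w ^ ν + δ`
-/

set_option autoImplicit false

noncomputable section

namespace Pool.Agent.DK

open Pool.Agent.ZCyc Pool.Agent.TInf Polynomial
open Pool.Agent.VFP (Om tt)

universe u

variable {k : Type u} [Field k] [IsAlgClosed k] [CharZero k] {n : ℕ} {ζ : k} {D : Bas k}
  {W : Type*} [AddCommGroup W] [Module ℚ W]

/-- The case of many parameters. -/
theorem zeroI {ν : ℕ} (Y : SysW ν ζ D n W) (hζ : IsPrimitiveRoot ζ ν) (hν : 0 < ν) {a : ℕ}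
    (ha : 0 < a) {s : Fin n → D.P} (F : CurveFam D (ν * a) (2 * ν * a) 1 s)
    (hρ : (ν - 1) * a ≤ F.ρ) (hs : D.Gen s) (hn : 0 < n) (p : Fin n → WPt k) :
    Y.F s p = 0 :=
  Y.zeroI hζ hν ha F hρ hs hn p

/-- The case of Dickson polynomials; only the eigenvalues `1` and `-1` of `om` are excluded. -/
theorem zeroII {m : ℕ} (Y : SysW (2 * m) ζ D n W) (hm : 0 < m)
    (hζ : IsPrimitiveRoot ζ (2 * m)) (h1 : ∀ x : W, (Y.om ^ m) x = ((-1 : ℚ) ^ m) • x)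
    (h2 : ∀ x : W, (Y.om ^ 2) x = x → x = 0) {d l : ℕ} (hd : 0 < d) (hl : m * d = 2 * l)
    {s : Fin n → D.P} (F : CurveFam D (m * d) (2 * d) m s) (hρ : l ≤ F.ρ + d)
    (hs : D.Gen s) (hn : 0 < n) (p : Fin n → WPt k) : Y.F s p = 0 := by
  refine Y.zeroII hm hζ hd hl F hρ (fun x => ?_) h2 hs hn p
  rw [h1 x, ← Int.cast_smul_eq_zsmul ℚ]
  congr 1
  push_cast
  rfl

end Pool.Agent.DK
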