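import Pool.Agent.TInf.FamDefs

/-!
# Families of the curves `σ ² = w ^ (2 ν) + B w ^ ν + δ` over an arbitrary base: definitions

The curve `C : σ ² = w ^ (2 ν) + B w ^ ν + δ` is a cyclic covering of degree `ν` of the conic
`σ ² = V ² + B V + δ`, `V = w ^ ν`. We use the notations of `Pool/Agent/TInf/Defs.lean` for the conic:
the coordinate `T = V + σ + B / 2`, `p = - B / 2 + β`, `m = - B / 2 - β`, `β ² = δ`, sides `(p, m, T)`,
states `M : Mq` and configurations `Cfg`.

A point of `C` is given by `some (w, σ)` with `w ≠ 0`; all points over `w = 0` and `w = ∞` are represented by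
`none`. A system `SysW` of classes is a function `F` of `n`-tuples of points of the curves in a family
with values in a vector space `W` with an endomorphism `om` such that the multiplication of one of
the coordinates `w` by the `ν`-th root of unity `ζ` corresponds to `om`.
-/

set_option autoImplicit false

noncomputable section

namespace Pool.Agent.DK

open Pool.Agent.ZCyc Pool.Agent.TInf Polynomial
open Pool.Agent.VFP (Om tt)

universe u

/-- Points of the curves `σ ² = w ^ (2 ν) + B w ^ ν + δ`: the points with `w ≠ 0, ∞`, and `none`. -/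
abbrev WPt (K : Type*) := Option (K × K)

section alg

variable {K : Type*} [Field K] {n : ℕ}

/-- the point is on the curve -/
def WOn (ν : ℕ) (δ B : K) : WPt K → Prop
  | none => True
  | some (w, σ) => w ≠ 0 ∧ σ ^ 2 = w ^ (2 * ν) + B * w ^ ν + δ

/-- the point of the curve with the coordinate `w` over the point of the conic given by the side -/
def wpt (s : Side K) (w : K) : WPt K := some (w, s.Sg)

/-- the points of a configuration -/
def cpt (B : Fin n → K) (c : Cfg K n) (w : Fin n → K) : Fin n → WPt K :=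
  fun j => wpt (c.side B j) (w j)

/-- the `β j` are square roots of `δ j`, and the sides are good -/
def Good (δ B : Fin n → K) (c : Cfg K n) : Prop :=
  (∀ j, c.β j ^ 2 = δ j) ∧ ∀ j, (c.side B j).Good

/-- the curves are nondegenerate, and the numbers `B j ² / δ j` are distinct or equal -/
structure Nd (δ B : Fin n → K) : Prop where
  hδ : ∀ j, δ j ≠ 0
  hB : ∀ j, B j ≠ 0
  disc : ∀ j, B j ^ 2 ≠ 4 * δ j
  dist : (∀ i j, i ≠ j → B i ^ 2 * δ j ≠ B j ^ 2 * δ i) ∨
    ∀ i j, B i ^ 2 * δ j = B j ^ 2 * δ i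

/-- the admissible square roots -/
def Adm (δ B β : Fin n → K) : Prop :=
  (∀ j, β j ^ 2 = δ j) ∧ ((∀ i j, i ≠ j → B i ^ 2 * δ j ≠ B j ^ 2 * δ i) ∨
    ∀ i j, β i * B j = β j * B i)

/-- There is a good configuration with the state `M` for every ordering and all admissible square
roots (and all denominators in the formulas for the `T` are not zero). -/
def Full (δ B : Fin n → K) (M : Mq K) : Prop :=
  ∀ (ord : Equiv.Perm (Fin n)) (β : Fin n → K), Adm δ B β →
    ∃ T : Fin n → K, Good δ B (⟨ord, β, T⟩ : Cfg K n) ∧ (⟨ord, β, T⟩ : Cfg K n).M B = M ∧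
      GdP ((⟨ord, β, T⟩ : Cfg K n).sides B)

/-- the conditions for states -/
structure IsSt (δ B : Fin n → K) (M : Mq K) : Prop where
  deg : M.Deg n
  q : M.q = ∏ j, (C ((B j / 2) ^ 2) - C ((B j / 2) ^ 2 - δ j) * X)
  a0 : M.a.eval 0 = ∏ j, (-B j / 2)

/-- `c` is a good configuration with the state `M`, the `w j` are `ν`-th roots of the `V j` with
product `P`. -/
structure Rw (ν : ℕ) (δ B : Fin n → K) (M : Mq K) (P : K) (c : Cfg K n) (w : Fin n → K) :
    Prop where
  good : Good δ B c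
  st : c.M B = M
  w6 : ∀ j, w j ^ ν = (c.side B j).V
  prod : ∏ j, w j = P

/-- the same with admissible square roots -/
structure Rz (ν : ℕ) (δ B : Fin n → K) (M : Mq K) (P : K) (c : Cfg K n) (w : Fin n → K) : Prop
    extends Rw ν δ B M P c w where
  adm : Adm δ B c.β

/-- the coordinate `T` of the closing side with `V = W ^ ν` and `σ = S` -/
def cl (ν : ℕ) (M : Mq K) (S W : K) : K := W ^ ν - M.a.eval 1 + S

/-- `(W, S)` is a point of the curve `σ ² = w ^ (2 ν) - 2 a(1) w ^ ν + ∏ j, δ j` of the closing side. -/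
structure Clo (ν : ℕ) (δ : Fin n → K) (M : Mq K) (S W : K) : Prop where
  bc : M.b.eval 1 * M.c.eval 1 = ∏ j, δ j - M.a.eval 1 ^ 2
  ne : M.b.eval 1 * M.c.eval 1 ≠ 0
  W0 : W ≠ 0
  sg : S ^ 2 = W ^ (2 * ν) - 2 * M.a.eval 1 * W ^ ν + ∏ j, δ j

end alg

variable {k : Type u} [Field k] {n : ℕ} {W : Type*} [AddCommGroup W] [Module ℚ W]

/-- the value of the point `P` at the place `v` is `p` -/
def WVal (v : Place k (Om k)) : WPt (Om k) → WPt k → Prop
  | none, none => True
  | none, some _ => False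
  | some (w, _), none => w ∉ v.ring ∨ v.At w 0
  | some (w, σ), some (w', σ') => w' ≠ 0 ∧ v.At w w' ∧ v.At σ σ'

/-- `f` is a function on the product of the `n` curves with `f = 0` if one point is `none`, with
values in a space in which members of families over the line can be compared. -/
structure WFn (ν : ℕ) (ζ : k) (δ B : Fin n → k) (om : Module.End ℚ W)
    (f : (Fin n → WPt k) → W) : Prop where
  rot : ∀ (p : Fin n → WPt k) (j : Fin n) (w σ : k), p j = some (w, σ) →
    f (Function.update p j (some (ζ * w, σ))) = om (f p)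
  inf : ∀ (p : Fin n → WPt k) (j : Fin n), p j = none → f p = 0
  bridge : ∀ {I : Type} [Fintype I] (c : I → ℚ) (P : I → Fin n → WPt (Om k)),
    (∀ i j, WOn ν (algebraMap k (Om k) (δ j)) (algebraMap k (Om k) (B j)) (P i j)) →
    ∀ (c₀ c₁ : k) (C₀ C₁ : W),
    (∀ v : Place k (Om k), v.At (tt k) c₀ → ∃ p : I → Fin n → WPt k,
      (∀ i j, WVal v (P i j) (p i j)) ∧ ∑ i, c i • f (p i) = C₀) →
    (∀ v : Place k (Om k), v.At (tt k) c₁ → ∃ p : I → Fin n → WPt k,
      (∀ i j, WVal v (P i j) (p i j)) ∧ ∑ i, c i • f (p i) = C₁) → C₀ = C₁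

/-- The base: a set `P` of points over `k`, a set `Q` of points over `Om k`, with the coefficients of the
curves `σ ² = w ^ (2 ν) + B w ^ ν + δ`, and with the relation `At v S s` that `S` has the value `s` at the
place `v` (affine coordinates). `Bad v S` means that at the place `v` the point `S` tends to a point where
the curve degenerates. -/
structure Bas (k : Type u) [Field k] where
  /-- the points over `k` -/
  P : Type u
  /-- the points over `Om k` -/
  Q : Type u
  /-- the coefficient `δ` -/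
  de : P → k
  /-- the coefficient `B` -/
  be : P → k
  /-- the coefficient `δ` over `Om k` -/
  deQ : Q → Om k
  /-- the coefficient `B` over `Om k` -/
  beQ : Q → Om k
  /-- the point has this value at the place -/
  At : Place k (Om k) → Q → P → Prop
  /-- the point tends to a point with singular curve -/
  Bad : Place k (Om k) → Q → Prop
  /-- the constant point -/
  cst : P → Q
  at_de : ∀ (v : Place k (Om k)) (S : Q) (s : P), At v S s → v.At (deQ S) (de s)
  at_be : ∀ (v : Place k (Om k)) (S : Q) (s : P), At v S s → v.At (beQ S) (be s)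
  cst_at : ∀ (v : Place k (Om k)) (s : P), At v (cst s) s
  cst_de : ∀ s : P, deQ (cst s) = algebraMap k (Om k) (de s)
  cst_be : ∀ s : P, beQ (cst s) = algebraMap k (Om k) (be s)

/-- the values of `δ` -/
def Bas.ed (D : Bas k) (s : Fin n → D.P) (j : Fin n) : k := D.de (s j)

/-- the values of `B` -/
def Bas.eb (D : Bas k) (s : Fin n → D.P) (j : Fin n) : k := D.be (s j)

/-- the values of `δ` over `Om k` -/
def Bas.ED (D : Bas k) (S : Fin n → D.Q) (j : Fin n) : Om k := D.deQ (S j)

/-- the values of `B` over `Om k` -/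
def Bas.EB (D : Bas k) (S : Fin n → D.Q) (j : Fin n) : Om k := D.beQ (S j)

/-- all points are on the curves -/
def Bas.On (D : Bas k) (ν : ℕ) (s : Fin n → D.P) (p : Fin n → WPt k) : Prop :=
  ∀ j, WOn ν (D.ed s j) (D.eb s j) (p j)

/-- all points are on the curves, over `Om k` -/
def Bas.OnQ (D : Bas k) (ν : ℕ) (S : Fin n → D.Q) (P : Fin n → WPt (Om k)) : Prop :=
  ∀ j, WOn ν (D.ED S j) (D.EB S j) (P j)

/-- A system of classes of `n`-tuples of points of the family. -/
structure SysW (ν : ℕ) (ζ : k) (D : Bas k) (n : ℕ) (W : Type*) [AddCommGroup W] [Module ℚ W]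
    where
  /-- the class -/
  F : (Fin n → D.P) → (Fin n → WPt k) → W
  /-- the tuple over `Om k` has a value with this class -/
  Val : Place k (Om k) → (Fin n → D.Q) → (Fin n → WPt (Om k)) → W → Prop
  /-- the action of the root of unity -/
  om : Module.End ℚ W
  perm : ∀ (s : Fin n → D.P) (p : Fin n → WPt k) (π : Equiv.Perm (Fin n)),
    F (s ∘ π) (p ∘ π) = ((Equiv.Perm.sign π : ℤˣ) : ℤ) • F s p
  rot : ∀ (s : Fin n → D.P) (p : Fin n → WPt k) (j : Fin n) (w σ : k), p j = some (w, σ) →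
    F s (Function.update p j (some (ζ * w, σ))) = om (F s p)
  inf : ∀ (s : Fin n → D.P) (p : Fin n → WPt k) (j : Fin n), p j = none → F s p = 0
  off : ∀ (s : Fin n → D.P) (p : Fin n → WPt k), ¬ D.On ν s p → F s p = 0
  fin : ∀ (v : Place k (Om k)) (S : Fin n → D.Q) (P : Fin n → WPt (Om k)),
    D.OnQ ν S P → ∀ (s : Fin n → D.P) (p : Fin n → WPt k), (∀ j, D.At v (S j) (s j)) →
    (∀ j, WVal v (P j) (p j)) → Val v S P (F s p)
  pole : ∀ (v : Place k (Om k)) (S : Fin n → D.Q) (P : Fin n → WPt (Om k)),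
    D.OnQ ν S P → ∀ (j : Fin n) (c : D.P), D.At v (S j) c → WVal v (P j) none → Val v S P 0
  sing : ∀ (v : Place k (Om k)) (S : Fin n → D.Q) (P : Fin n → WPt (Om k)),
    D.OnQ ν S P → ∀ j : Fin n, D.Bad v (S j) → Val v S P 0
  bridge : ∀ {I : Type} [Fintype I] (c : I → ℚ) (S : I → Fin n → D.Q)
    (P : I → Fin n → WPt (Om k)), (∀ x, D.OnQ ν (S x) (P x)) → ∀ (c₀ c₁ : k) (C₀ C₁ : W),
    (∀ v : Place k (Om k), v.At (tt k) c₀ → ∃ C : I → W, (∀ x, Val v (S x) (P x) (C x)) ∧
      ∑ x, c x • C x = C₀) →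
    (∀ v : Place k (Om k), v.At (tt k) c₁ → ∃ C : I → W, (∀ x, Val v (S x) (P x) (C x)) ∧
      ∑ x, c x • C x = C₁) → C₀ = C₁

/-- The curves are nondegenerate, and the numbers `B ² / δ` are distinct at the `s j`, or they are the
same at all points of the base. -/
structure Bas.Gen (D : Bas k) (s : Fin n → D.P) : Prop where
  nd : Nd (D.ed s) (D.eb s)
  iso : (∀ i j, i ≠ j → D.eb s i ^ 2 * D.ed s j ≠ D.eb s j ^ 2 * D.ed s i) ∨
    ∃ c : k, c ≠ 0 ∧ (∀ x, D.be x ^ 2 = c * D.de x) ∧
      ∀ X, D.beQ X ^ 2 = algebraMap k (Om k) c * D.deQ X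

/-- Deformations of the tuple `s`, with the parameters `z ∈ k ^ ρ`. The product of the values of
`b = -B / 2` and of `b ² - θ_j (b ² - δ)` are polynomials in `z` and the variable `τ` of degrees at most
`E` and `2 E` in `τ`. The product of the values of `δ` is the `m`-th power of such a polynomial of
degree at most `e` in `τ`. -/
structure CurveFam (D : Bas k) (E e m : ℕ) (s : Fin n → D.P) where
  /-- the number of parameters -/
  ρ : ℕ
  /-- the `m`-th root of the norm of `δ` -/
  nc : MvPolynomial (Fin ρ) k[X]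
  /-- the norm of `b` -/
  nb : MvPolynomial (Fin ρ) k[X]
  /-- the norm of `b ² - θ_j (b ² - δ)` -/
  nθ : Fin n → MvPolynomial (Fin ρ) k[X]
  /-- the values of `θ` -/
  θ : Fin n → k
  /-- the value of `nc` at the start -/
  cv : k
  inj : Function.Injective θ
  ne : ∀ j, θ j ≠ 0
  dc : ∀ z : Fin ρ →₀ ℕ, (nc.coeff z).natDegree ≤ e
  db : ∀ z : Fin ρ →₀ ℕ, (nb.coeff z).natDegree ≤ E
  dθ : ∀ (j : Fin n) (z : Fin ρ →₀ ℕ), ((nθ j).coeff z).natDegree ≤ 2 * E
  cm : cv ^ m = ∏ j, D.ed s j
  zc : ∀ z : Fin ρ → k, (nc.eval fun i => C (z i)).eval 0 = cv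
  zb : ∀ z : Fin ρ → k, (nb.eval fun i => C (z i)).eval 0 = ∏ j, (-D.eb s j / 2)
  zθ : ∀ (j : Fin n) (z : Fin ρ → k), ((nθ j).eval fun i => C (z i)).eval 0 =
    ∏ l, ((-D.eb s l / 2) ^ 2 - θ j * ((-D.eb s l / 2) ^ 2 - D.ed s l))
  cc : nc.eval 0 = C cv
  cb : nb.eval 0 = C (∏ j, (-D.eb s j / 2))
  cθ : ∀ j, (nθ j).eval 0 =
    C (∏ l, ((-D.eb s l / 2) ^ 2 - θ j * ((-D.eb s l / 2) ^ 2 - D.ed s l)))
  /-- the value at `δ` of the form at `τ = 0` -/
  u : k
  /-- the value at `δ` of the direction `z` -/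
  h : (Fin ρ → k) → k
  u_ne : u ≠ 0
  pts : ∀ z : Fin ρ → k, z ≠ 0 → ∀ τ : Om k, Transcendental k τ →
    (∃ v : Place k (Om k), v.At τ 0) → ∃ S : Fin n → D.Q,
    (aeval τ (nc.eval fun i => C (z i))) ^ m = ∏ j, D.ED S j ∧
    (∏ j, (-D.EB S j / 2) = aeval τ (nb.eval fun i => C (z i))) ∧
    (∀ j, ∏ l, ((-D.EB S l / 2) ^ 2 - algebraMap k (Om k) (θ j) *
      ((-D.EB S l / 2) ^ 2 - D.ED S l)) = aeval τ ((nθ j).eval fun i => C (z i))) ∧
    (∀ v : Place k (Om k), v.At τ 0 → ∃ π : Equiv.Perm (Fin n), ∀ j, D.At v (S j) (s (π j))) ∧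
    ∀ v : Place k (Om k), ((∃ τ₁ : k, v.At τ τ₁ ∧ u + τ₁ * h z = 0) ∨
      (τ ∉ v.ring ∧ h z = 0)) → ∃ j, D.Bad v (S j)

open Classical in
/-- The class of the configurations with the state `M` and the product `P`; it is zero if there are
none. -/
def Psi {ν : ℕ} {ζ : k} {D : Bas k} (Y : SysW ν ζ D n W) (s : Fin n → D.P) (M : Mq k) (P : k) :
    W :=
  if h : ∃ cw : Cfg k n × (Fin n → k), Rz ν (D.ed s) (D.eb s) M P cw.1 cw.2 then
    sgz h.choose.1.ord • Y.F s (cpt (D.eb s) h.choose.1 h.choose.2)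
  else 0

/-- The class for the point `(W, S)` of the curve of the closing side. -/
def GG {ν : ℕ} {ζ : k} {D : Bas k} (Y : SysW ν ζ D n W) (s : Fin n → D.P) (M : Mq k) (S P : k) :
    W := Psi Y s (M.fr (cl ν M S P)) P

open Classical in
/-- The points of the family with the state `M'`, the square roots `β'` and the product `P'` (`none` if
there are no configurations). -/
def Pts (ν : ℕ) (D : Bas k) (S : Fin n → D.Q) (M' : Mq (Om k)) (P' : Om k) (β' : Fin n → Om k) :
    Fin n → WPt (Om k) :=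
  if h : ∃ Tw : (Fin n → Om k) × (Fin n → Om k),
      Rw ν (D.ED S) (D.EB S) M' P' ⟨1, β', Tw.1⟩ Tw.2 then
    cpt (D.EB S) ⟨1, β', h.choose.1⟩ h.choose.2
  else fun _ => none

end Pool.Agent.DK
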