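import Pool.Agent.DK.Psi
import Pool.Agent.TInf.FamStart

/-!
# The points of the families, and their values at the start and at the end
-/

set_option autoImplicit false

noncomputable section

namespace Pool.Agent.DK

open Pool.Agent.ZCyc Pool.Agent.TInf Polynomial
open Pool.Agent.VFP (Om tt)

universe u

variable {k : Type u} [Field k] [IsAlgClosed k] [CharZero k] {n ν : ℕ} {ζ : k} {D : Bas k}
  {W : Type*} [AddCommGroup W] [Module ℚ W]

theorem Pts_on (hν : 0 < ν) (S : Fin n → D.Q) (M' : Mq (Om k)) (P' : Om k)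
    (β' : Fin n → Om k) : D.OnQ ν S (Pts ν D S M' P' β') := by
  classical
  unfold Pts
  split_ifs with h
  · intro j
    have hr := h.choose_spec
    exact cpt_on hν hr.good hr.w6 j
  · intro j
    trivial

omit [IsAlgClosed k] [CharZero k] in
private theorem mat_uniq {v : Place k (Om k)} {M' : Mq (Om k)} {M N : Mq k} (h : MAt v M' M)
    (h' : MAt v M' N) : M = N :=
  Mq.ext (h.a.unique h'.a) (h.b.unique h'.b) (h.c.unique h'.c) (h.t.unique h'.t)

omit [IsAlgClosed k] in
private theorem half_at {v : Place k (Om k)} {x : Om k} {c : k} (h : v.At x c) :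
    v.At (x / 2) (c / 2) := by
  have h2 : v.At (2 : Om k) (2 : k) := by
    have := Place.at_const (v := v) (2 : k)
    rwa [map_ofNat] at this
  exact h.div h2 two_ne_zero

/-- if `w` is a unit at `v` then the coordinate `T` has a good value -/
private theorem good_value {v : Place k (Om k)} {s' : Side (Om k)} {p m : k} (hg : s'.Good)
    (hp : v.At s'.p p) (hm : v.At s'.m m) (hD : p * m ≠ 0) {w : Om k} (hw : w ^ ν = s'.V)
    (h1 : w ∈ v.ring) (h2 : w⁻¹ ∈ v.ring) : ∃ t : k, v.At s'.T t ∧ (⟨p, m, t⟩ : Side k).Good := by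
  have hDat : v.At s'.D (p * m) := hp.mul hm
  have hD0 : s'.D ≠ 0 := by
    intro h0
    rw [h0] at hDat
    exact hD (hDat.unique (Place.at_zero_iff.2 v.vanishes_zero))
  have hU := side_unit v hg hp.mem hm.mem hD0 (hDat.inv hD).mem
    (by rw [← hw]; exact pow_mem h1 ν)
    (by rw [← hw, ← inv_pow]; exact pow_mem h2 ν)
  obtain ⟨t, ht⟩ := DCI57.exists_at v hU.T
  have key : ∀ {x : Om k} {y : k}, v.At x y → x ≠ 0 → x⁻¹ ∈ v.ring → y ≠ 0 := by
    intro x y hx hx0 hxi hy
    rw [hy, Place.at_zero_iff, Place.vanishes_iff_or] at hx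
    rcases hx with h | h
    · exact hx0 h
    · exact h hxi
  exact ⟨t, ht, key ht hg.1 hU.T', key (ht.add hp) hg.2.1 hU.Tp, key (ht.add hm) hg.2.2 hU.Tm⟩

/-- The transfer of the family to a place `v` where the `S j` have nondegenerate values `s j`.
Case A: there are no configurations over `Om k`. Case B: there are configurations, and all `T j`
have values such that the sides are good. Case C: some `T j` has no such value. -/
theorem Pts_start (Y : SysW ν ζ D n W) (hζ : IsPrimitiveRoot ζ ν) (hν : 0 < ν) (hn : 0 < n)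
    {v : Place k (Om k)} {S : Fin n → D.Q} {s : Fin n → D.P} (hS : ∀ j, D.At v (S j) (s j))
    (hs : Nd (D.ed s) (D.eb s)) {M' : Mq (Om k)} {M : Mq k}
    (hst : IsSt (D.ED S) (D.EB S) M') (hM : MAt v M' M)
    {P' : Om k} {P : k} (hP : v.At P' P)
    (hP6 : P' ^ ν = M'.V0) {β' : Fin n → Om k} (hβ : ∀ j, β' j ^ 2 = D.ED S j)
    (hβA : ∀ β : Fin n → k, (∀ j, v.At (β' j) (β j)) → Adm (D.ed s) (D.eb s) β) :
    Y.Val v S (Pts ν D S M' P' β') (Psi Y s M P) := by
  classical
  have hα' : ∀ j, v.At (D.ED S j) (D.ed s j) := fun j => D.at_de v _ _ (hS j)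
  have hB' : ∀ j, v.At (D.EB S j) (D.eb s j) := fun j => D.at_be v _ _ (hS j)
  have hex : ∀ j, ∃ b : k, v.At (β' j) b ∧ b ^ 2 = D.ed s j := fun j =>
    exists_at_sqrt v (hβ j) (hα' j)
  choose β hβv hβs using hex
  have hA : Adm (D.ed s) (D.eb s) β := hβA β hβv
  by_cases h : ∃ Tw : (Fin n → Om k) × (Fin n → Om k),
      Rw ν (D.ED S) (D.EB S) M' P' ⟨1, β', Tw.1⟩ Tw.2
  · -- the points
    obtain ⟨Tw, hTwe⟩ : ∃ Tw : (Fin n → Om k) × (Fin n → Om k), Tw = h.choose := ⟨_, rfl⟩
    have hTw : Rw ν (D.ED S) (D.EB S) M' P' ⟨1, β', Tw.1⟩ Tw.2 := by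
      rw [hTwe]
      exact h.choose_spec
    have hPts : Pts ν D S M' P' β' = cpt (D.EB S) (⟨1, β', Tw.1⟩ : Cfg (Om k) n) Tw.2 := by
      rw [hTwe]
      unfold Pts
      rw [dif_pos h]
    have hpv : ∀ j, v.At ((⟨1, β', Tw.1⟩ : Cfg (Om k) n).side (D.EB S) j).p
        (-D.eb s j / 2 + β j) := fun j => (half_at (hB' j).neg).add (hβv j)
    have hmv : ∀ j, v.At ((⟨1, β', Tw.1⟩ : Cfg (Om k) n).side (D.EB S) j).m
        (-D.eb s j / 2 - β j) := fun j => (half_at (hB' j).neg).sub (hβv j)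
    by_cases hT : ∀ j, ∃ t : k, v.At (Tw.1 j) t ∧
        (⟨-D.eb s j / 2 + β j, -D.eb s j / 2 - β j, t⟩ : Side k).Good
    · -- Case B
      choose t ht htg using hT
      obtain ⟨c, hc⟩ : ∃ c : Cfg k n, c = ⟨1, β, t⟩ := ⟨_, rfl⟩
      have hcs : ∀ j, c.side (D.eb s) j =
          ⟨-D.eb s j / 2 + β j, -D.eb s j / 2 - β j, t j⟩ := by
        intro j
        rw [hc]
        rfl
      have hgs : ∀ j, (c.side (D.eb s) j).Good := by
        intro j
        rw [hcs]
        exact htg j
      have hSA : ∀ j, SAt v ((⟨1, β', Tw.1⟩ : Cfg (Om k) n).side (D.EB S) j)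
          (c.side (D.eb s) j) := by
        intro j
        rw [hcs]
        exact ⟨hpv j, hmv j, ht j⟩
      have hVA := fun j => DK.V_at (hSA j) (hgs j)
      choose u hu hu6 using fun j => w_at hν (hTw.w6 j) (hVA j)
      have hR : Rz ν (D.ed s) (D.eb s) M P c u := by
        refine ⟨⟨⟨?_, hgs⟩, ?_, hu6, ?_⟩, ?_⟩
        · intro j
          rw [hc]
          exact hβs j
        · have h1 : MAt v ((⟨1, β', Tw.1⟩ : Cfg (Om k) n).M (D.EB S))
              (c.M (D.eb s)) := by
            rw [Cfg.M_eq, Cfg.M_eq]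
            refine MAt.st ?_ ?_
            · unfold Cfg.sides
              rw [List.forall₂_map_left_iff, List.forall₂_map_right_iff, List.forall₂_same]
              intro a _
              have : c.ord a = (1 : Equiv.Perm (Fin n)) a := by rw [hc]
              rw [this]
              exact hSA _
            · intro x hx
              obtain ⟨j, rfl⟩ := Cfg.mem_sides hx
              exact hgs j
          rw [hTw.st] at h1
          exact mat_uniq h1 hM
        · have h1 : v.At (∏ j, Tw.2 j) (∏ j, u j) := Place.At.prod fun j _ => hu j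
          rw [hTw.prod] at h1
          exact h1.unique hP
        · rw [hc]
          exact hA
      rw [Psi_eq Y hζ hν hs hR]
      have h1 : sgz c.ord = 1 := by
        rw [hc]
        simp [sgz]
      rw [h1, one_smul]
      refine Y.fin v S _ (Pts_on hν S M' P' β') s _ hS ?_
      intro j
      rw [hPts]
      exact wpt_val (hSA j) (hgs j) (hu j) (DK.w_ne hν (hgs j) (hu6 j))
    · -- Case C
      push Not at hT
      obtain ⟨j₀, hT⟩ := hT
      have hD : (-D.eb s j₀ / 2 + β j₀) * (-D.eb s j₀ / 2 - β j₀) ≠ 0 := by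
        have h1 := hs.disc j₀
        rw [← hβs j₀] at h1
        intro h2
        apply h1
        linear_combination 4 * h2
      have hwz : v.At (Tw.2 j₀) 0 ∨ Tw.2 j₀ ∉ v.ring := by
        by_contra hcon
        push Not at hcon
        obtain ⟨g1, g2⟩ := hcon
        rw [Place.at_zero_iff, Place.vanishes_iff_or] at g1
        push Not at g1
        obtain ⟨t, ht, htg⟩ := good_value (hTw.good.2 j₀) (hpv j₀) (hmv j₀) hD
          (hTw.w6 j₀) g2 g1.2
        exact hT t ht htg
      have hPsi : Psi Y s M P = 0 := by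
        by_contra hne
        have hF := Psi_full Y hζ hν hs hne
        obtain ⟨c, hcg, -, -, hcb, hcT⟩ := cfg_value v hα' hB' hs hM hst hF hTw.good hTw.st
          hβv hA
        refine hT (c.T j₀) (hcT j₀) ?_
        have h1 := hcg.2 j₀
        unfold Cfg.side at h1
        rw [hcb] at h1
        exact h1
      rw [hPsi]
      refine Y.pole v S _ (Pts_on hν S M' P' β') j₀ (s j₀) (hS j₀) ?_
      rw [hPts]
      exact wpt_inf hwz.symm
  · -- Case A
    have hPts : Pts ν D S M' P' β' = fun _ => none := by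
      unfold Pts
      rw [dif_neg h]
    have hPsi : Psi Y s M P = 0 := by
      by_contra hne
      have hF := Psi_full Y hζ hν hs hne
      obtain ⟨T', T, h1, h2, -⟩ := cfg_lift v hα' hB' hs hM hst hF 1 hβ hβv hA
      have hV := DK.prod_V h1
      rw [h2, ← hP6] at hV
      obtain ⟨w, hw, hwP⟩ := exists_roots hν hn (fun j => V_ne (h1.2 j)) hV.symm
      exact h ⟨(T', w), ⟨h1, h2, hw, hwP⟩⟩
    rw [hPsi]
    refine Y.pole v S _ (Pts_on hν S M' P' β') ⟨0, hn⟩ (s ⟨0, hn⟩) (hS _) ?_
    rw [hPts]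
    trivial

/-- If the `S j` are constants, and something is unbounded at `v`, then the class of the member of
the family is zero at `v`. -/
theorem Pts_end (Y : SysW ν ζ D n W) (hν : 0 < ν) (hn : 0 < n)
    {s : Fin n → D.P} (hs : Nd (D.ed s) (D.eb s)) {v : Place k (Om k)}
    {M' : Mq (Om k)} {P' : Om k} {β' : Fin n → Om k}
    (hβ : ∀ j, β' j ^ 2 = D.ED (fun j => D.cst (s j)) j)
    (h : ¬ (PIn v M'.a ∧ PIn v M'.b ∧ PIn v M'.c ∧ PIn v M'.t ∧
      P' ∈ v.ring ∧ P'⁻¹ ∈ v.ring)) :
    Y.Val v (fun j => D.cst (s j)) (Pts ν D (fun j => D.cst (s j)) M' P' β') 0 := by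
  classical
  set S : Fin n → D.Q := fun j => D.cst (s j) with hS
  have hon : D.OnQ ν S (Pts ν D S M' P' β') := Pts_on hν S M' P' β'
  have heva : ∀ j : Fin n, D.ED S j = algebraMap k (Om k) (D.ed s j) :=
    fun j => D.cst_de (s j)
  have hevb : ∀ j : Fin n, D.EB S j = algebraMap k (Om k) (D.eb s j) :=
    fun j => D.cst_be (s j)
  have hSv : ∀ j, D.At v (S j) (s j) := fun j => D.cst_at v _
  by_cases hT : ∃ Tw : (Fin n → Om k) × (Fin n → Om k),
      Rw ν (D.ED S) (D.EB S) M' P' ⟨1, β', Tw.1⟩ Tw.2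
  · have hPts : Pts ν D S M' P' β' =
        cpt (D.EB S) (⟨1, β', hT.choose.1⟩ : Cfg (Om k) n) hT.choose.2 := dif_pos hT
    have hTw := hT.choose_spec
    rw [hPts] at hon ⊢
    generalize hT.choose = Tw at hTw hon ⊢
    obtain ⟨c, hc⟩ : ∃ c : Cfg (Om k) n, c = ⟨1, β', Tw.1⟩ := ⟨_, rfl⟩
    rw [← hc] at hTw hon ⊢
    by_cases hz : ∃ j, v.At (Tw.2 j) 0 ∨ Tw.2 j ∉ v.ring
    · obtain ⟨j, hj⟩ := hz
      exact Y.pole v S _ hon j (s j) (hSv j) (wpt_inf hj.symm)
    · exfalso
      apply h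
      push Not at hz
      have hwm : ∀ j, Tw.2 j ∈ v.ring := fun j => (hz j).2
      have hwi : ∀ j, (Tw.2 j)⁻¹ ∈ v.ring := by
        intro j
        by_contra hcon
        apply (hz j).1
        rw [Place.at_zero_iff, Place.vanishes_iff_or]
        exact Or.inr hcon
      have hun : ∀ j, (c.side (D.EB S) j).Unit v := by
        intro j
        have hβm : c.β j ∈ v.ring := by
          have h2 : c.β j ^ 2 ∈ v.ring := by
            rw [hTw.good.1 j, heva]
            exact v.const_mem _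
          rcases v.ring.mem_or_inv_mem (c.β j) with h3 | h3
          · exact h3
          · by_cases h4 : c.β j = 0
            · rw [h4]
              exact zero_mem _
            · have h5 : c.β j = c.β j ^ 2 * (c.β j)⁻¹ := by field_simp
              rw [h5]
              exact mul_mem h2 h3
        have hBm : -D.EB S j / 2 ∈ v.ring := by
          have e : -D.EB S j / 2 = algebraMap k (Om k) (-D.eb s j / 2) := by
            rw [hevb, map_div₀, map_neg, map_ofNat]
          rw [e]
          exact v.const_mem _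
        have hD' : (c.side (D.EB S) j).D =
            algebraMap k (Om k) ((D.eb s j ^ 2 - 4 * D.ed s j) / 4) := by
          have hD := side_pm hTw.good j
          have e1 : (c.side (D.EB S) j).D = (c.side (D.EB S) j).p * (c.side (D.EB S) j).m := rfl
          rw [e1, hD, heva, hevb, map_div₀, map_sub, map_mul, map_pow, map_ofNat]
        have hD0 : (D.eb s j ^ 2 - 4 * D.ed s j) / 4 ≠ 0 :=
          div_ne_zero (sub_ne_zero.2 (hs.disc j)) (by norm_num)
        refine side_unit v (hTw.good.2 j) (add_mem hBm hβm) (sub_mem hBm hβm) ?_ ?_ ?_ ?_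
        · rw [hD']
          exact (_root_.map_ne_zero _).2 hD0
        · rw [hD', ← map_inv₀]
          exact v.const_mem _
        · rw [← hTw.w6 j]
          exact pow_mem (hwm j) ν
        · rw [← hTw.w6 j, ← inv_pow]
          exact pow_mem (hwi j) ν
      obtain ⟨h1, h2, h3, h4⟩ := st_mem v (l := c.sides (D.EB S)) (by
        intro t ht
        obtain ⟨j, rfl⟩ := Cfg.mem_sides ht
        exact hun j)
      rw [← Cfg.M_eq, hTw.st] at h1 h2 h3 h4
      refine ⟨h1, h2, h3, h4, ?_, ?_⟩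
      · rw [← hTw.prod]
        exact prod_mem fun j _ => hwm j
      · rw [← hTw.prod, ← Finset.prod_inv_distrib]
        exact prod_mem fun j _ => hwi j
  · have hPts : Pts ν D S M' P' β' = fun _ => none := dif_neg hT
    rw [hPts] at hon ⊢
    exact Y.pole v S _ hon ⟨0, hn⟩ (s ⟨0, hn⟩) (hSv _) trivial

/-- The square roots over `Om k`: in the isotrivial case `B ² = c δ` take `γ B`, `γ ² c = 1`. -/
theorem exists_beta {s : Fin n → D.P} (hG : D.Gen s) (S : Fin n → D.Q) :
    ∃ β' : Fin n → Om k, (∀ j, β' j ^ 2 = D.ED S j) ∧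
      ∀ (v : Place k (Om k)) (π : Equiv.Perm (Fin n)), (∀ j, D.At v (S j) (s (π j))) →
        ∀ β : Fin n → k, (∀ j, v.At (β' j) (β j)) →
          Adm (D.ed (s ∘ π)) (D.eb (s ∘ π)) β := by
  have h := hG.iso
  have key : ∀ (β' : Fin n → Om k), (∀ j, β' j ^ 2 = D.ED S j) →
      ∀ (v : Place k (Om k)) (π : Equiv.Perm (Fin n)), (∀ j, D.At v (S j) (s (π j))) →
        ∀ β : Fin n → k, (∀ j, v.At (β' j) (β j)) → ∀ j, β j ^ 2 = D.ed (s ∘ π) j := by
    intro β' h1 v π hS β hβ j
    have h2 : v.At (β' j ^ 2) (β j ^ 2) := (hβ j).pow 2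
    rw [h1 j] at h2
    exact h2.unique (D.at_de v _ _ (hS j))
  rcases h with h | ⟨c, hc, -, h⟩
  · have hsq : ∀ j, ∃ b : Om k, b ^ 2 = D.ED S j := fun j =>
      IsAlgClosed.exists_pow_nat_eq _ (by norm_num)
    choose β' hβ' using hsq
    refine ⟨β', hβ', fun v π hS β hβ => ⟨key β' hβ' v π hS β hβ, Or.inl ?_⟩⟩
    intro i j hij
    exact h (π i) (π j) fun h0 => hij (π.injective h0)
  · obtain ⟨γ, hγ⟩ : ∃ γ : k, γ ^ 2 = c⁻¹ := IsAlgClosed.exists_pow_nat_eq _ (by norm_num)
    have hβ' : ∀ j, (algebraMap k (Om k) γ * D.EB S j) ^ 2 = D.ED S j := by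
      intro j
      have h1 : D.EB S j ^ 2 = algebraMap k (Om k) c * D.ED S j := h (S j)
      rw [mul_pow, h1, ← map_pow, hγ, ← mul_assoc, ← map_mul, inv_mul_cancel₀ hc, map_one, one_mul]
    refine ⟨fun j => algebraMap k (Om k) γ * D.EB S j, hβ', fun v π hS β hβ =>
      ⟨key _ hβ' v π hS β hβ, Or.inr ?_⟩⟩
    have hβ2 : ∀ j, β j = γ * D.eb (s ∘ π) j := fun j =>
      (hβ j).unique ((Place.at_const γ).mul (D.at_be v _ _ (hS j)))
    intro i j
    rw [hβ2 i, hβ2 j]
    ring

end Pool.Agent.DK
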