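import Pool.Agent.DK.Clo
import Pool.Agent.TInf.FamState
import Pool.Agent.TInf.FamConst
import Pool.Agent.TInf.FamIsSt

/-!
# The states over `Om k`
-/

set_option autoImplicit false

noncomputable section

namespace Pool.Agent.DK

open Pool.Agent.ZCyc Pool.Agent.TInf Polynomial
open Pool.Agent.VFP (Om tt)

universe u

/-- the equation of a state from its values at `0` and at the `θ j` -/
theorem isSt_of {K : Type*} [Field K] {n : ℕ} {δ B : Fin n → K} {M : Mq K} (hd : M.Deg n)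
    {θ : Fin n → K} (inj : Function.Injective θ) (ne : ∀ j, θ j ≠ 0)
    (h0 : M.a.eval 0 = ∏ j, (-B j / 2))
    (h1 : ∀ i, M.a.eval (θ i) ^ 2 + θ i * (M.b.eval (θ i) * M.c.eval (θ i)) +
      θ i * (1 - θ i) * M.t.eval (θ i) ^ 2 =
        ∏ j, ((-B j / 2) ^ 2 - θ i * ((-B j / 2) ^ 2 - δ j))) : IsSt δ B M := by
  refine ⟨hd, ?_, h0⟩
  rw [state_q hd (D := fun j => (-B j / 2) ^ 2 - δ j) inj ne h0 h1]
  refine Finset.prod_congr rfl fun j _ => ?_
  rw [show (-B j / 2) ^ 2 = (B j / 2) ^ 2 by ring]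

/-- the assumptions of `krull` for a state -/
theorem krull_start {k : Type*} [Field k] {n : ℕ} {δ B : Fin n → k} {M : Mq k}
    (h : IsSt δ B M) (θ : k) :
    M.a.eval θ ^ 2 + θ * (M.b.eval θ * M.c.eval θ) + θ * (1 - θ) * M.t.eval θ ^ 2 =
        ∏ l, ((-B l / 2) ^ 2 - θ * ((-B l / 2) ^ 2 - δ l)) := by
  have e := congrArg (eval θ) h.q
  unfold Mq.q at e
  simp only [eval_add, eval_mul, eval_pow, eval_X, eval_sub, eval_one, eval_prod, eval_C] at e
  have h2 : ∏ l, ((-B l / 2) ^ 2 - θ * ((-B l / 2) ^ 2 - δ l)) =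
      ∏ l, ((B l / 2) ^ 2 - ((B l / 2) ^ 2 - δ l) * θ) :=
    Finset.prod_congr rfl fun l _ => by ring
  rw [h2, ← e]
  ring

variable {k : Type u} [Field k] {n : ℕ}

/-- The state over `Om k` from the output of `krull`. -/
theorem isSt_mo [CharZero k] {A P M G : k[X][X]} (τ : Om k) {ED EB : Fin n → Om k}
    {θ : Fin n → k} (inj : Function.Injective θ) (ne : ∀ j, θ j ≠ 0)
    (hA : A.degree < (n / 2 + 1 : ℕ)) (hP : P.degree < ((n + 1) / 2 : ℕ))
    (hM : M.degree < ((n + 1) / 2 : ℕ)) (hG : G.degree < (n / 2 : ℕ)) {p0 : k[X]}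
    {p1 : Fin n → k[X]} (h0 : A.eval 0 = p0)
    (h1 : ∀ j : Fin n, A.eval (C (θ j)) ^ 2 +
        C (θ j) * (P.eval (C (θ j)) * M.eval (C (θ j))) +
        C (θ j * (1 - θ j)) * G.eval (C (θ j)) ^ 2 = p1 j)
    (e0 : ∏ j, (-EB j / 2) = aeval τ p0)
    (e1 : ∀ j, ∏ l, ((-EB l / 2) ^ 2 - algebraMap k (Om k) (θ j) *
      ((-EB l / 2) ^ 2 - ED l)) = aeval τ (p1 j)) :
    IsSt ED EB (mo τ A P M G) := by
  have hev : ∀ (Q : k[X][X]) (x : k), (Q.map (aeval τ : k[X] →ₐ[k] Om k).toRingHom).eval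
      (algebraMap k (Om k) x) = aeval τ (Q.eval (C x)) := fun Q x => pv_eval τ Q x
  refine isSt_of ⟨degree_map_le.trans_lt hA, degree_map_le.trans_lt hP,
    degree_map_le.trans_lt hM, degree_map_le.trans_lt hG⟩
    (θ := fun j => algebraMap k (Om k) (θ j))
    (fun i j h => inj ((algebraMap k (Om k)).injective h))
    (fun j => (_root_.map_ne_zero _).2 (ne j)) ?_ ?_
  · rw [e0, ← h0]
    have h2 := hev A 0
    rw [map_zero, C_0] at h2
    exact h2
  · intro j
    rw [e1 j, ← h1 j]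
    simp only [mo, hev, map_add, map_mul, map_pow, aeval_C, map_sub, map_one]

variable [IsAlgClosed k] [CharZero k] {ν : ℕ}

omit [IsAlgClosed k] [CharZero k] in
private lemma fc_cmul {v : Place k (Om k)} {P : (Om k)[X]} {p : k[X]} (h : PAt v P p) {x : Om k}
    {y : k} (hx : v.At x y) : PAt v (C x * P) (C y * p) := fun i => by
  rw [coeff_C_mul, coeff_C_mul]
  exact hx.mul (h i)

omit [IsAlgClosed k] [CharZero k] in
/-- the value of the state with the closing side given by `S`, `w` -/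
theorem fr_at {v : Place k (Om k)} {M' : Mq (Om k)} {M : Mq k} (hM : MAt v M' M) {S' w' : Om k}
    {S w : k} (hS : v.At S' S) (hw : v.At w' w) (hc : M.c.eval 1 ≠ 0) (hT : cl ν M S w ≠ 0) :
    MAt v (M'.fr (cl ν M' S' w')) (M.fr (cl ν M S w)) := by
  have h1 : v.At (1 : Om k) 1 := by
    have := Place.at_const (v := v) (1 : k)
    rwa [map_one] at this
  have hcT : v.At (cl ν M' S' w') (cl ν M S w) :=
    ((hw.pow ν).sub (hM.a.eval h1)).add hS
  have hc1 : v.At (M'.c.eval 1) (M.c.eval 1) := hM.c.eval h1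
  have hρ : v.At (-(M'.c.eval 1) / cl ν M' S' w') (-(M.c.eval 1) / cl ν M S w) :=
    hc1.neg.div hcT hT
  have hρ0 : -(M.c.eval 1) / cl ν M S w ≠ 0 := div_ne_zero (neg_ne_zero.2 hc) hT
  exact ⟨hM.a, fc_cmul hM.b hρ, fc_cmul hM.c (hρ.inv hρ0), hM.t⟩

omit [IsAlgClosed k] [CharZero k] in
/-- Let `τ` have a pole at `v`. If the state (in some frame `ρ`) is bounded at `v`, and
`b(1) c(1)` is not zero for `τ = 0`, then everything is constant. -/
theorem const_of_bounded {v : Place k (Om k)} {τ : Om k} (hτ : τ ∉ v.ring) {A P M G : k[X][X]}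
    {ρ : Om k} (hρ : ρ ≠ 0) {δ : k}
    (ha : PIn v ((mo τ A P M G).rot ρ).a) (hb : PIn v ((mo τ A P M G).rot ρ).b)
    (hc : PIn v ((mo τ A P M G).rot ρ).c) (ht : PIn v ((mo τ A P M G).rot ρ).t)
    (hbc : (mo τ A P M G).b.eval 1 * (mo τ A P M G).c.eval 1 =
      algebraMap k (Om k) δ - (mo τ A P M G).a.eval 1 ^ 2)
    (hne : (P.map (evalRingHom 0)).eval 1 * (M.map (evalRingHom 0)).eval 1 ≠ 0) :
    A = (A.map (evalRingHom 0)).map C ∧ P = (P.map (evalRingHom 0)).map C ∧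
      M = (M.map (evalRingHom 0)).map C ∧ G = (G.map (evalRingHom 0)).map C := by
  obtain ⟨h1, h2, h3, h4, -⟩ := TInf.const_of_bounded hτ (x := (C 2 : k[X])) (w := 1) hρ
    (γ := 1) ha hb hc ht (one_mem _) (by rw [inv_one]; exact one_mem _) one_ne_zero
    (by rw [aeval_C, map_one, map_ofNat]; norm_num) hbc hne
  exact ⟨h1, h2, h3, h4⟩

end Pool.Agent.DK
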