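import Pool.Agent.DK.Defs
import Pool.Agent.ZIso.Krull

/-!
# Rational curves through a point of the symmetric model

The closing side is given by the equation `q y ² = Gp(x, c, a(1))` with a polynomial `Gp`, where `c` is the
root of the norm of `δ`. The degrees in the parameter of the curve are: `x` at most `d`, the state at
most `E`, `q y ²` at most `2 L`. There are `ρ + E (2 N + 1) + d + (L - 1) + 2` unknown coefficients and
`E + 2 E N + 2 L` equations.
-/

set_option autoImplicit false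

noncomputable section

namespace Pool.Agent.DK

open Polynomial

universe u

variable {k : Type u} [Field k]

/-- The polynomial with constant coefficient `c` and the other coefficients `v`. -/
private def kq {S : Type*} [CommRing S] [Algebra k S] (c : k) (m : ℕ) (v : Fin m → S) : S[X] :=
  C (algebraMap k S c) + ∑ i : Fin m, C (v i) * X ^ (i.val + 1)

section kq

variable {S T : Type*} [CommRing S] [Algebra k S] [CommRing T] [Algebra k T]

private theorem kq_natDegree (c : k) (m : ℕ) (v : Fin m → S) : (kq c m v).natDegree ≤ m := by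
  unfold kq
  refine natDegree_add_le_of_degree_le (by simp) ?_
  refine natDegree_sum_le_of_forall_le _ _ fun i _ => ?_
  exact (natDegree_C_mul_X_pow_le _ _).trans i.2

private theorem kq_eval (c : k) (m : ℕ) (v : Fin m → k) : (kq c m v).eval 0 = c := by
  unfold kq
  rw [eval_add, eval_C, eval_finsetSum]
  simp

private theorem kq_map (f : S →ₐ[k] T) (c : k) (m : ℕ) (v : Fin m → S) :
    Polynomial.mapAlgHom f (kq c m v) = kq c m fun i => f (v i) := by
  unfold kq
  simp [Polynomial.map_sum]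

private theorem kq_zero (c : k) (m : ℕ) : kq c m (fun _ => (0 : k)) = C c := by
  unfold kq
  simp

private theorem kq_const {c c' : k} {m : ℕ} {v : Fin m → k} (h : kq c m v = C c') :
    ∀ i, v i = 0 := by
  intro i
  have h1 := congrArg (fun p => p.coeff (i.val + 1)) h
  simp only [kq, coeff_add, coeff_C_succ, finsetSum_coeff, coeff_C_mul, coeff_X_pow] at h1
  rw [zero_add, Finset.sum_eq_single i] at h1
  · simpa using h1
  · intro j _ hj
    rw [if_neg, mul_zero]
    intro h2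
    exact hj (Fin.ext (by omega))
  · intro h2
    exact absurd (Finset.mem_univ _) h2

end kq

/-- The value at `θ` of the polynomial with coefficients `kq (c j) m (v j)`. -/
private def sv {S : Type*} [CommRing S] [Algebra k S] (d m : ℕ) (c : ℕ → k) (v : Fin d × Fin m → S)
    (θ : k) : S[X] :=
  ∑ j : Fin d, algebraMap k S[X] (θ ^ (j : ℕ)) * kq (c j) m fun i => v (j, i)

private theorem sv_map {S T : Type*} [CommRing S] [Algebra k S] [CommRing T] [Algebra k T]
    (f : S →ₐ[k] T) (d m : ℕ) (c : ℕ → k) (v : Fin d × Fin m → S) (θ : k) :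
    Polynomial.mapAlgHom f (sv d m c v θ) = sv d m c (fun i => f (v i)) θ := by
  unfold sv
  rw [map_sum]
  refine Finset.sum_congr rfl fun j _ => ?_
  rw [map_mul, kq_map, AlgHom.commutes]

private theorem sv_natDegree {S : Type*} [CommRing S] [Algebra k S] (d m : ℕ) (c : ℕ → k)
    (v : Fin d × Fin m → S) (θ : k) : (sv d m c v θ).natDegree ≤ m := by
  unfold sv
  refine natDegree_sum_le_of_forall_le _ _ fun i _ => ?_
  rw [Polynomial.algebraMap_apply]
  exact (natDegree_C_mul_le _ _).trans (kq_natDegree _ _ _)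

private theorem eval_fin {p : k[X]} {d : ℕ} (h : p.degree < d) (θ : k) :
    p.eval θ = ∑ j : Fin d, θ ^ (j : ℕ) * p.coeff j := by
  by_cases hd : d = 0
  · subst hd
    have h1 : p = 0 := by
      rw [← degree_eq_bot]
      simpa using h
    simp [h1]
  · have h1 : p.natDegree < d := by
      by_cases h0 : p = 0
      · rw [h0, natDegree_zero]
        omega
      · exact (natDegree_lt_iff_degree_lt h0).2 h
    rw [eval_eq_sum_range' h1, Fin.sum_univ_eq_sum_range (fun j => θ ^ j * p.coeff j) d]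
    exact Finset.sum_congr rfl fun j _ => mul_comm _ _

private theorem sv_zero {p : k[X]} {d : ℕ} (h : p.degree < d) (m : ℕ) (θ : k) :
    sv d m p.coeff (fun _ => (0 : k)) θ = C (p.eval θ) := by
  unfold sv
  simp only [kq_zero]
  rw [eval_fin h, map_sum]
  refine Finset.sum_congr rfl fun j _ => ?_
  simp

/-- The polynomial in two variables. -/
private def bp (d m : ℕ) (c : ℕ → k) (v : Fin d × Fin m → k) : k[X][X] :=
  ∑ j : Fin d, C (kq (c j) m fun i => v (j, i)) * X ^ (j : ℕ)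

private theorem bp_degree (d m : ℕ) (c : ℕ → k) (v : Fin d × Fin m → k) :
    (bp d m c v).degree < d :=
  degree_sum_fin_lt _

private theorem bp_coeff (d m : ℕ) (c : ℕ → k) (v : Fin d × Fin m → k) (j : Fin d) :
    (bp d m c v).coeff j = kq (c j) m fun i => v (j, i) := by
  unfold bp
  rw [finsetSum_coeff, Finset.sum_eq_single j]
  · simp
  · intro i _ hi
    rw [coeff_C_mul_X_pow, if_neg]
    intro h
    exact hi (Fin.ext h.symm)
  · intro h
    exact absurd (Finset.mem_univ _) h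

private theorem bp_map {p : k[X]} {d : ℕ} (h : p.degree < d) (m : ℕ) (v : Fin d × Fin m → k) :
    (bp d m p.coeff v).map (evalRingHom 0) = p := by
  ext j
  rw [coeff_map]
  by_cases hj : j < d
  · have h1 := bp_coeff d m p.coeff v ⟨j, hj⟩
    simp only at h1
    rw [h1, coe_evalRingHom, kq_eval]
  · push Not at hj
    rw [coeff_eq_zero_of_degree_lt ((bp_degree d m p.coeff v).trans_le (by exact_mod_cast hj)),
      coeff_eq_zero_of_degree_lt (h.trans_le (by exact_mod_cast hj)), map_zero]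

private theorem bp_eval (d m : ℕ) (c : ℕ → k) (v : Fin d × Fin m → k) (θ : k) :
    (bp d m c v).eval (C θ) = sv d m c v θ := by
  unfold bp sv
  rw [eval_finsetSum]
  refine Finset.sum_congr rfl fun j _ => ?_
  rw [eval_mul, eval_C, eval_pow, eval_X, mul_comm, algebraMap_eq, C_pow]

private theorem bp_const {p : k[X]} {d m : ℕ} {v : Fin d × Fin m → k}
    (h : bp d m p.coeff v = p.map C) : ∀ i, v i = 0 := by
  rintro ⟨j, i⟩
  have h1 := congrArg (fun q => q.coeff j) h
  simp only [bp_coeff, coeff_map] at h1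
  exact kq_const h1 i

/-- The value of the norm at the parameters `v`. -/
private def nv {S : Type*} [CommRing S] [Algebra k S] {ρ : ℕ} (p : MvPolynomial (Fin ρ) k[X])
    (v : Fin ρ → S) : S[X] :=
  MvPolynomial.eval₂ (mapRingHom (algebraMap k S)) (fun m => C (v m)) p

private theorem nv_map {S T : Type*} [CommRing S] [Algebra k S] [CommRing T] [Algebra k T]
    (f : S →ₐ[k] T) {ρ : ℕ} (p : MvPolynomial (Fin ρ) k[X]) (v : Fin ρ → S) :
    Polynomial.mapAlgHom f (nv p v) = nv p fun i => f (v i) := by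
  unfold nv
  have h1 : (Polynomial.mapAlgHom f) (MvPolynomial.eval₂ (mapRingHom (algebraMap k S))
      (fun m => C (v m)) p) = (mapRingHom f.toRingHom) (MvPolynomial.eval₂
        (mapRingHom (algebraMap k S)) (fun m => C (v m)) p) := rfl
  rw [h1, MvPolynomial.hom_eval₂]
  have h2 : (mapRingHom f.toRingHom).comp (mapRingHom (algebraMap k S)) =
      mapRingHom (algebraMap k T) := by
    rw [mapRingHom_comp]
    congr 1
    ext x
    simp
  rw [h2]
  congr 1
  funext m
  simp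

private theorem nv_eq {ρ : ℕ} (p : MvPolynomial (Fin ρ) k[X]) (v : Fin ρ → k) :
    nv p v = p.eval fun m => C (v m) := by
  unfold nv
  rw [show algebraMap k k = RingHom.id k from rfl, mapRingHom_id]
  rfl

private theorem nv_natDegree {ρ : ℕ} {p : MvPolynomial (Fin ρ) k[X]} {D : ℕ}
    (hp : ∀ m, (p.coeff m).natDegree ≤ D) (v : Fin ρ → k) : (nv p v).natDegree ≤ D := by
  rw [nv_eq, MvPolynomial.eval_eq]
  refine natDegree_sum_le_of_forall_le _ _ fun m _ => ?_
  have h1 : (∏ i ∈ m.support, (C (v i) : k[X]) ^ m i) = C (∏ i ∈ m.support, v i ^ m i) := by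
    rw [map_prod]
    exact Finset.prod_congr rfl fun i _ => by rw [C_pow]
  rw [h1]
  exact (natDegree_mul_C_le _ _).trans (hp m)

/-- The left hand sides of the equations. -/
private def E0 {R : Type*} [CommRing R] (a ν : R) : R :=
  a - ν

private def E1 (θ : k) {R : Type*} [CommRing R] [Algebra k R] (a p m g ν : R) : R :=
  a ^ 2 + algebraMap k R θ * (p * m) + algebraMap k R (θ * (1 - θ)) * g ^ 2 - ν

private def E2 (Gp : MvPolynomial (Fin 3) k) {R : Type*} [CommRing R] [Algebra k R]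
    (q y x a ν : R) : R :=
  q * y ^ 2 - MvPolynomial.aeval ![x, ν, a] Gp

section maps

variable {R T : Type*} [CommRing R] [Algebra k R] [CommRing T] [Algebra k T] (f : R →ₐ[k] T)

private theorem E0_map (a ν : R) : f (E0 a ν) = E0 (f a) (f ν) := by
  unfold E0
  rw [map_sub]

private theorem E1_map (θ : k) (a p m g ν : R) :
    f (E1 θ a p m g ν) = E1 θ (f a) (f p) (f m) (f g) (f ν) := by
  unfold E1
  simp only [map_sub, map_add, map_mul, map_pow, AlgHom.commutes]

private theorem E2_map (Gp : MvPolynomial (Fin 3) k) (q y x a ν : R) :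
    f (E2 Gp q y x a ν) = E2 Gp (f q) (f y) (f x) (f a) (f ν) := by
  unfold E2
  rw [map_sub, map_mul, map_pow]
  congr 1
  have h1 := MvPolynomial.comp_aeval_apply (R := k) (f := ![x, ν, a]) f Gp
  rw [h1]
  congr 2
  funext i
  fin_cases i <;> rfl

end maps

/-- The type of the unknown coefficients. -/
private abbrev Ix (L N ρ E d : ℕ) : Type :=
  Fin ρ ⊕ (Fin (N / 2 + 1) × Fin E) ⊕ (Fin ((N + 1) / 2) × Fin E) ⊕
    (Fin ((N + 1) / 2) × Fin E) ⊕ (Fin (N / 2) × Fin E) ⊕
    (Fin d) ⊕ Fin (L - 1) ⊕ Fin 2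

/-- The type of the equations. -/
private abbrev Kx (L N E : ℕ) : Type :=
  (Fin E) ⊕ (Fin N × Fin (2 * E)) ⊕ Fin (2 * L)

private theorem card_Ix {L N ρ E d : ℕ} (hL : 0 < L) (hρ : L ≤ ρ + d) :
    Fintype.card (Kx L N E) < Fintype.card (Ix L N ρ E d) := by
  simp only [Fintype.card_sum, Fintype.card_prod, Fintype.card_fin]
  have h1 : N / 2 + 1 + ((N + 1) / 2 + ((N + 1) / 2 + N / 2)) = 2 * N + 1 := by omega
  have h2 : (N / 2 + 1) * E + ((N + 1) / 2 * E + ((N + 1) / 2 * E + N / 2 * E)) =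
      (2 * N + 1) * E := by
    rw [← h1]
    ring
  have h3 : (2 * N + 1) * E = N * (2 * E) + E := by ring
  omega

section eqs

variable {S T : Type*} [CommRing S] [Algebra k S] [CommRing T] [Algebra k T]

private def e0 (L N E : ℕ) {ρ : ℕ} (d : ℕ) (nb : MvPolynomial (Fin ρ) k[X])
    (A : k[X]) (z : Ix L N ρ E d → S) : S[X] :=
  E0 (sv (N / 2 + 1) E A.coeff (fun j => z (.inr (.inl j))) 0)
    (nv nb fun j => z (.inl j))

private def e1 (L N E : ℕ) {ρ : ℕ} (d : ℕ)
    (nθ : Fin N → MvPolynomial (Fin ρ) k[X]) (A P M G : k[X]) (θ : Fin N → k)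
    (j₀ : Fin N) (z : Ix L N ρ E d → S) : S[X] :=
  E1 (θ j₀)
    (sv (N / 2 + 1) E A.coeff (fun j => z (.inr (.inl j))) (θ j₀))
    (sv ((N + 1) / 2) E P.coeff (fun j => z (.inr (.inr (.inl j)))) (θ j₀))
    (sv ((N + 1) / 2) E M.coeff (fun j => z (.inr (.inr (.inr (.inl j))))) (θ j₀))
    (sv (N / 2) E G.coeff (fun j => z (.inr (.inr (.inr (.inr (.inl j)))))) (θ j₀))
    (nv (nθ j₀) fun j => z (.inl j))

private def e2 (L N E : ℕ) {ρ : ℕ} (d : ℕ) (Gp : MvPolynomial (Fin 3) k)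
    (nc : MvPolynomial (Fin ρ) k[X]) (A : k[X]) (x : k) (y : k) (z : Ix L N ρ E d → S) : S[X] :=
  E2 Gp (kq (1 : k) 2 fun j => z (.inr (.inr (.inr (.inr (.inr (.inr (.inr j))))))))
    (kq y (L - 1) fun j => z (.inr (.inr (.inr (.inr (.inr (.inr (.inl j))))))))
    (kq x d fun j => z (.inr (.inr (.inr (.inr (.inr (.inl j)))))))
    (sv (N / 2 + 1) E A.coeff (fun j => z (.inr (.inl j))) 1)
    (nv nc fun j => z (.inl j))

private theorem e0_map (f : S →ₐ[k] T) (L N E : ℕ) {ρ : ℕ} (d : ℕ)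
    (nb : MvPolynomial (Fin ρ) k[X]) (A : k[X])
    (z : Ix L N ρ E d → S) :
    Polynomial.mapAlgHom f (e0 L N E d nb A z) = e0 L N E d nb A fun j => f (z j) := by
  unfold e0
  rw [E0_map, sv_map, nv_map]

private theorem e1_map (f : S →ₐ[k] T) (L N E : ℕ) {ρ : ℕ} (d : ℕ)
    (nθ : Fin N → MvPolynomial (Fin ρ) k[X]) (A P M G : k[X]) (θ : Fin N → k)
    (j₀ : Fin N) (z : Ix L N ρ E d → S) :
    Polynomial.mapAlgHom f (e1 L N E d nθ A P M G θ j₀ z) =
      e1 L N E d nθ A P M G θ j₀ fun j => f (z j) := by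
  unfold e1
  rw [E1_map, sv_map, sv_map, sv_map, sv_map, nv_map]

private theorem e2_map (f : S →ₐ[k] T) (L N E : ℕ) {ρ : ℕ} (d : ℕ)
    (Gp : MvPolynomial (Fin 3) k) (nc : MvPolynomial (Fin ρ) k[X])
    (A : k[X]) (x : k) (y : k) (z : Ix L N ρ E d → S) :
    Polynomial.mapAlgHom f (e2 L N E d Gp nc A x y z) =
      e2 L N E d Gp nc A x y fun j => f (z j) := by
  unfold e2
  simp only [E2_map, sv_map, nv_map, kq_map]

end eqs

/-- a polynomial of degree at most `d` whose coefficients of `t, …, t ^ d` and value at `0` are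
zero is zero -/
private theorem eq_zero_of {F : k[X]} {d : ℕ} (hd : F.natDegree ≤ d)
    (h : ∀ j : Fin d, F.coeff (j + 1) = 0) (h0 : F.eval 0 = 0) : F = 0 := by
  ext j
  rw [coeff_zero]
  rcases j with _ | j
  · rw [coeff_zero_eq_eval_zero]
    exact h0
  · by_cases hj : j < d
    · exact h ⟨j, hj⟩
    · exact coeff_eq_zero_of_natDegree_lt (by omega)

private theorem natDegree_mul_le' {p q : k[X]} {m n : ℕ} (hp : p.natDegree ≤ m)
    (hq : q.natDegree ≤ n) : (p * q).natDegree ≤ m + n :=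
  natDegree_mul_le.trans (Nat.add_le_add hp hq)

private theorem natDegree_pow_le' {p : k[X]} {m : ℕ} (hp : p.natDegree ≤ m) (n : ℕ) :
    (p ^ n).natDegree ≤ n * m :=
  natDegree_pow_le.trans (Nat.mul_le_mul_left _ hp)

section bounds

variable {L N ρ E d e : ℕ} {nc nb : MvPolynomial (Fin ρ) k[X]}
  {nθ : Fin N → MvPolynomial (Fin ρ) k[X]}

private theorem e0_natDegree (hb : ∀ m, (nb.coeff m).natDegree ≤ E)
    (A : k[X]) (z : Ix L N ρ E d → k) :
    (e0 L N E d nb A z).natDegree ≤ E := by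
  unfold e0 E0
  exact (natDegree_sub_le_of_le (sv_natDegree _ _ _ _ _) (nv_natDegree hb _)).trans (by simp)

private theorem e1_natDegree (hθ : ∀ j m, ((nθ j).coeff m).natDegree ≤ 2 * E)
    (A P M G : k[X]) (θ : Fin N → k) (j : Fin N)
    (z : Ix L N ρ E d → k) : (e1 L N E d nθ A P M G θ j z).natDegree ≤ 2 * E := by
  unfold e1 E1
  have h1 : ∀ (e : ℕ) (c : ℕ → k) (v : Fin e × Fin E → k),
      (sv e E c v (θ j)).natDegree ≤ E := fun e c v => sv_natDegree _ _ _ _ _
  have h2 : ∀ (c : k) (p : k[X]), p.natDegree ≤ 2 * E →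
      (algebraMap k k[X] c * p).natDegree ≤ 2 * E := by
    intro c p hp
    rw [algebraMap_eq]
    exact (natDegree_C_mul_le _ _).trans hp
  refine (natDegree_sub_le_of_le (natDegree_add_le_of_le (natDegree_add_le_of_le
    (m := 2 * E) (n := 2 * E) ((natDegree_pow_le' (h1 _ _ _) 2).trans (by omega))
    (h2 _ _ ((natDegree_mul_le' (h1 _ _ _) (h1 _ _ _)).trans (by omega))))
    (n := 2 * E) (h2 _ _ ((natDegree_pow_le' (h1 _ _ _) 2).trans (by omega))))
    (n := 2 * E) (nv_natDegree (hθ j) _)).trans (by simp)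

private theorem e2_natDegree (hL : 0 < L) {Gp : MvPolynomial (Fin 3) k}
    (hGp : ∀ x c a : k[X], x.natDegree ≤ d → c.natDegree ≤ e → a.natDegree ≤ E →
      (MvPolynomial.aeval ![x, c, a] Gp).natDegree ≤ 2 * L)
    (hc : ∀ m, (nc.coeff m).natDegree ≤ e) (A : k[X]) (x : k) (y : k)
    (z : Ix L N ρ E d → k) : (e2 L N E d Gp nc A x y z).natDegree ≤ 2 * L := by
  unfold e2 E2
  have t1 : ∀ (c : k) (v : Fin 2 → k) (v' : Fin (L - 1) → k),
      (kq c 2 v * kq y (L - 1) v' ^ 2).natDegree ≤ 2 * L := fun c v v' =>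
    (natDegree_mul_le' (kq_natDegree _ _ _) (natDegree_pow_le' (kq_natDegree _ _ _) 2)).trans
      (by omega)
  exact (natDegree_sub_le_of_le (t1 _ _ _) (n := 2 * L)
    (hGp _ _ _ (kq_natDegree _ _ _) (nv_natDegree hc _) (sv_natDegree _ _ _ _ _))).trans
      (by simp)

private theorem nv_zero {p : MvPolynomial (Fin ρ) k[X]} {c : k} (h : p.eval 0 = C c) :
    nv p (fun _ => (0 : k)) = C c := by
  rw [nv_eq, ← h]
  have h1 : (fun _ : Fin ρ => (C (0 : k) : k[X])) = 0 := by
    funext m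
    simp
  rw [h1]

/-- the values of the equations at the origin -/
private theorem e0_zero {A : k[X]} (hA : A.degree < (N / 2 + 1 : ℕ))
    {vb : k} (cb : nb.eval 0 = C vb) :
    e0 L N E d nb A (fun _ => (0 : k)) = C (E0 (A.eval 0) vb) := by
  unfold e0
  rw [sv_zero hA, nv_zero cb]
  exact (E0_map (Algebra.ofId k k[X]) (A.eval 0) vb).symm

private theorem e1_zero {A P M G : k[X]} (hA : A.degree < (N / 2 + 1 : ℕ))
    (hP : P.degree < ((N + 1) / 2 : ℕ)) (hM : M.degree < ((N + 1) / 2 : ℕ))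
    (hG : G.degree < (N / 2 : ℕ)) (θ : Fin N → k) {vθ : Fin N → k}
    (cθ : ∀ j, (nθ j).eval 0 = C (vθ j)) (j : Fin N) :
    e1 L N E d nθ A P M G θ j (fun _ => (0 : k)) =
      C (E1 (θ j) (A.eval (θ j)) (P.eval (θ j)) (M.eval (θ j)) (G.eval (θ j)) (vθ j)) := by
  unfold e1
  rw [sv_zero hA, sv_zero hP, sv_zero hM, sv_zero hG, nv_zero (cθ j)]
  exact (E1_map (Algebra.ofId k k[X]) (θ j) (A.eval (θ j)) (P.eval (θ j))
    (M.eval (θ j)) (G.eval (θ j)) (vθ j)).symm

private theorem e2_zero {A : k[X]} (hA : A.degree < (N / 2 + 1 : ℕ))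
    {vc : k} (cc : nc.eval 0 = C vc) (Gp : MvPolynomial (Fin 3) k) (x : k) (y : k) :
    e2 L N E d Gp nc A x y (fun _ => (0 : k)) = C (E2 Gp 1 y x (A.eval 1) vc) := by
  unfold e2
  simp only [sv_zero hA, nv_zero cc, kq_zero]
  exact (E2_map (Algebra.ofId k k[X]) Gp 1 y x (A.eval 1) vc).symm

end bounds

private theorem sv_eval0 {p : k[X]} {d : ℕ} (h : p.degree < d) (m : ℕ) (v : Fin d × Fin m → k)
    (θ : k) : (sv d m p.coeff v θ).eval 0 = p.eval θ := by
  unfold sv
  rw [eval_finsetSum, eval_fin h]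
  refine Finset.sum_congr rfl fun j _ => ?_
  rw [eval_mul, algebraMap_eq, eval_C, kq_eval]

section eval0

variable {L N ρ E d : ℕ} {nc nb : MvPolynomial (Fin ρ) k[X]}
  {nθ : Fin N → MvPolynomial (Fin ρ) k[X]}

private theorem e0_eval0 {A : k[X]} (hA : A.degree < (N / 2 + 1 : ℕ))
    {vb : k} (zb : ∀ z : Fin ρ → k, (nb.eval fun m => C (z m)).eval 0 = vb)
    (z : Ix L N ρ E d → k) :
    (e0 L N E d nb A z).eval 0 = E0 (A.eval 0) vb := by
  unfold e0
  rw [← coe_aeval_eq_eval, E0_map, coe_aeval_eq_eval, sv_eval0 hA, nv_eq, zb]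

private theorem e1_eval0 {A P M G : k[X]} (hA : A.degree < (N / 2 + 1 : ℕ))
    (hP : P.degree < ((N + 1) / 2 : ℕ)) (hM : M.degree < ((N + 1) / 2 : ℕ))
    (hG : G.degree < (N / 2 : ℕ)) (θ : Fin N → k) {vθ : Fin N → k}
    (zθ : ∀ j (z : Fin ρ → k), ((nθ j).eval fun m => C (z m)).eval 0 = vθ j)
    (j : Fin N) (z : Ix L N ρ E d → k) :
    (e1 L N E d nθ A P M G θ j z).eval 0 =
      E1 (θ j) (A.eval (θ j)) (P.eval (θ j)) (M.eval (θ j)) (G.eval (θ j)) (vθ j) := by
  unfold e1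
  rw [← coe_aeval_eq_eval, E1_map, coe_aeval_eq_eval, sv_eval0 hA,
    sv_eval0 hP, sv_eval0 hM, sv_eval0 hG, nv_eq, zθ]

private theorem e2_eval0 {A : k[X]} (hA : A.degree < (N / 2 + 1 : ℕ))
    {vc : k} (zc : ∀ z : Fin ρ → k, (nc.eval fun m => C (z m)).eval 0 = vc)
    (Gp : MvPolynomial (Fin 3) k) (x : k) (y : k) (z : Ix L N ρ E d → k) :
    (e2 L N E d Gp nc A x y z).eval 0 = E2 Gp 1 y x (A.eval 1) vc := by
  unfold e2
  rw [← coe_aeval_eq_eval, E2_map]
  simp only [coe_aeval_eq_eval, sv_eval0 hA, kq_eval, nv_eq, zc]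

end eval0

/-- Through every point of the symmetric model passes a rational curve. -/
theorem krull [IsAlgClosed k] {L N ρ E d e : ℕ} (hL : 0 < L) (hρ : L ≤ ρ + d)
    {Gp : MvPolynomial (Fin 3) k}
    (hGp : ∀ x c a : k[X], x.natDegree ≤ d → c.natDegree ≤ e → a.natDegree ≤ E →
      (MvPolynomial.aeval ![x, c, a] Gp).natDegree ≤ 2 * L)
    {nc nb : MvPolynomial (Fin ρ) k[X]} {nθ : Fin N → MvPolynomial (Fin ρ) k[X]}
    (dc : ∀ m, (nc.coeff m).natDegree ≤ e)
    (db : ∀ m, (nb.coeff m).natDegree ≤ E)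
    (dθ : ∀ j m, ((nθ j).coeff m).natDegree ≤ 2 * E)
    {vc vb : k} {vθ : Fin N → k}
    (zc : ∀ z : Fin ρ → k, (nc.eval fun m => C (z m)).eval 0 = vc)
    (zb : ∀ z : Fin ρ → k, (nb.eval fun m => C (z m)).eval 0 = vb)
    (zθ : ∀ j (z : Fin ρ → k), ((nθ j).eval fun m => C (z m)).eval 0 = vθ j)
    (cc : nc.eval 0 = C vc) (cb : nb.eval 0 = C vb)
    (cθ : ∀ j, (nθ j).eval 0 = C (vθ j)) {A P M G : k[X]}
    (hA : A.degree < (N / 2 + 1 : ℕ)) (hP : P.degree < ((N + 1) / 2 : ℕ))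
    (hM : M.degree < ((N + 1) / 2 : ℕ)) (hG : G.degree < (N / 2 : ℕ))
    {x : k} {y : k} (hy : y ≠ 0) (θ : Fin N → k)
    (h0 : A.eval 0 = vb)
    (h1 : ∀ j, A.eval (θ j) ^ 2 + θ j * (P.eval (θ j) * M.eval (θ j)) +
      θ j * (1 - θ j) * G.eval (θ j) ^ 2 = vθ j)
    (h2 : y ^ 2 = MvPolynomial.aeval ![x, vc, A.eval 1] Gp) :
    ∃ (z : Fin ρ → k) (A' P' M' G' : k[X][X]) (x' : k[X]) (y' q : k[X]),
      A'.degree < (N / 2 + 1 : ℕ) ∧ P'.degree < ((N + 1) / 2 : ℕ) ∧
      M'.degree < ((N + 1) / 2 : ℕ) ∧ G'.degree < (N / 2 : ℕ) ∧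
      A'.map (evalRingHom 0) = A ∧ P'.map (evalRingHom 0) = P ∧
      M'.map (evalRingHom 0) = M ∧ G'.map (evalRingHom 0) = G ∧
      x'.eval 0 = x ∧ y'.eval 0 = y ∧ q.eval 0 = 1 ∧ q.natDegree ≤ 2 ∧
      A'.eval 0 = (nb.eval fun m => C (z m)) ∧
      (∀ j, A'.eval (C (θ j)) ^ 2 +
        C (θ j) * (P'.eval (C (θ j)) * M'.eval (C (θ j))) +
        C (θ j * (1 - θ j)) * G'.eval (C (θ j)) ^ 2 =
          (nθ j).eval fun m => C (z m)) ∧
      q * y' ^ 2 = MvPolynomial.aeval ![x', nc.eval fun m => C (z m), A'.eval 1] Gp ∧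
      ¬ (z = 0 ∧ A' = A.map C ∧ P' = P.map C ∧ M' = M.map C ∧ G' = G.map C ∧ x' = C x) := by
  classical
  have hE0 : E0 (A.eval 0) vb = 0 := by
    unfold E0
    rw [h0, sub_self]
  have hE1 : ∀ j, E1 (θ j) (A.eval (θ j)) (P.eval (θ j))
      (M.eval (θ j)) (G.eval (θ j)) (vθ j) = 0 := by
    intro j
    unfold E1
    have h3 := h1 j
    simp only [Algebra.algebraMap_self, RingHom.id_apply]
    rw [h3, sub_self]
  have hE2 : E2 Gp 1 y x (A.eval 1) vc = 0 := by
    unfold E2
    rw [h2]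
    ring
  let R := MvPolynomial (Ix L N ρ E d) k
  let zX : Ix L N ρ E d → R := MvPolynomial.X
  let F : Kx L N E → R :=
    Sum.elim (fun j => (e0 L N E d nb A zX).coeff (j + 1))
      (Sum.elim (fun j => (e1 L N E d nθ A P M G θ j.1 zX).coeff (j.2 + 1))
        (fun j => (e2 L N E d Gp nc A x y zX).coeff (j + 1)))
  have hmap : ∀ z : Ix L N ρ E d → k, (fun i => MvPolynomial.aeval z (zX i)) = z := by
    intro z
    funext i
    simp [zX]
  have hev : ∀ (z : Ix L N ρ E d → k) (Q : R[X]) (j : ℕ), MvPolynomial.eval z (Q.coeff j) =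
      (Polynomial.mapAlgHom (MvPolynomial.aeval z : R →ₐ[k] k) Q).coeff j := by
    intro z Q j
    rw [Polynomial.coe_mapAlgHom, coeff_map]
    show _ = MvPolynomial.aeval z (Q.coeff j)
    rw [MvPolynomial.aeval_eq_eval]
  have key0 : ∀ z : Ix L N ρ E d → k,
      Polynomial.mapAlgHom (MvPolynomial.aeval z : R →ₐ[k] k) (e0 L N E d nb A zX) =
        e0 L N E d nb A z := by
    intro z
    rw [e0_map, hmap]
  have key1 : ∀ (z : Ix L N ρ E d → k) (j : Fin N),
      Polynomial.mapAlgHom (MvPolynomial.aeval z : R →ₐ[k] k)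
        (e1 L N E d nθ A P M G θ j zX) = e1 L N E d nθ A P M G θ j z := by
    intro z j
    rw [e1_map, hmap]
  have key2 : ∀ z : Ix L N ρ E d → k, Polynomial.mapAlgHom (MvPolynomial.aeval z : R →ₐ[k] k)
      (e2 L N E d Gp nc A x y zX) = e2 L N E d Gp nc A x y z := by
    intro z
    rw [e2_map, hmap]
  obtain ⟨z, hz0, hz⟩ := Pool.Agent.ZIso.exists_ne_zero (K := k) (card_Ix hL hρ) F (by
    rintro (j | j | j)
    · show MvPolynomial.eval 0 ((e0 L N E d nb A zX).coeff (j + 1)) = 0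
      rw [hev, key0, show (0 : Ix L N ρ E d → k) = fun _ => 0 from rfl, e0_zero hA cb, hE0]
      simp
    · show MvPolynomial.eval 0 ((e1 L N E d nθ A P M G θ j.1 zX).coeff (j.2 + 1)) = 0
      rw [hev, key1, show (0 : Ix L N ρ E d → k) = fun _ => 0 from rfl,
        e1_zero hA hP hM hG θ cθ, hE1]
      simp
    · show MvPolynomial.eval 0 ((e2 L N E d Gp nc A x y zX).coeff (j + 1)) = 0
      rw [hev, key2, show (0 : Ix L N ρ E d → k) = fun _ => 0 from rfl, e2_zero hA cc, hE2]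
      simp)
  have hz0' : ∀ j : Fin E, (e0 L N E d nb A z).coeff (j + 1) = 0 := by
    intro j
    have h3 : MvPolynomial.eval z ((e0 L N E d nb A zX).coeff (j + 1)) = 0 := hz (.inl j)
    rwa [hev, key0] at h3
  have hz1' : ∀ (j : Fin N) (j' : Fin (2 * E)),
      (e1 L N E d nθ A P M G θ j z).coeff (j' + 1) = 0 := by
    intro j j'
    have h3 : MvPolynomial.eval z ((e1 L N E d nθ A P M G θ j zX).coeff (j' + 1)) = 0 :=
      hz (.inr (.inl (j, j')))
    rwa [hev, key1] at h3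
  have hz2' : ∀ j : Fin (2 * L), (e2 L N E d Gp nc A x y z).coeff (j + 1) = 0 := by
    intro j
    have h3 : MvPolynomial.eval z ((e2 L N E d Gp nc A x y zX).coeff (j + 1)) = 0 :=
      hz (.inr (.inr j))
    rwa [hev, key2] at h3
  have r0 : e0 L N E d nb A z = 0 :=
    eq_zero_of (e0_natDegree db A z) hz0' (by rw [e0_eval0 hA zb, hE0])
  have r1 : ∀ j, e1 L N E d nθ A P M G θ j z = 0 := fun j =>
    eq_zero_of (e1_natDegree dθ A P M G θ j z) (hz1' j)
      (by rw [e1_eval0 hA hP hM hG θ zθ, hE1])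
  have r2 : e2 L N E d Gp nc A x y z = 0 :=
    eq_zero_of (e2_natDegree hL hGp dc A x y z) hz2' (by rw [e2_eval0 hA zc, hE2])
  unfold e0 E0 at r0
  unfold e1 E1 at r1
  unfold e2 E2 at r2
  simp only [nv_eq] at r0 r1 r2
  set q : k[X] := kq (1 : k) 2 fun i => z (.inr (.inr (.inr (.inr (.inr (.inr (.inr i)))))))
    with hq
  set y' : k[X] := kq y (L - 1) fun i => z (.inr (.inr (.inr (.inr (.inr (.inr (.inl i)))))))
    with hy'
  set x' : k[X] := kq x d fun j =>
    z (.inr (.inr (.inr (.inr (.inr (.inl j)))))) with hx'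
  refine ⟨fun i => z (.inl i),
    bp (N / 2 + 1) E A.coeff fun j => z (.inr (.inl j)),
    bp ((N + 1) / 2) E P.coeff fun j => z (.inr (.inr (.inl j))),
    bp ((N + 1) / 2) E M.coeff fun j => z (.inr (.inr (.inr (.inl j)))),
    bp (N / 2) E G.coeff fun j => z (.inr (.inr (.inr (.inr (.inl j))))),
    x', y', q, bp_degree _ _ _ _, bp_degree _ _ _ _,
    bp_degree _ _ _ _, bp_degree _ _ _ _, bp_map hA _ _,
    bp_map hP _ _, bp_map hM _ _, bp_map hG _ _,
    kq_eval _ _ _, kq_eval _ _ _, kq_eval _ _ _, kq_natDegree _ _ _, ?_, ?_, ?_, ?_⟩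
  · rw [← C_0, bp_eval]
    exact sub_eq_zero.1 r0
  · intro j
    rw [bp_eval, bp_eval, bp_eval, bp_eval]
    exact sub_eq_zero.1 (r1 j)
  · simp only [← C_1, bp_eval]
    exact sub_eq_zero.1 r2
  · rintro ⟨g1, gA, gP, gM, gG, gx⟩
    have g1' : (fun m : Fin ρ => (C (z (.inl m)) : k[X])) = 0 := by
      funext m
      have := congrFun g1 m
      simp only [Pi.zero_apply] at this ⊢
      rw [this, C_0]
    -- the product `q * y' ^ 2` is the constant `y ^ 2`
    have h5 : q * y' ^ 2 = C (y ^ 2) := by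
      have h6 := sub_eq_zero.1 r2
      have h7 : sv (N / 2 + 1) E A.coeff (fun j => z (.inr (.inl j))) 1 = C (A.eval 1) := by
        rw [← bp_eval, gA, eval_map, eval₂_hom]
      rw [h6, h2, h7, g1', cc, gx]
      have h8 := MvPolynomial.comp_aeval_apply (R := k) (f := ![x, vc, A.eval 1])
        (Algebra.ofId k k[X]) Gp
      have h9 : (Algebra.ofId k k[X]) (MvPolynomial.aeval ![x, vc, A.eval 1] Gp) =
          C (MvPolynomial.aeval ![x, vc, A.eval 1] Gp) := rfl
      rw [← h9, h8]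
      congr 2
      funext i
      fin_cases i <;> rfl
    have hT2 : y ^ 2 ≠ 0 := pow_ne_zero 2 hy
    have h6 : q * y' ^ 2 ≠ 0 := by
      rw [h5]
      exact C_ne_zero.2 hT2
    have hq0 : q ≠ 0 := fun h => h6 (by rw [h, zero_mul])
    have hg0 : y' ≠ 0 := fun h => h6 (by rw [h]; ring)
    have h7 : q.natDegree + 2 * y'.natDegree = 0 := by
      have h8 := congrArg natDegree h5
      rw [natDegree_mul hq0 (pow_ne_zero 2 hg0), natDegree_pow, natDegree_C] at h8
      exact h8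
    have h8 : q = C (q.coeff 0) := eq_C_of_natDegree_eq_zero (by omega)
    have h9 : y' = C (y'.coeff 0) := eq_C_of_natDegree_eq_zero (by omega)
    apply hz0
    have k7 := kq_const (hy' ▸ h9)
    have k8 := kq_const (hq ▸ h8)
    funext i
    rcases i with i | ⟨i, j⟩ | ⟨i, j⟩ | ⟨i, j⟩ | ⟨i, j⟩ | i | i | i
    · exact congrFun g1 i
    · exact bp_const gA (i, j)
    · exact bp_const gP (i, j)
    · exact bp_const gM (i, j)
    · exact bp_const gG (i, j)
    · exact kq_const gx i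
    · exact k7 i
    · exact k8 i

end Pool.Agent.DK
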