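import Pool.Agent.DK.FamStart
import Pool.Agent.DK.FamState
import Pool.Agent.DK.Krull
import Pool.Agent.VFP.Conic

/-!
# The sum over the points with the same closing data
-/

set_option autoImplicit false

noncomputable section

namespace Pool.Agent.DK

open Pool.Agent.ZCyc Pool.Agent.TInf Polynomial
open Pool.Agent.VFP (Om tt)

universe u

variable {k : Type u} [Field k] [IsAlgClosed k] [CharZero k] {n ν : ℕ} {ζ : k} {D : Bas k}
  {W : Type*} [AddCommGroup W] [Module ℚ W]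

omit [IsAlgClosed k] [CharZero k] in
private theorem mo_eval_one (τ : Om k) (A : k[X][X]) :
    (A.map (aeval τ : k[X] →ₐ[k] Om k).toRingHom).eval 1 = aeval τ (A.eval 1) := by
  have h := pv_eval τ A 1
  rw [map_one, C_1] at h
  exact h

omit [IsAlgClosed k] [CharZero k] in
private theorem at_aeval {v : Place k (Om k)} {τ : Om k} (hτ : v.At τ 0) (p : k[X]) :
    v.At (aeval τ p) (p.eval 0) := by
  induction p using Polynomial.induction_on' with
  | add p q hp hq =>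
    rw [map_add, eval_add]
    exact hp.add hq
  | monomial m a =>
    rw [aeval_monomial, eval_monomial]
    exact (Place.at_const a).mul (hτ.pow m)

omit [CharZero k] in
/-- an algebraic element is a constant -/
private theorem const_of_alg {τ : Om k} (h : ¬ Transcendental k τ) :
    ∃ c : k, algebraMap k (Om k) c = τ := by
  have h1 : IsAlgebraic k τ := by
    by_contra h2
    exact h h2
  have h2 : IsIntegral k τ := h1.isIntegral
  have h3 := IsAlgClosed.degree_eq_one_of_irreducible k (minpoly.irreducible h2)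
  exact minpoly.mem_range_of_degree_eq_one k τ h3

omit [IsAlgClosed k] [CharZero k] in
private theorem at_ne {v : Place k (Om k)} {x : Om k} {c : k} (h : v.At x c) (hc : c ≠ 0) :
    x ≠ 0 := by
  rintro rfl
  exact hc (h.unique VFP.at_zero)

/-- The conditions for the closing data: for every solution `X'`, `Y'` over `Om k` of the equation
of the closing side one has finitely many points `(w' i, S' i)` of the curve of the closing side, such that
the sum of the classes at the start is `C`, and `X'` is bounded if some `w' i` is a unit. -/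
structure CloD (Y : SysW ν ζ D n W) (s : Fin n → D.P) (M : Mq k) (m : ℕ)
    (Gp : MvPolynomial (Fin 3) k) (x y cv : k) (I : Type) [Fintype I] (E : W) : Prop where
  ex : ∀ X' Y' c' a' : Om k, Y' ^ 2 = MvPolynomial.aeval ![X', c', a'] Gp →
    ∃ S' w' : I → Om k,
      (∀ i, S' i ^ 2 = w' i ^ (2 * ν) - 2 * a' * w' i ^ ν + c' ^ m) ∧
      (∀ v : Place k (Om k), v.At X' x → v.At Y' y → v.At c' cv →
        ∃ S w : I → k, (∀ i, v.At (S' i) (S i)) ∧ (∀ i, v.At (w' i) (w i)) ∧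
          (∀ i, w i ≠ 0) ∧ ∑ i, GG Y s M (S i) (w i) = E) ∧
      ∀ (v : Place k (Om k)) (i : I), c' ∈ v.ring → w' i ≠ 0 → w' i ∈ v.ring →
        (w' i)⁻¹ ∈ v.ring → X' ∈ v.ring

/-- The sum of the classes for the closing data is zero. -/
theorem fam_sum (Y : SysW ν ζ D n W) (hζ : IsPrimitiveRoot ζ ν) (hν : 0 < ν) (hn : 0 < n)
    {s : Fin n → D.P} (hs : D.Gen s) {E e m : ℕ} (F : CurveFam D E e m s) {L d : ℕ}
    (hL : 0 < L) (hρ₀ : L ≤ F.ρ + d) {Gp : MvPolynomial (Fin 3) k}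
    (hGp : ∀ x c a : k[X], x.natDegree ≤ d → c.natDegree ≤ e → a.natDegree ≤ E →
      (MvPolynomial.aeval ![x, c, a] Gp).natDegree ≤ 2 * L) {M : Mq k}
    (hSt : IsSt (D.ed s) (D.eb s) M) (hne : M.b.eval 1 * M.c.eval 1 ≠ 0) {x y : k}
    (hy : y ≠ 0) (hxy : y ^ 2 = MvPolynomial.aeval ![x, F.cv, M.a.eval 1] Gp)
    {I : Type} [Fintype I] {T : W} (H : CloD Y s M m Gp x y F.cv I T) : T = 0 := by
  classical
  obtain ⟨z, A', P', M', G', x', y', q, dA, dP, dM, dG, eA, eP, eM, eG, ex, ey, q0, dq, z0,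
      z1, z2, z3⟩ :=
    krull (N := n) hL hρ₀ hGp F.dc F.db F.dθ F.zc F.zb F.zθ F.cc F.cb F.cθ
      hSt.deg.a hSt.deg.b hSt.deg.c hSt.deg.t (x := x) (y := y) hy F.θ
      hSt.a0 (fun j => krull_start hSt (F.θ j)) hxy
  obtain ⟨τ, ρ, c₀, c₁, hρ, hc₀, hc₁⟩ : ∃ (τ ρ : Om k) (c₀ c₁ : k), ρ ^ 2 = aeval τ q ∧
      (∀ v : Place k (Om k), v.At (tt k) c₀ → v.At τ 0 ∧ v.At ρ 1) ∧
      ∀ v : Place k (Om k), v.At (tt k) c₁ →
        (z ≠ 0 ∧ ((∃ τ₁ : k, v.At τ τ₁ ∧ F.u + τ₁ * F.h z = 0) ∨ (τ ∉ v.ring ∧ F.h z = 0))) ∨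
          (z = 0 ∧ τ ∉ v.ring) := by
    by_cases hz : z = 0
    · obtain ⟨τ, ρ, c₀, c₁, h1, h2, h3⟩ := VFP.conic_inf q dq q0
      exact ⟨τ, ρ, c₀, c₁, h1, h2, fun v hv => Or.inr ⟨hz, h3 v hv⟩⟩
    by_cases hh : F.h z = 0
    · obtain ⟨τ, ρ, c₀, c₁, h1, h2, h3⟩ := VFP.conic_inf q dq q0
      exact ⟨τ, ρ, c₀, c₁, h1, h2, fun v hv => Or.inl ⟨hz, Or.inr ⟨h3 v hv, hh⟩⟩⟩
    · obtain ⟨τ, ρ, c₀, c₁, h1, h2, h3⟩ := VFP.conic q dq q0 (-F.u / F.h z)
        (div_ne_zero (neg_ne_zero.2 F.u_ne) hh)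
      refine ⟨τ, ρ, c₀, c₁, h1, h2, fun v hv => Or.inl ⟨hz, Or.inl ⟨_, h3 v hv, ?_⟩⟩⟩
      rw [div_mul_cancel₀ _ hh, add_neg_cancel]
  obtain ⟨v₀, hv₀⟩ := exists_place (VFP.tt_transc (k := k)) c₀
  obtain ⟨v₁, hv₁⟩ := exists_place (VFP.tt_transc (k := k)) c₁
  obtain ⟨c', hc'⟩ : ∃ c' : Om k, c' = aeval τ (F.nc.eval fun m => C (z m)) := ⟨_, rfl⟩
  -- the points of the base
  obtain ⟨S, p1, p2, p3, p4, p5, p6⟩ : ∃ S : Fin n → D.Q,
      (c' ^ m = ∏ j, D.ED S j) ∧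
      (∏ j, (-D.EB S j / 2) = aeval τ (F.nb.eval fun m => C (z m))) ∧
      (∀ j, ∏ l, ((-D.EB S l / 2) ^ 2 - algebraMap k (Om k) (F.θ j) *
        ((-D.EB S l / 2) ^ 2 - D.ED S l)) =
          aeval τ ((F.nθ j).eval fun m => C (z m))) ∧
      (∀ v : Place k (Om k), v.At τ 0 → ∃ π : Equiv.Perm (Fin n), ∀ j, D.At v (S j) (s (π j))) ∧
      (z = 0 → S = (fun j => D.cst (s j)) ∧ c' = algebraMap k (Om k) F.cv) ∧
      (z ≠ 0 → ∀ v : Place k (Om k), ((∃ τ₁ : k, v.At τ τ₁ ∧ F.u + τ₁ * F.h z = 0) ∨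
        (τ ∉ v.ring ∧ F.h z = 0)) → ∃ j, D.Bad v (S j)) := by
    by_cases hz : z = 0
    · have hz' : (fun m : Fin F.ρ => (C (z m) : k[X])) = 0 := by
        funext m
        rw [hz]
        simp
      have hcc : c' = algebraMap k (Om k) F.cv := by
        rw [hc', hz', F.cc, aeval_C]
      refine ⟨fun j => D.cst (s j), ?_, ?_, ?_, ?_, fun _ => ⟨rfl, hcc⟩, fun h => absurd hz h⟩
      · rw [hcc, ← map_pow, F.cm, map_prod]
        exact Finset.prod_congr rfl fun j _ => (D.cst_de (s j)).symm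
      · rw [hz', F.cb, aeval_C, map_prod]
        refine Finset.prod_congr rfl fun j _ => ?_
        rw [map_div₀, map_neg, map_ofNat]
        unfold Bas.EB Bas.eb
        rw [D.cst_be (s j)]
      · intro j
        rw [hz', F.cθ, aeval_C, map_prod]
        refine Finset.prod_congr rfl fun l _ => ?_
        simp only [map_div₀, map_neg, map_ofNat, map_sub, map_mul, map_pow]
        unfold Bas.EB Bas.eb Bas.ED Bas.ed
        rw [D.cst_be (s l), D.cst_de (s l)]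
      · intro v _
        exact ⟨1, fun j => D.cst_at v _⟩
    · have htr : Transcendental k τ := by
        by_contra hcon
        obtain ⟨c, hc⟩ := const_of_alg hcon
        have h1 := (hc₀ v₀ hv₀).1
        rw [← hc] at h1
        have h2 : c = 0 := (Place.at_const c).unique h1
        have h3 : τ = 0 := by rw [← hc, h2, map_zero]
        rcases hc₁ v₁ hv₁ with ⟨-, ⟨τ₁, h4, h5⟩ | ⟨h4, -⟩⟩ | ⟨h4, -⟩
        · rw [h3] at h4
          have h6 : τ₁ = 0 := h4.unique VFP.at_zero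
          rw [h6, zero_mul, add_zero] at h5
          exact F.u_ne h5
        · exact h4 (h3 ▸ zero_mem _)
        · exact hz h4
      obtain ⟨S, p1, p2, p3, p4, p5⟩ := F.pts z hz τ htr ⟨v₀, (hc₀ v₀ hv₀).1⟩
      exact ⟨S, by rw [hc', p1], p2, p3, p4, fun h => absurd h hz, fun _ => p5⟩
  obtain ⟨Mo, hMo⟩ : ∃ Mo : Mq (Om k), Mo = mo τ A' P' M' G' := ⟨_, rfl⟩
  have hSt' : IsSt (D.ED S) (D.EB S) Mo := by
    rw [hMo]
    exact isSt_mo τ F.inj F.ne dA dP dM dG z0 z1 p2 p3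
  have ha1 : Mo.a.eval 1 = aeval τ (A'.eval 1) := by
    rw [hMo]
    exact mo_eval_one τ A'
  have hY2 : (ρ * aeval τ y') ^ 2 =
      MvPolynomial.aeval ![aeval τ x', c', Mo.a.eval 1] Gp := by
    have h1 := congrArg (aeval τ : k[X] →ₐ[k] Om k) z2
    rw [map_mul, map_pow, ← hρ, ← mul_pow] at h1
    rw [h1]
    have h8 := MvPolynomial.comp_aeval_apply (R := k)
      (f := ![x', F.nc.eval fun m => C (z m), A'.eval 1]) (aeval τ : k[X] →ₐ[k] Om k) Gp
    rw [h8]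
    congr 2
    funext i
    fin_cases i
    · rfl
    · exact hc'.symm
    · exact ha1.symm
  obtain ⟨S', w', hS2, hval, hbd⟩ := H.ex _ _ _ _ hY2
  obtain ⟨β', hβ', hβA⟩ := exists_beta hs S
  -- the state at a place above `c₀`
  have hmat : ∀ v : Place k (Om k), v.At (tt k) c₀ → MAt v Mo M := by
    intro v hv
    rw [hMo]
    have h1 := mat_mo (hc₀ v hv).1 A' P' M' G'
    rw [eA, eP, eM, eG] at h1
    exact h1
  have hv3 : ∀ v : Place k (Om k), v.At (tt k) c₀ → v.At (aeval τ x') x ∧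
      v.At (ρ * aeval τ y') y ∧ v.At c' F.cv := by
    intro v hv
    obtain ⟨hτ0, hρ1⟩ := hc₀ v hv
    refine ⟨?_, ?_, ?_⟩
    · rw [← ex]
      exact at_aeval hτ0 _
    · rw [← ey, ← one_mul (y'.eval 0)]
      exact hρ1.mul (at_aeval hτ0 _)
    · rw [hc', ← F.zc z]
      exact at_aeval hτ0 _
  -- the closing sides over `Om k`
  have hbc0 : Mo.b.eval 1 * Mo.c.eval 1 ≠ 0 := by
    have h1 := hmat v₀ hv₀
    exact at_ne ((h1.b.eval VFP.at_one).mul (h1.c.eval VFP.at_one)) hne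
  have hCo : ∀ i, Clo ν (D.ED S) Mo (S' i) (w' i) := by
    intro i
    obtain ⟨g1, g2, g3⟩ := hv3 v₀ hv₀
    obtain ⟨S₁, w₁, -, g5, g6, -⟩ := hval v₀ g1 g2 g3
    exact ⟨hSt'.bc, hbc0, at_ne (g5 i) (g6 i), by rw [hS2 i, p1]⟩
  -- the family
  refine Y.bridge (I := I) (fun _ => (1 : ℚ)) (fun _ => S)
    (fun i => Pts ν D S (Mo.fr (cl ν Mo (S' i) (w' i))) (w' i) β')
    (fun i => Pts_on hν _ _ _ _) c₀ c₁ _ 0 ?_ ?_
  · intro v hv
    obtain ⟨hτ0, hρ1⟩ := hc₀ v hv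
    obtain ⟨π, hs'⟩ := p4 v hτ0
    obtain ⟨g1, g2, g3⟩ := hv3 v hv
    obtain ⟨S₁, w₁, g4, g5, g6, g7⟩ := hval v g1 g2 g3
    have ha : v.At (Mo.a.eval 1) (M.a.eval 1) := (hmat v hv).a.eval VFP.at_one
    have hCk : ∀ i, Clo ν (D.ed s) M (S₁ i) (w₁ i) := by
      intro i
      refine ⟨hSt.bc, hne, g6 i, ?_⟩
      have h1 := (g4 i).pow 2
      rw [hS2 i] at h1
      rw [h1.unique ((((g5 i).pow (2 * ν)).sub (((VFP.at_num 2).mul ha).mul
        ((g5 i).pow ν))).add (g3.pow m)), F.cm]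
    have hnd : Nd (D.ed (s ∘ π)) (D.eb (s ∘ π)) := Nd.perm π hs.nd
    refine ⟨fun i => Psi Y (s ∘ π) (M.fr (cl ν M (S₁ i) (w₁ i))) (w₁ i), fun i => ?_, ?_⟩
    · refine Pts_start Y hζ hν hn (s := s ∘ π) hs' hnd ?_ ?_ (g5 i) ((hCo i).V0).symm hβ'
        (fun β hβ => hβA v π hs' β hβ)
      · refine hSt'.rot ?_
        refine div_ne_zero (neg_ne_zero.2 ?_) (hCo i).cl_ne
        exact fun h0 => (hCo i).ne (by rw [h0, mul_zero])
      · exact fr_at (hmat v hv) (g4 i) (g5 i) (fun h0 => hne (by rw [h0, mul_zero]))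
          (hCk i).cl_ne
    · rw [← g7]
      refine Finset.sum_congr rfl fun i _ => ?_
      rw [one_smul]
      exact Psi_perm Y hζ hν hs.nd π _ _
  · intro v hv
    refine ⟨fun _ => 0, fun i => ?_, by simp⟩
    rcases hc₁ v hv with ⟨hz, h0⟩ | ⟨hz, hτ⟩
    · obtain ⟨j, hB⟩ := p6 hz v h0
      exact Y.sing v S _ (Pts_on hν _ _ _ _) j hB
    · obtain ⟨hSc, hcc⟩ := p5 hz
      have hCi := hCo i
      have hc0 : Mo.c.eval 1 ≠ 0 := right_ne_zero_of_mul hCi.ne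
      have hT0 := hCi.cl_ne
      have hρ0 : -(Mo.c.eval 1) / cl ν Mo (S' i) (w' i) ≠ 0 :=
        div_ne_zero (neg_ne_zero.2 hc0) hT0
      rw [hSc] at hβ' ⊢
      refine Pts_end Y hν hn hs.nd hβ' ?_
      rintro ⟨k1, k2, k3, k4, k5, k6⟩
      apply z3
      have hx : x' = C x := by
        rw [← ex]
        refine TInf.const_of_mem hτ (hbd v i ?_ hCi.W0 k5 k6)
        rw [hcc]
        exact v.const_mem _
      obtain ⟨k7, k8, k9, k10⟩ := const_of_bounded (v := v) hτ (A := A') (P := P') (M := M')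
        (G := G') hρ0 (δ := ∏ j, D.ed s j) (by rw [← hMo]; exact k1) (by rw [← hMo]; exact k2)
        (by rw [← hMo]; exact k3) (by rw [← hMo]; exact k4) (by
          rw [← hMo, hSt'.bc, ← p1, hcc, ← map_pow, F.cm]) (by
          rw [eP, eM]
          exact hne)
      rw [eA] at k7
      rw [eP] at k8
      rw [eM] at k9
      rw [eG] at k10
      exact ⟨hz, k7, k8, k9, k10, hx⟩

end Pool.Agent.DK
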