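import Pool.Agent.DK.Roots
import Pool.Agent.TInf.Recut
import Pool.Agent.VFP.Util

/-!
# The recut relation
-/

set_option autoImplicit false

noncomputable section

namespace Pool.Agent.DK

open Pool.Agent.ZCyc Pool.Agent.TInf Polynomial
open Pool.Agent.VFP (Om tt)

universe u

variable {k : Type u} [Field k] [IsAlgClosed k] [CharZero k] {n ν : ℕ} {W : Type*}
  [AddCommGroup W] [Module ℚ W] {ζ : k} {δ B : Fin n → k} {om : Module.End ℚ W}
  {f : (Fin n → WPt k) → W}

/-! ### Preparations -/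

set_option linter.unusedSectionVars false

/-- the hypotheses of the theorem -/
private structure Ctx (ν : ℕ) (ζ : k) (δ B : Fin n → k) (om : Module.End ℚ W)
    (f : (Fin n → WPt k) → W) (s : Fin n → Side k) (w : Fin n → k) (i j : Fin n) : Prop where
  hf : WFn ν ζ δ B om f
  hζ : IsPrimitiveRoot ζ ν
  hν : 0 < ν
  hs : ∀ j, (s j).Good
  hB : ∀ j, (s j).p + (s j).m = -B j
  hδ : ∀ j, ((s j).p - (s j).m) ^ 2 = 4 * δ j
  hδ0 : ∀ j, δ j ≠ 0
  hpm : ∀ j, (s j).p * (s j).m ≠ 0
  hw : ∀ j, w j ^ ν = (s j).V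
  hij : i ≠ j

section side

variable {v : Place k (Om k)}

private theorem V_at2 {p m c : k} {X : Om k} (hX : v.At X c) (hg : (⟨p, m, c⟩ : Side k).Good) :
    v.At (⟨algebraMap k (Om k) p, algebraMap k (Om k) m, X⟩ : Side (Om k)).V
      (⟨p, m, c⟩ : Side k).V := by
  unfold Side.V
  exact ((hX.add (Place.at_const p)).mul (hX.add (Place.at_const m))).div
    ((VFP.at_num 2).mul hX) (mul_ne_zero two_ne_zero hg.1)

private theorem good_of_unit {p m V' : k} {X : Om k} (hpm : p * m ≠ 0) (hX : X ≠ 0)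
    (hV : v.At (⟨algebraMap k (Om k) p, algebraMap k (Om k) m, X⟩ : Side (Om k)).V V')
    (hV' : V' ≠ 0) : ∃ c, v.At X c ∧ (⟨p, m, c⟩ : Side k).Good := by
  obtain ⟨Z, hZ⟩ : ∃ Z : Om k, Z = (⟨algebraMap k (Om k) p, algebraMap k (Om k) m, X⟩ :
    Side (Om k)).V := ⟨_, rfl⟩
  rw [← hZ] at hV
  have h1 : (X + algebraMap k (Om k) p) * (X + algebraMap k (Om k) m) = 2 * Z * X := by
    rw [hZ]
    unfold Side.V
    field_simp
  have h2 : X ∈ v.ring := by
    refine VFP.mem_of_quad (G := 2 * Z - algebraMap k (Om k) p - algebraMap k (Om k) m)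
      (H := algebraMap k (Om k) p * algebraMap k (Om k) m) ?_ ?_ ?_
    · exact ((((VFP.at_num 2).mul hV).sub (Place.at_const p)).sub (Place.at_const m)).mem
    · exact ((Place.at_const p).mul (Place.at_const m)).mem
    · linear_combination h1
  obtain ⟨c, hc⟩ := DCI57.exists_at v h2
  have h3 := (hc.add (Place.at_const p)).mul (hc.add (Place.at_const m))
  rw [h1] at h3
  have h4 := h3.unique (((VFP.at_num 2).mul hV).mul hc)
  have hc0 : c ≠ 0 := by
    rintro rfl
    apply hpm
    linear_combination h4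
  have h5 : (c + p) * (c + m) ≠ 0 := by
    rw [h4]
    exact mul_ne_zero (mul_ne_zero two_ne_zero hV') hc0
  exact ⟨c, hc, hc0, left_ne_zero_of_mul h5, right_ne_zero_of_mul h5⟩

end side

/-- the sides over `Om k` -/
private def nsd (s : Fin n → Side k) (i j : Fin n) (X Y : Om k) (b : Fin n) : Side (Om k) :=
  if b = i then ⟨algebraMap k (Om k) (s i).p, algebraMap k (Om k) (s i).m, X⟩
  else if b = j then ⟨algebraMap k (Om k) (s j).p, algebraMap k (Om k) (s j).m, Y⟩
  else ⟨algebraMap k (Om k) (s b).p, algebraMap k (Om k) (s b).m, algebraMap k (Om k) (s b).T⟩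

/-- the `w` over `Om k` -/
private def nw (w : Fin n → k) (i j : Fin n) (ω : Om k) (b : Fin n) : Om k :=
  if b = i then ω else if b = j then algebraMap k (Om k) (w i * w j) / ω
  else algebraMap k (Om k) (w b)

/-- the `w` over `k` -/
private def wupd (w : Fin n → k) (i j : Fin n) (r : k) (b : Fin n) : k :=
  if b = i then r else if b = j then w i * w j / r else w b

/-- the root of degree `ν` -/
private def rt (ν : ℕ) (x : k) : k :=
  if h : 0 < ν then Classical.choose (IsAlgClosed.exists_pow_nat_eq x h) else 0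

private theorem rt_spec (hν : 0 < ν) (x : k) : rt ν x ^ ν = x := by
  unfold rt
  rw [dif_pos hν]
  exact Classical.choose_spec (IsAlgClosed.exists_pow_nat_eq x hν)

open Classical in
/-- the value for the solution with `X = x` -/
private def Gv (f : (Fin n → WPt k) → W) (ν : ℕ) (s : Fin n → Side k)
    (w : Fin n → k) (i j : Fin n) (t₀ : k) : Option k → W
  | none => 0
  | some c =>
    if (⟨(s i).p, (s i).m, c⟩ : Side k).Good ∧
        (⟨(s j).p, (s j).m, t₀ / (c + (s i).p) - (s j).p⟩ : Side k).Good then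
      f fun a => wpt (upd s i j c (t₀ / (c + (s i).p) - (s j).p) a)
        (wupd w i j (rt ν (⟨(s i).p, (s i).m, c⟩ : Side k).V) a)
    else 0

/-- the pair `(X, Y)` is a solution -/
private structure Sol (s : Fin n → Side k) (i j : Fin n) (τ X Y : Om k) : Prop where
  gX : (⟨algebraMap k (Om k) (s i).p, algebraMap k (Om k) (s i).m, X⟩ : Side (Om k)).Good
  gY : (⟨algebraMap k (Om k) (s j).p, algebraMap k (Om k) (s j).m, Y⟩ : Side (Om k)).Good
  e1 : (X + algebraMap k (Om k) (s i).p) * (Y + algebraMap k (Om k) (s j).p) = τ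
  e2 : (⟨algebraMap k (Om k) (s i).p, algebraMap k (Om k) (s i).m, X⟩ : Side (Om k)).V *
    (⟨algebraMap k (Om k) (s j).p, algebraMap k (Om k) (s j).m, Y⟩ : Side (Om k)).V =
      algebraMap k (Om k) ((s i).V * (s j).V)

/-- the value of `X` in the projective line is `x` -/
private def VP (v : Place k (Om k)) (X : Om k) : Option k → Prop
  | none => X ∉ v.ring
  | some c => v.At X c

private theorem exists_VP (v : Place k (Om k)) (X : Om k) : ∃ x, VP v X x := by
  by_cases h : X ∈ v.ring
  · obtain ⟨c, hc⟩ := DCI57.exists_at v h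
    exact ⟨some c, hc⟩
  · exact ⟨none, h⟩

section comb

variable {s : Fin n → Side k} {w : Fin n → k} {i j : Fin n}

private theorem w_ne2 (c : Ctx ν ζ δ B om f s w i j) (b : Fin n) : w b ≠ 0 := by
  intro h
  apply V_ne (c.hs b)
  rw [← c.hw b, h, zero_pow c.hν.ne']

private theorem prod_wupd (hij : i ≠ j) {r : k} (hr : r ≠ 0) :
    ∏ b, wupd w i j r b = ∏ b, w b := by
  have hj : j ∈ Finset.univ.erase i := Finset.mem_erase.2 ⟨hij.symm, Finset.mem_univ _⟩
  rw [← Finset.mul_prod_erase Finset.univ (wupd w i j r) (Finset.mem_univ i),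
    ← Finset.mul_prod_erase Finset.univ w (Finset.mem_univ i),
    ← Finset.mul_prod_erase _ (wupd w i j r) hj, ← Finset.mul_prod_erase _ w hj]
  have h1 : ∏ b ∈ (Finset.univ.erase i).erase j, wupd w i j r b =
      ∏ b ∈ (Finset.univ.erase i).erase j, w b := by
    refine Finset.prod_congr rfl fun b hb => ?_
    rw [Finset.mem_erase, Finset.mem_erase] at hb
    unfold wupd
    rw [if_neg hb.2.1, if_neg hb.1]
  rw [h1]
  unfold wupd
  rw [if_pos rfl, if_neg hij.symm, if_pos rfl]
  field_simp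

/-- `upd` at `b` -/
private theorem upd_i (s : Fin n → Side k) {i j : Fin n} (hij : i ≠ j) (x y : k) :
    upd s i j x y i = ⟨(s i).p, (s i).m, x⟩ := by
  unfold upd
  rw [Function.update_of_ne hij, Function.update_self]

private theorem upd_j (s : Fin n → Side k) (i j : Fin n) (x y : k) :
    upd s i j x y j = ⟨(s j).p, (s j).m, y⟩ := by
  unfold upd
  rw [Function.update_self]

private theorem upd_b (s : Fin n → Side k) {i j b : Fin n} (hi : b ≠ i) (hj : b ≠ j) (x y : k) :
    upd s i j x y b = s b := by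
  unfold upd
  rw [Function.update_of_ne hj, Function.update_of_ne hi]

/-- the sixth powers -/
private theorem wupd_pow (c : Ctx ν ζ δ B om f s w i j) {x y : k}
    (gx : (⟨(s i).p, (s i).m, x⟩ : Side k).Good)
    (hV : (⟨(s i).p, (s i).m, x⟩ : Side k).V * (⟨(s j).p, (s j).m, y⟩ : Side k).V =
      (s i).V * (s j).V) {r : k} (hr : r ^ ν = (⟨(s i).p, (s i).m, x⟩ : Side k).V) (b : Fin n) :
    wupd w i j r b ^ ν = (upd s i j x y b).V := by
  by_cases hi : b = i
  · rw [hi, upd_i s c.hij, ← hr]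
    unfold wupd
    rw [if_pos rfl]
  by_cases hj : b = j
  · rw [hj, upd_j]
    unfold wupd
    rw [if_neg c.hij.symm, if_pos rfl, div_pow, mul_pow, c.hw, c.hw, ← hV, hr]
    field_simp [V_ne gx]
  · rw [upd_b s hi hj, ← c.hw b]
    unfold wupd
    rw [if_neg hi, if_neg hj]

private theorem Gv_eq (c : Ctx ν ζ δ B om f s w i j) {x y t₀ : k}
    (gx : (⟨(s i).p, (s i).m, x⟩ : Side k).Good)
    (gy : (⟨(s j).p, (s j).m, y⟩ : Side k).Good) (h1 : (x + (s i).p) * (y + (s j).p) = t₀)
    (hV : (⟨(s i).p, (s i).m, x⟩ : Side k).V * (⟨(s j).p, (s j).m, y⟩ : Side k).V =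
      (s i).V * (s j).V) (w' : Fin n → k) (hw' : ∀ b, w' b ^ ν = (upd s i j x y b).V)
    (hp : ∏ b, w' b = ∏ b, w b) :
    Gv f ν s w i j t₀ (some x) = f fun a => wpt (upd s i j x y a) (w' a) := by
  have hy : t₀ / (x + (s i).p) - (s j).p = y := by
    have := gx.2.1
    dsimp only at this
    rw [← h1]
    field_simp
    ring
  have hr0 : rt ν (⟨(s i).p, (s i).m, x⟩ : Side k).V ≠ 0 := by
    intro h
    apply V_ne gx
    rw [← rt_spec c.hν (⟨(s i).p, (s i).m, x⟩ : Side k).V, h, zero_pow c.hν.ne']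
  unfold Gv
  dsimp only
  rw [hy, if_pos ⟨gx, gy⟩]
  symm
  refine WFn.congr c.hf c.hζ c.hν (fun a => (upd s i j x y a).Sg) (fun b => ?_) (fun b => ?_) ?_
  · unfold wupd
    split_ifs
    · exact hr0
    · exact div_ne_zero (mul_ne_zero (w_ne2 c i) (w_ne2 c j)) hr0
    · exact w_ne2 c b
  · rw [hw', wupd_pow c gx hV (rt_spec c.hν _)]
  · rw [hp, prod_wupd c.hij hr0]

private theorem Gv_self (c : Ctx ν ζ δ B om f s w i j) :
    Gv f ν s w i j (((s i).T + (s i).p) * ((s j).T + (s j).p)) (some (s i).T) =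
      (f fun a => wpt (s a) (w a)) := by
  have h1 : upd s i j (s i).T (s j).T = s := by
    funext b
    by_cases hi : b = i
    · rw [hi, upd_i s c.hij]
    by_cases hj : b = j
    · rw [hj, upd_j]
    · rw [upd_b s hi hj]
  have h2 := Gv_eq c (x := (s i).T) (y := (s j).T) (c.hs i) (c.hs j) rfl rfl w
    (fun b => by rw [h1]; exact c.hw b) rfl
  rwa [h1] at h2

/-- the points over `Om k` are on the curves -/
private theorem nsd_on (c : Ctx ν ζ δ B om f s w i j) {τ X Y ω : Om k} (hS : Sol s i j τ X Y)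
    (hω : ω ^ ν = (⟨algebraMap k (Om k) (s i).p, algebraMap k (Om k) (s i).m, X⟩ : Side (Om k)).V)
    (b : Fin n) :
    WOn ν (algebraMap k (Om k) (δ b)) (algebraMap k (Om k) (B b))
      (wpt (nsd s i j X Y b) (nw w i j ω b)) := by
  have hg : (⟨algebraMap k (Om k) (s b).p, algebraMap k (Om k) (s b).m,
      algebraMap k (Om k) (s b).T⟩ : Side (Om k)).Good := by
    have h1 := c.hs b
    refine ⟨?_, ?_, ?_⟩
    · dsimp only
      rw [Ne, map_eq_zero]
      exact h1.1
    · dsimp only
      rw [← map_add, Ne, map_eq_zero]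
      exact h1.2.1
    · dsimp only
      rw [← map_add, Ne, map_eq_zero]
      exact h1.2.2
  have hVb : (⟨algebraMap k (Om k) (s b).p, algebraMap k (Om k) (s b).m,
      algebraMap k (Om k) (s b).T⟩ : Side (Om k)).V = algebraMap k (Om k) (s b).V := by
    unfold Side.V
    simp only [map_div₀, map_mul, map_add, map_ofNat]
  refine wpt_on c.hν ?_ ?_ ?_ ?_
  · unfold nsd
    split_ifs
    · exact hS.gX
    · exact hS.gY
    · exact hg
  · unfold nsd
    split_ifs with h1 h2
    · rw [h1]
      dsimp only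
      rw [← map_add, c.hB, map_neg]
    · rw [h2]
      dsimp only
      rw [← map_add, c.hB, map_neg]
    · dsimp only
      rw [← map_add, c.hB, map_neg]
  · have h3 : ∀ b, (algebraMap k (Om k) (s b).p - algebraMap k (Om k) (s b).m) ^ 2 =
        4 * algebraMap k (Om k) (δ b) := by
      intro b
      rw [← map_sub, ← map_pow, c.hδ, map_mul, map_ofNat]
    unfold nsd
    split_ifs with h1 h2
    · rw [h1]
      exact h3 i
    · rw [h2]
      exact h3 j
    · exact h3 b
  · unfold nsd nw
    split_ifs with h1 h2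
    · exact hω
    · have h4 := V_ne hS.gX
      rw [div_pow, hω, div_eq_iff h4, ← map_pow, mul_pow, c.hw, c.hw, ← hS.e2]
      ring
    · rw [hVb, ← map_pow, c.hw]

/-- values of the points at a place -/
private theorem local_val (c : Ctx ν ζ δ B om f s w i j) {τ X Y ω : Om k} (hS : Sol s i j τ X Y)
    (hω : ω ^ ν = (⟨algebraMap k (Om k) (s i).p, algebraMap k (Om k) (s i).m, X⟩ : Side (Om k)).V)
    (v : Place k (Om k)) {t₀ : k} (hτ : v.At τ t₀) {x : Option k} (hx : VP v X x) :
    ∃ p : Fin n → WPt k,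
      (∀ b, WVal v (wpt (nsd s i j X Y b) (nw w i j ω b)) (p b)) ∧
      f p = Gv f ν s w i j t₀ x := by
  have hVX := V_ne hS.gX
  by_cases hu : ∃ V' : k, V' ≠ 0 ∧ v.At (⟨algebraMap k (Om k) (s i).p,
      algebraMap k (Om k) (s i).m, X⟩ : Side (Om k)).V V'
  · obtain ⟨V', hV', hV⟩ := hu
    obtain ⟨x', hx', gx⟩ := good_of_unit (c.hpm i) hS.gX.1 hV hV'
    have hxx : x = some x' := by
      cases x with
      | none => exact absurd hx'.mem hx
      | some c => rw [hx'.unique hx]
    rw [hxx]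
    have hVx : V' = (⟨(s i).p, (s i).m, x'⟩ : Side k).V := hV.unique (V_at2 hx' gx)
    -- the value of `Y`
    have hVY : v.At (⟨algebraMap k (Om k) (s j).p, algebraMap k (Om k) (s j).m, Y⟩ :
        Side (Om k)).V ((s i).V * (s j).V / V') := by
      have h1 := (Place.at_const (v := v) ((s i).V * (s j).V)).div hV hV'
      rw [← hS.e2, mul_div_cancel_left₀ _ hVX] at h1
      exact h1
    obtain ⟨y', hy', gy⟩ := good_of_unit (c.hpm j) hS.gY.1 hVY
      (div_ne_zero (mul_ne_zero (V_ne (c.hs i)) (V_ne (c.hs j))) hV')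
    have hVy := hVY.unique (V_at2 hy' gy)
    have hVV : (⟨(s i).p, (s i).m, x'⟩ : Side k).V * (⟨(s j).p, (s j).m, y'⟩ : Side k).V =
        (s i).V * (s j).V := by
      rw [← hVy, ← hVx]
      field_simp
    have h1 : (x' + (s i).p) * (y' + (s j).p) = t₀ := by
      have h2 := (hx'.add (Place.at_const (s i).p)).mul (hy'.add (Place.at_const (s j).p))
      rw [hS.e1] at h2
      exact h2.unique hτ
    -- the value of `ω`
    have hωm : ω ∈ v.ring := VFP.mem_of_pow (m := ν) c.hν.ne' (hω ▸ hV.mem)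
    obtain ⟨r, hr⟩ := DCI57.exists_at v hωm
    have hr6 : r ^ ν = (⟨(s i).p, (s i).m, x'⟩ : Side k).V := by
      rw [← hVx]
      exact (hr.pow ν).unique (hω ▸ hV)
    have hr0 : r ≠ 0 := by
      intro h
      apply V_ne gx
      rw [← hr6, h, zero_pow c.hν.ne']
    refine ⟨fun b => wpt (upd s i j x' y' b) (wupd w i j r b), ?_, ?_⟩
    · intro b
      have hgb : (upd s i j x' y' b).Good := by
        by_cases hi : b = i
        · rw [hi, upd_i s c.hij]
          exact gx
        by_cases hj : b = j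
        · rw [hj, upd_j]
          exact gy
        · rw [upd_b s hi hj]
          exact c.hs b
      have hwb := DK.w_ne c.hν hgb (wupd_pow c gx hVV hr6 b)
      refine wpt_val ⟨?_, ?_, ?_⟩ hgb ?_ hwb
      · by_cases hi : b = i
        · rw [hi, upd_i s c.hij]
          unfold nsd
          rw [if_pos rfl]
          exact Place.at_const _
        by_cases hj : b = j
        · rw [hj, upd_j]
          unfold nsd
          rw [if_neg c.hij.symm, if_pos rfl]
          exact Place.at_const _
        · rw [upd_b s hi hj]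
          unfold nsd
          rw [if_neg hi, if_neg hj]
          exact Place.at_const _
      · by_cases hi : b = i
        · rw [hi, upd_i s c.hij]
          unfold nsd
          rw [if_pos rfl]
          exact Place.at_const _
        by_cases hj : b = j
        · rw [hj, upd_j]
          unfold nsd
          rw [if_neg c.hij.symm, if_pos rfl]
          exact Place.at_const _
        · rw [upd_b s hi hj]
          unfold nsd
          rw [if_neg hi, if_neg hj]
          exact Place.at_const _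
      · by_cases hi : b = i
        · rw [hi, upd_i s c.hij]
          unfold nsd
          rw [if_pos rfl]
          exact hx'
        by_cases hj : b = j
        · rw [hj, upd_j]
          unfold nsd
          rw [if_neg c.hij.symm, if_pos rfl]
          exact hy'
        · rw [upd_b s hi hj]
          unfold nsd
          rw [if_neg hi, if_neg hj]
          exact Place.at_const _
      · unfold nw wupd
        split_ifs
        · exact hr
        · exact (Place.at_const _).div hr hr0
        · exact Place.at_const _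
    · rw [Gv_eq c gx gy h1 hVV (wupd w i j r) (wupd_pow c gx hVV hr6) (prod_wupd c.hij hr0)]
  · have hnu : v.At ω 0 ∨ ω ∉ v.ring := by
      by_contra hcon
      push Not at hcon
      obtain ⟨r, hr⟩ := DCI57.exists_at v hcon.2
      have hr0 : r ≠ 0 := by
        rintro rfl
        exact hcon.1 hr
      exact hu ⟨r ^ ν, pow_ne_zero ν hr0, hω ▸ hr.pow ν⟩
    have hval : ∀ b : Fin n, ∃ q : WPt k,
        WVal v (wpt (nsd s i j X Y b) (nw w i j ω b)) q ∧ (b = i → q = none) := by
      intro b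
      by_cases hi : b = i
      · refine ⟨none, ?_, fun _ => rfl⟩
        rw [hi]
        have h1 : nw w i j ω i = ω := by
          unfold nw
          rw [if_pos rfl]
        rw [h1]
        exact wpt_inf hnu.symm
      · obtain ⟨q, hq⟩ := wval_exists (Place.at_const (v := v) (δ b)).mem
          (Place.at_const (v := v) (B b)).mem (nsd_on c hS hω b)
        exact ⟨q, hq, fun h => absurd h hi⟩
    choose p hp using hval
    refine ⟨p, fun b => (hp b).1, ?_⟩
    rw [c.hf.inf p i ((hp i).2 rfl)]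
    symm
    cases x with
    | none => rfl
    | some c' =>
      unfold Gv
      dsimp only
      rw [if_neg]
      rintro ⟨gx, -⟩
      exact hu ⟨_, V_ne gx, V_at2 hx gx⟩

/-- a solution of the quadratic equation -/
private theorem sol_of_quad (c : Ctx ν ζ δ B om f s w i j) {τ X : Om k} (hτ : τ ≠ 0)
    (g : (⟨algebraMap k (Om k) (s i).p, algebraMap k (Om k) (s i).m, X⟩ : Side (Om k)).Good)
    (hq : quad (algebraMap k (Om k) (s i).p) (algebraMap k (Om k) (s i).m)
      (algebraMap k (Om k) (s j).p) (algebraMap k (Om k) (s j).m)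
      (algebraMap k (Om k) ((s i).V * (s j).V)) τ X = 0) :
    Sol s i j τ X (τ / (X + algebraMap k (Om k) (s i).p) - algebraMap k (Om k) (s j).p) := by
  have hV0 : algebraMap k (Om k) ((s i).V * (s j).V) ≠ 0 := by
    rw [Ne, map_eq_zero]
    exact mul_ne_zero (V_ne (c.hs i)) (V_ne (c.hs j))
  have hm0 : algebraMap k (Om k) (s j).m ≠ 0 := by
    rw [Ne, map_eq_zero]
    exact right_ne_zero_of_mul (c.hpm j)
  obtain ⟨V, hV⟩ : ∃ V : Om k, V = algebraMap k (Om k) ((s i).V * (s j).V) := ⟨_, rfl⟩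
  rw [← hV] at hq hV0
  obtain ⟨pi, hpi⟩ : ∃ V : Om k, V = algebraMap k (Om k) (s i).p := ⟨_, rfl⟩
  obtain ⟨mi, hmi⟩ : ∃ V : Om k, V = algebraMap k (Om k) (s i).m := ⟨_, rfl⟩
  obtain ⟨pj, hpj⟩ : ∃ V : Om k, V = algebraMap k (Om k) (s j).p := ⟨_, rfl⟩
  obtain ⟨mj, hmj⟩ : ∃ V : Om k, V = algebraMap k (Om k) (s j).m := ⟨_, rfl⟩
  rw [← hpi, ← hmi] at g
  rw [← hpi, ← hmi, ← hpj, ← hmj] at hq
  rw [← hmj] at hm0
  obtain ⟨g1, g2, g3⟩ := g
  dsimp only at g1 g2 g3
  obtain ⟨Y, hY⟩ : ∃ Y : Om k, Y = τ / (X + pi) - pj := ⟨_, rfl⟩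
  have h1 : (X + pi) * (Y + pj) = τ := by
    rw [hY]
    field_simp
    ring
  have hY0 : Y ≠ 0 := by
    intro h
    rw [h, zero_add] at h1
    unfold quad at hq
    have h2 : (X + mi) * (mj * (X + pi)) * τ = 0 := by
      have h3 : τ - pj * (X + pi) = 0 := by rw [← h1]; ring
      rw [h3, mul_zero, sub_zero] at hq
      have h4 : τ - (pj - mj) * (X + pi) = mj * (X + pi) := by rw [← h1]; ring
      rw [h4] at hq
      linear_combination hq
    exact mul_ne_zero (mul_ne_zero g3 (mul_ne_zero hm0 g2)) hτ h2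
  have h5 : τ * (X + mi) * (Y + mj) = 4 * V * X * Y := by
    unfold quad at hq
    have h6 : τ - (pj - mj) * (X + pi) = (Y + mj) * (X + pi) := by rw [← h1]; ring
    have h7 : τ - pj * (X + pi) = Y * (X + pi) := by rw [← h1]; ring
    rw [h6, h7] at hq
    apply mul_right_cancel₀ g2
    linear_combination hq
  have hYp : Y + pj ≠ 0 := by
    intro h
    rw [h, mul_zero] at h1
    exact hτ h1.symm
  have hYm : Y + mj ≠ 0 := by
    intro h
    rw [h, mul_zero] at h5
    exact mul_ne_zero (mul_ne_zero (mul_ne_zero (by norm_num) hV0) g1) hY0 h5.symm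
  rw [← hpi, ← hpj, ← hY]
  refine ⟨?_, ?_, ?_, ?_⟩
  · rw [← hpi, ← hmi]
    exact ⟨g1, g2, g3⟩
  · rw [← hpj, ← hmj]
    exact ⟨hY0, hYp, hYm⟩
  · rw [← hpi, ← hpj]
    exact h1
  · rw [← hpi, ← hpj, ← hmi, ← hmj, ← hV]
    unfold Side.V
    dsimp only
    rw [div_mul_div_comm, div_eq_iff (mul_ne_zero (mul_ne_zero two_ne_zero g1)
      (mul_ne_zero two_ne_zero hY0))]
    linear_combination (X + mi) * (Y + mj) * h1 + h5

/-- two families of solutions -/
private theorem family (c : Ctx ν ζ δ B om f s w i j) {I : Type} [Fintype I] {τ : Om k} (X Y : I → Om k)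
    (hS : ∀ r, Sol s i j τ (X r) (Y r)) (c₀ c₁ : k) (C₀ C₁ : W)
    (h0 : ∀ v : Place k (Om k), v.At (tt k) c₀ → ∃ t₀ : k, v.At τ t₀ ∧ ∃ x : I → Option k,
      (∀ r, VP v (X r) (x r)) ∧ ∑ r, Gv f ν s w i j t₀ (x r) = C₀)
    (h1 : ∀ v : Place k (Om k), v.At (tt k) c₁ → ∃ t₀ : k, v.At τ t₀ ∧ ∃ x : I → Option k,
      (∀ r, VP v (X r) (x r)) ∧ ∑ r, Gv f ν s w i j t₀ (x r) = C₁) : C₀ = C₁ := by
  classical
  have hω : ∀ r, ∃ ω : Om k, ω ^ ν = (⟨algebraMap k (Om k) (s i).p,
      algebraMap k (Om k) (s i).m, X r⟩ : Side (Om k)).V := fun r =>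
    IsAlgClosed.exists_pow_nat_eq _ c.hν
  choose ω hω using hω
  have key : ∀ (e : k) (C : W) (v : Place k (Om k)), (∃ t₀ : k, v.At τ t₀ ∧ ∃ x : I → Option k,
      (∀ r, VP v (X r) (x r)) ∧ ∑ r, Gv f ν s w i j t₀ (x r) = C) →
      ∃ p : I → Fin n → WPt k,
        (∀ q b, WVal v (wpt (nsd s i j (X q) (Y q) b) (nw w i j (ω q) b)) (p q b)) ∧
        ∑ q, (1 : ℚ) • f (p q) = C := by
    intro e C v ⟨t₀, ht, x, hx, hC⟩
    have hp := fun r => local_val c (hS r) (hω r) v ht (hx r)
    choose p hp hp' using hp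
    refine ⟨p, hp, ?_⟩
    rw [← hC]
    refine Finset.sum_congr rfl fun r _ => ?_
    rw [← hp' r, one_smul]
  exact c.hf.bridge (I := I) (fun _ => (1 : ℚ))
    (fun q b => wpt (nsd s i j (X q) (Y q) b) (nw w i j (ω q) b))
    (fun q b => nsd_on c (hS q) (hω q) b) c₀ c₁ C₀ C₁
    (fun v hv => key c₀ C₀ v (h0 v hv)) (fun v hv => key c₁ C₁ v (h1 v hv))

/-! ### The coefficients of `quad` -/

section coeff

variable {K : Type*} [Field K]

/-- the leading coefficient of `quad` -/
private def lc (pj mj V t : K) : K := 4 * V * pj - t * (pj - mj)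

/-- the linear coefficient of `quad` -/
private def lb (pi mi pj mj V t : K) : K :=
  t * (t - (pj - mj) * (pi + mi)) - 4 * V * (t - pj * pi)

/-- the constant coefficient of `quad` -/
private def la (pi mi pj mj t : K) : K := t * mi * (t - (pj - mj) * pi)

private theorem quad_eq (pi mi pj mj V t x : K) : quad pi mi pj mj V t x =
    lc pj mj V t * x ^ 2 + lb pi mi pj mj V t * x + la pi mi pj mj t := by
  unfold quad lc lb la
  ring

private theorem roots_exist [IsAlgClosed K] {a : K} (b c : K) (ha : a ≠ 0) :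
    ∃ X₁ X₂ : K, a * (X₁ + X₂) = -b ∧ a * (X₁ * X₂) = c := by
  obtain ⟨z, hz⟩ := IsAlgClosed.exists_root (C a * Polynomial.X ^ 2 + C b * Polynomial.X + C c : K[X])
    (by rw [Polynomial.degree_quadratic ha]; norm_num)
  have hz' : a * z ^ 2 + b * z + c = 0 := by
    have := hz
    simp only [Polynomial.IsRoot, eval_add, eval_mul, eval_C, eval_pow, eval_X] at this
    exact this
  refine ⟨z, -b / a - z, ?_, ?_⟩
  · field_simp
    ring
  · have h1 : a * (-b / a - z) = -b - a * z := by
      field_simp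
    linear_combination z * h1 - hz'

private theorem quad_iff [CharZero K] {pi mi pj mj x y t V : K} (gx : (⟨pi, mi, x⟩ : Side K).Good)
    (gy : (⟨pj, mj, y⟩ : Side K).Good) (h1 : (x + pi) * (y + pj) = t) :
    quad pi mi pj mj V t x = 0 ↔ (⟨pi, mi, x⟩ : Side K).V * (⟨pj, mj, y⟩ : Side K).V = V := by
  obtain ⟨g1, g2, g3⟩ := gx
  obtain ⟨h2, h3, h4⟩ := gy
  dsimp only at g1 g2 g3 h2 h3 h4
  have e : quad pi mi pj mj V t x = (x + pi) * (t * (x + mi) * (y + mj) - 4 * V * x * y) := by
    unfold quad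
    rw [← h1]
    ring
  rw [e, mul_eq_zero, or_iff_right g2, sub_eq_zero]
  unfold Side.V
  dsimp only
  rw [div_mul_div_comm, div_eq_iff (mul_ne_zero (mul_ne_zero two_ne_zero g1)
    (mul_ne_zero two_ne_zero h2)), ← h1]
  constructor
  · intro h
    linear_combination h
  · intro h
    linear_combination h

end coeff

private theorem tt_ne0 : tt k ≠ 0 := by
  have := VFP.tt_ne (0 : k)
  rwa [map_zero] at this

private theorem no_const {a b : k} (ha : a ≠ 0) :
    algebraMap k (Om k) a * tt k + algebraMap k (Om k) b ≠ 0 := by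
  intro h
  apply VFP.tt_ne (-b / a)
  have ha' : algebraMap k (Om k) a ≠ 0 := by
    rw [Ne, map_eq_zero]
    exact ha
  rw [map_div₀, map_neg, eq_div_iff ha']
  linear_combination h

private theorem pm_ne (c : Ctx ν ζ δ B om f s w i j) (b : Fin n) : (s b).p - (s b).m ≠ 0 := by
  intro h
  have h1 := c.hδ b
  rw [h] at h1
  have h3 : (4 : k) * δ b = 0 := by
    rw [← h1]
    norm_num
  exact c.hδ0 b ((mul_eq_zero.1 h3).resolve_left (by norm_num))

/-- the roots of `quad` over `Om k` are good -/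
private theorem root_good (c : Ctx ν ζ δ B om f s w i j) {X : Om k}
    (hq : quad (algebraMap k (Om k) (s i).p) (algebraMap k (Om k) (s i).m)
      (algebraMap k (Om k) (s j).p) (algebraMap k (Om k) (s j).m)
      (algebraMap k (Om k) ((s i).V * (s j).V)) (tt k) X = 0) :
    (⟨algebraMap k (Om k) (s i).p, algebraMap k (Om k) (s i).m, X⟩ : Side (Om k)).Good := by
  have hV0 : (s i).V * (s j).V ≠ 0 := mul_ne_zero (V_ne (c.hs i)) (V_ne (c.hs j))
  have hV0' : algebraMap k (Om k) ((s i).V * (s j).V) ≠ 0 := by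
    rw [Ne, map_eq_zero]
    exact hV0
  have hm : algebraMap k (Om k) (s i).m ≠ 0 := by
    rw [Ne, map_eq_zero]
    exact right_ne_zero_of_mul (c.hpm i)
  unfold quad at hq
  refine ⟨?_, ?_, ?_⟩
  · dsimp only
    intro h
    rw [h] at hq
    have h1 := no_const (k := k) (a := 1) (b := -(((s j).p - (s j).m) * (s i).p)) one_ne_zero
    apply mul_ne_zero (mul_ne_zero tt_ne0 hm) h1
    rw [map_one, map_neg, map_mul, map_sub]
    linear_combination hq
  · dsimp only
    intro h
    have hX : X = -algebraMap k (Om k) (s i).p := by linear_combination h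
    rw [hX] at hq
    have h1 := no_const (k := k) (a := (s i).p - (s i).m) (b := -(4 * ((s i).V * (s j).V) * (s i).p))
      (pm_ne c i)
    apply mul_ne_zero tt_ne0 h1
    rw [map_neg, map_mul (algebraMap k (Om k)) (4 * ((s i).V * (s j).V)), map_mul (algebraMap k (Om k)) 4,
      map_sub, map_ofNat]
    linear_combination -hq
  · dsimp only
    intro h
    have hX : X = -algebraMap k (Om k) (s i).m := by linear_combination h
    rw [hX] at hq
    have h1 := no_const (k := k) (a := 1) (b := -((s j).p * ((s i).p - (s i).m))) one_ne_zero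
    apply mul_ne_zero (mul_ne_zero (mul_ne_zero (by norm_num : (4 : Om k) ≠ 0) hV0') hm) h1
    rw [map_one, map_neg, map_mul (algebraMap k (Om k)) (s j).p, map_sub]
    linear_combination hq

/-- the values of `Gv` for `t₀ = 0` -/
private theorem Gv_zero (x : Option k) : Gv f ν s w i j 0 x = 0 := by
  cases x with
  | none => rfl
  | some c =>
    unfold Gv
    dsimp only
    rw [if_neg]
    rintro ⟨-, -, h, -⟩
    apply h
    dsimp only
    rw [zero_div]
    ring

/-- the values of two roots -/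
private theorem roots_val {v : Place k (Om k)} {a b c X₁ X₂ : Om k} {a' b' c' z : k}
    (ha : v.At a a') (hb : v.At b b') (hc : v.At c c') (h1 : a * (X₁ + X₂) = -b)
    (h2 : a * (X₁ * X₂) = c) (hz : a' * z ^ 2 + b' * z + c' = 0) (T' : Option k)
    (hT : (∃ x, T' = some x ∧ a' ≠ 0 ∧ a' * (z + x) = -b') ∨ (T' = none ∧ a' = 0 ∧ b' ≠ 0)) :
    (VP v X₁ (some z) ∧ VP v X₂ T') ∨ (VP v X₁ T' ∧ VP v X₂ (some z)) := by
  rcases hT with ⟨x, rfl, ha', hx⟩ | ⟨rfl, ha', hb'⟩
  · -- two finite roots
    have ha0 : a ≠ 0 := by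
      rintro rfl
      exact ha' (ha.unique VFP.at_zero)
    have hG := hb.neg.div ha ha'
    have hH := hc.div ha ha'
    have e1 : X₁ + X₂ = -b / a := by
      field_simp
      linear_combination h1
    have e2 : X₁ * X₂ = c / a := by
      field_simp
      linear_combination h2
    have m1 : X₁ ∈ v.ring := by
      refine VFP.mem_of_quad hG.mem hH.mem ?_
      rw [← e1, ← e2]
      ring
    have m2 : X₂ ∈ v.ring := by
      refine VFP.mem_of_quad hG.mem hH.mem ?_
      rw [← e1, ← e2]
      ring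
    obtain ⟨x₁, hx₁⟩ := DCI57.exists_at v m1
    obtain ⟨x₂, hx₂⟩ := DCI57.exists_at v m2
    have f1 := (ha.mul (hx₁.add hx₂)).unique (h1 ▸ hb.neg)
    have f2 := (ha.mul (hx₁.mul hx₂)).unique (h2 ▸ hc)
    have g1 : x₁ + x₂ = z + x := by
      apply mul_left_cancel₀ ha'
      linear_combination f1 - hx
    have g2 : (x₁ - z) * (x₁ - x) = 0 := by
      apply mul_left_cancel₀ ha'
      linear_combination (a' * x₁) * g1 - f2 + z * hx - hz
    rcases mul_eq_zero.1 g2 with h3 | h3
    · have e3 : x₁ = z := sub_eq_zero.1 h3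
      left
      refine ⟨e3 ▸ hx₁, ?_⟩
      have e4 : x₂ = x := by linear_combination g1 - e3
      exact e4 ▸ hx₂
    · have e3 : x₁ = x := sub_eq_zero.1 h3
      right
      refine ⟨e3 ▸ hx₁, ?_⟩
      have e4 : x₂ = z := by linear_combination g1 - e3
      exact e4 ▸ hx₂
  · -- one root is infinite
    subst ha'
    have hfin : ∀ X X' : Om k, a * (X + X') = -b → a * (X * X') = c → X ∉ v.ring →
        VP v X' (some z) := by
      intro X X' k1 k2 hX
      have hX0 := VFP.ne_zero_of_not_mem hX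
      have hXi := VFP.inv_at_of_not_mem hX
      have hX' : X' ∈ v.ring := by
        by_contra hX'
        have hX0' := VFP.ne_zero_of_not_mem hX'
        have hXi' := VFP.inv_at_of_not_mem hX'
        have e1 : c * (X⁻¹ + X'⁻¹) = -b := by
          rw [← k1, ← k2]
          field_simp
          ring
        have e2 := hc.mul (hXi.add hXi')
        rw [e1] at e2
        apply hb'
        have := hb.neg.unique e2
        linear_combination -this
      obtain ⟨x', hx'⟩ := DCI57.exists_at v hX'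
      have e3 : a * X' ^ 2 + b * X' + c = 0 := by
        rw [← k2]
        linear_combination X' * k1
      have e4 := ((ha.mul (hx'.pow 2)).add (hb.mul hx')).add hc
      rw [e3] at e4
      have e5 := VFP.at_zero.unique e4
      have e6 : x' = z := by
        apply mul_left_cancel₀ hb'
        linear_combination -e5 - hz
      exact e6 ▸ hx'
    by_cases m1 : X₁ ∈ v.ring
    · by_cases m2 : X₂ ∈ v.ring
      · exfalso
        obtain ⟨x₁, hx₁⟩ := DCI57.exists_at v m1
        obtain ⟨x₂, hx₂⟩ := DCI57.exists_at v m2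
        have f1 := (ha.mul (hx₁.add hx₂)).unique (h1 ▸ hb.neg)
        apply hb'
        linear_combination f1
      · left
        refine ⟨hfin X₂ X₁ (by rw [add_comm]; exact h1) (by rw [mul_comm X₂]; exact h2) m2, m2⟩
    · right
      exact ⟨m1, hfin X₁ X₂ h1 h2 m1⟩

/-- the relation -/
private theorem two_roots (c : Ctx ν ζ δ B om f s w i j) {t₀ : k}
    (ht : t₀ = ((s i).T + (s i).p) * ((s j).T + (s j).p)) (T' : Option k)
    (hT : (∃ x, T' = some x ∧ lc (s j).p (s j).m ((s i).V * (s j).V) t₀ ≠ 0 ∧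
        lc (s j).p (s j).m ((s i).V * (s j).V) t₀ * ((s i).T + x) =
          -lb (s i).p (s i).m (s j).p (s j).m ((s i).V * (s j).V) t₀) ∨
      (T' = none ∧ lc (s j).p (s j).m ((s i).V * (s j).V) t₀ = 0 ∧
        lb (s i).p (s i).m (s j).p (s j).m ((s i).V * (s j).V) t₀ ≠ 0)) :
    (f fun a => wpt (s a) (w a)) + Gv f ν s w i j t₀ T' = 0 := by
  have hroot : quad (s i).p (s i).m (s j).p (s j).m ((s i).V * (s j).V) t₀ (s i).T = 0 :=
    (quad_iff (c.hs i) (c.hs j) ht.symm).2 rfl
  rw [quad_eq] at hroot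
  have hA0 : lc (algebraMap k (Om k) (s j).p) (algebraMap k (Om k) (s j).m)
      (algebraMap k (Om k) ((s i).V * (s j).V)) (tt k) ≠ 0 := by
    intro h
    have h1 := no_const (k := k) (a := (s j).p - (s j).m) (b := -(4 * ((s i).V * (s j).V) * (s j).p))
      (pm_ne c j)
    apply h1
    rw [map_neg, map_mul (algebraMap k (Om k)) (4 * ((s i).V * (s j).V)), map_mul (algebraMap k (Om k)) 4,
      map_sub, map_ofNat]
    unfold lc at h
    linear_combination -h
  obtain ⟨X₁, X₂, h1, h2⟩ := roots_exist (lb (algebraMap k (Om k) (s i).p)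
    (algebraMap k (Om k) (s i).m) (algebraMap k (Om k) (s j).p) (algebraMap k (Om k) (s j).m)
    (algebraMap k (Om k) ((s i).V * (s j).V)) (tt k)) (la (algebraMap k (Om k) (s i).p)
    (algebraMap k (Om k) (s i).m) (algebraMap k (Om k) (s j).p) (algebraMap k (Om k) (s j).m)
    (tt k)) hA0
  have hX : ∀ r : Fin 2, quad (algebraMap k (Om k) (s i).p) (algebraMap k (Om k) (s i).m)
      (algebraMap k (Om k) (s j).p) (algebraMap k (Om k) (s j).m)
      (algebraMap k (Om k) ((s i).V * (s j).V)) (tt k) (![X₁, X₂] r) = 0 := by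
    intro r
    rw [quad_eq]
    fin_cases r
    · simp only [Fin.zero_eta, Matrix.cons_val_zero]
      linear_combination X₁ * h1 - h2
    · simp only [Fin.mk_one, Matrix.cons_val_one, Matrix.cons_val_fin_one]
      linear_combination X₂ * h1 - h2
  have hS := fun r => sol_of_quad c tt_ne0 (root_good c (hX r)) (hX r)
  symm
  refine family c (![X₁, X₂]) _ hS 0 t₀ _ _ ?_ ?_
  · intro v hv
    choose x hx using fun r : Fin 2 => exists_VP v (![X₁, X₂] r)
    exact ⟨0, hv, x, hx, Finset.sum_eq_zero fun r _ => Gv_zero (x r)⟩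
  · intro v hv
    refine ⟨t₀, hv, ?_⟩
    have ha : v.At (lc (algebraMap k (Om k) (s j).p) (algebraMap k (Om k) (s j).m)
      (algebraMap k (Om k) ((s i).V * (s j).V)) (tt k)) (lc (s j).p (s j).m ((s i).V * (s j).V) t₀) := by
      unfold lc
      exact (((VFP.at_num 4).mul (Place.at_const _)).mul (Place.at_const _)).sub
        (hv.mul ((Place.at_const _).sub (Place.at_const _)))
    have hb : v.At (lb (algebraMap k (Om k) (s i).p) (algebraMap k (Om k) (s i).m)
      (algebraMap k (Om k) (s j).p) (algebraMap k (Om k) (s j).m)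
      (algebraMap k (Om k) ((s i).V * (s j).V)) (tt k))
      (lb (s i).p (s i).m (s j).p (s j).m ((s i).V * (s j).V) t₀) := by
      unfold lb
      exact (hv.mul (hv.sub (((Place.at_const _).sub (Place.at_const _)).mul
        ((Place.at_const _).add (Place.at_const _))))).sub
        (((VFP.at_num 4).mul (Place.at_const _)).mul
          (hv.sub ((Place.at_const _).mul (Place.at_const _))))
    have hc : v.At (la (algebraMap k (Om k) (s i).p) (algebraMap k (Om k) (s i).m)
      (algebraMap k (Om k) (s j).p) (algebraMap k (Om k) (s j).m) (tt k))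
      (la (s i).p (s i).m (s j).p (s j).m t₀) := by
      unfold la
      exact (hv.mul (Place.at_const _)).mul (hv.sub (((Place.at_const _).sub
        (Place.at_const _)).mul (Place.at_const _)))
    have hself : Gv f ν s w i j t₀ (some (s i).T) = (f fun a => wpt (s a) (w a)) := by
      rw [ht]
      exact Gv_self c
    rcases roots_val ha hb hc h1 h2 hroot T' hT with ⟨k1, k2⟩ | ⟨k1, k2⟩
    · refine ⟨![some (s i).T, T'], ?_, ?_⟩
      · intro r
        fin_cases r
        · exact k1
        · exact k2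
      · rw [Fin.sum_univ_two]
        simp only [Matrix.cons_val_zero, Matrix.cons_val_one, Matrix.cons_val_fin_one]
        rw [hself]
    · refine ⟨![T', some (s i).T], ?_, ?_⟩
      · intro r
        fin_cases r
        · exact k1
        · exact k2
      · rw [Fin.sum_univ_two]
        simp only [Matrix.cons_val_zero, Matrix.cons_val_one, Matrix.cons_val_fin_one]
        rw [hself, add_comm]

/-- the degenerate case -/
private theorem degenerate (c : Ctx ν ζ δ B om f s w i j) {t₀ : k}
    (ht : t₀ = ((s i).T + (s i).p) * ((s j).T + (s j).p))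
    (hq : ∀ x, quad (s i).p (s i).m (s j).p (s j).m ((s i).V * (s j).V) t₀ x = 0) (x : k) :
    Gv f ν s w i j t₀ (some x) = 0 := by
  have ht0 : t₀ ≠ 0 := by
    rw [ht]
    exact mul_ne_zero (c.hs i).2.1 (c.hs j).2.1
  have hg : (⟨algebraMap k (Om k) (s i).p, algebraMap k (Om k) (s i).m, tt k⟩ :
      Side (Om k)).Good := by
    refine ⟨tt_ne0, ?_, ?_⟩
    · have := no_const (k := k) (a := 1) (b := (s i).p) one_ne_zero
      rwa [map_one, one_mul] at this
    · have := no_const (k := k) (a := 1) (b := (s i).m) one_ne_zero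
      rwa [map_one, one_mul] at this
  have hA : lc (s j).p (s j).m ((s i).V * (s j).V) t₀ = 0 := by
    have h0 := hq 0
    have h1 := hq 1
    have h2 := hq (-1)
    rw [quad_eq] at h0 h1 h2
    have h3 : (2 : k) * lc (s j).p (s j).m ((s i).V * (s j).V) t₀ = 0 := by
      linear_combination h1 + h2 - 2 * h0
    exact (mul_eq_zero.1 h3).resolve_left two_ne_zero
  have hC : la (s i).p (s i).m (s j).p (s j).m t₀ = 0 := by
    have h0 := hq 0
    rw [quad_eq] at h0
    linear_combination h0
  have hB : lb (s i).p (s i).m (s j).p (s j).m ((s i).V * (s j).V) t₀ = 0 := by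
    have h1 := hq 1
    rw [quad_eq] at h1
    linear_combination h1 - hA - hC
  have hq' : quad (algebraMap k (Om k) (s i).p) (algebraMap k (Om k) (s i).m)
      (algebraMap k (Om k) (s j).p) (algebraMap k (Om k) (s j).m)
      (algebraMap k (Om k) ((s i).V * (s j).V)) (algebraMap k (Om k) t₀) (tt k) = 0 := by
    have e1 := congrArg (algebraMap k (Om k)) hA
    have e2 := congrArg (algebraMap k (Om k)) hB
    have e3 := congrArg (algebraMap k (Om k)) hC
    unfold lc at e1
    unfold lb at e2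
    unfold la at e3
    simp only [map_sub, map_mul, map_add, map_ofNat, map_zero] at e1 e2 e3
    rw [quad_eq]
    unfold lc lb la
    simp only [map_mul]
    linear_combination tt k ^ 2 * e1 + tt k * e2 + e3
  have hS := sol_of_quad c (by rw [Ne, map_eq_zero]; exact ht0) hg hq'
  have h1 := family c (I := Unit) (fun _ => tt k) _ (fun _ => hS) x 0
    (Gv f ν s w i j t₀ (some x)) 0 ?_ ?_
  · exact h1
  · intro v hv
    exact ⟨t₀, Place.at_const _, fun _ => some x, fun _ => hv, by simp⟩
  · intro v hv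
    refine ⟨t₀, Place.at_const _, fun _ => some 0, fun _ => hv, ?_⟩
    simp only [Finset.univ_unique, Finset.sum_singleton]
    unfold Gv
    dsimp only
    rw [if_neg]
    rintro ⟨h, -⟩
    exact h.1 rfl

end comb

/-! ### The theorems -/

/-- The recut relation. Let `V = V_i V_j`, `P = w i * w j`, `t₀ = (T_i + p_i) (T_j + p_j)`. Over
`Om k` let `X`, `X'` be the two roots of `quad … V t X` (`t = tt k`), `Y = t / (X + p_i) - p_j`
etc.; both solutions are good (the values of `quad` at `-p_i`, `0`, `-m_i` are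
`t ((m_i - p_i) t + 4 V p_i)`, `t m_i (t - (p_j - m_j) p_i)`, `4 V m_i (t - p_j (p_i - m_i))`, and
symmetrically for `Y`), and the product of the two `V` is `V`. Choose `ω ^ ν = V(X)` and take the family
of the points `wpt` with `w_i = ω`, `w_j = P / ω` (for both roots).
At a place with `t = t₀` the roots have the values `T_i` and the second root of `quad … t₀`
(possibly `∞`): if the latter is good one gets `f(s, w) + f(s', w')` (`WFn.congr`), if it is equal to
the first one gets `2 f(s, w)`, if it (or `Y`) is not good one gets `f(s, w)` by `wpt_inf` and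
`WFn.inf`. At a place with `t = 0` the roots have the values `0` and `-p_i`
(`quad … 0 X = 4 V p_j X (X + p_i)`), so `w_i` has a pole or a zero and the class is `0`. -/
theorem recut (hf : WFn ν ζ δ B om f) (hζ : IsPrimitiveRoot ζ ν) (hν : 0 < ν)
    (s : Fin n → Side k) (hs : ∀ j, (s j).Good) (hB : ∀ j, (s j).p + (s j).m = -B j)
    (hδ : ∀ j, ((s j).p - (s j).m) ^ 2 = 4 * δ j) (hδ0 : ∀ j, δ j ≠ 0)
    (hpm : ∀ j, (s j).p * (s j).m ≠ 0) (w : Fin n → k)
    (hw : ∀ j, w j ^ ν = (s j).V) {i j : Fin n} (hij : i ≠ j)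
    (h0 : (f fun a => wpt (s a) (w a)) ≠ 0) :
    ∃ Ti Tj : k, Ti ≠ (s i).T ∧ (⟨(s i).p, (s i).m, Ti⟩ : Side k).Good ∧
      (⟨(s j).p, (s j).m, Tj⟩ : Side k).Good ∧
      (Ti + (s i).p) * (Tj + (s j).p) = ((s i).T + (s i).p) * ((s j).T + (s j).p) ∧
      (Ti + (s i).m) * (Tj + (s j).m) * ((s i).T * (s j).T) =
        ((s i).T + (s i).m) * ((s j).T + (s j).m) * (Ti * Tj) ∧
      ∀ w' : Fin n → k, (∀ a, w' a ^ ν = (upd s i j Ti Tj a).V) → ∏ a, w' a = ∏ a, w a →
        (f fun a => wpt (upd s i j Ti Tj a) (w' a)) = -(f fun a => wpt (s a) (w a)) := by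
  have c : Ctx ν ζ δ B om f s w i j := ⟨hf, hζ, hν, hs, hB, hδ, hδ0, hpm, hw, hij⟩
  obtain ⟨t₀, ht⟩ : ∃ t₀, t₀ = ((s i).T + (s i).p) * ((s j).T + (s j).p) := ⟨_, rfl⟩
  have ht0 : t₀ ≠ 0 := by
    rw [ht]
    exact mul_ne_zero (hs i).2.1 (hs j).2.1
  have hself : Gv f ν s w i j t₀ (some (s i).T) = (f fun a => wpt (s a) (w a)) := by
    rw [ht]
    exact Gv_self c
  have hroot : quad (s i).p (s i).m (s j).p (s j).m ((s i).V * (s j).V) t₀ (s i).T = 0 :=
    (quad_iff (c.hs i) (c.hs j) ht.symm).2 rfl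
  rw [quad_eq] at hroot
  by_cases hA : lc (s j).p (s j).m ((s i).V * (s j).V) t₀ = 0
  · exfalso
    apply h0
    by_cases hB' : lb (s i).p (s i).m (s j).p (s j).m ((s i).V * (s j).V) t₀ = 0
    · rw [← hself]
      refine degenerate c ht (fun x => ?_) _
      rw [quad_eq, hA, hB']
      rw [hA, hB'] at hroot
      linear_combination hroot
    · have := two_roots c ht none (Or.inr ⟨rfl, hA, hB'⟩)
      unfold Gv at this
      rwa [add_zero] at this
  obtain ⟨Ti, hTi⟩ : ∃ x, x = -lb (s i).p (s i).m (s j).p (s j).m ((s i).V * (s j).V) t₀ /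
    lc (s j).p (s j).m ((s i).V * (s j).V) t₀ - (s i).T := ⟨_, rfl⟩
  have hsum : lc (s j).p (s j).m ((s i).V * (s j).V) t₀ * ((s i).T + Ti) =
      -lb (s i).p (s i).m (s j).p (s j).m ((s i).V * (s j).V) t₀ := by
    rw [hTi]
    field_simp
    ring
  have hrel := two_roots c ht (some Ti) (Or.inl ⟨Ti, rfl, hA, hsum⟩)
  have hne : Gv f ν s w i j t₀ (some Ti) ≠ 0 := by
    intro h
    rw [h, add_zero] at hrel
    exact h0 hrel
  have hgood : (⟨(s i).p, (s i).m, Ti⟩ : Side k).Good ∧
      (⟨(s j).p, (s j).m, t₀ / (Ti + (s i).p) - (s j).p⟩ : Side k).Good := by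
    by_contra hcon
    apply hne
    unfold Gv
    dsimp only
    rw [if_neg hcon]
  obtain ⟨gx, gy⟩ := hgood
  have h1 : (Ti + (s i).p) * (t₀ / (Ti + (s i).p) - (s j).p + (s j).p) = t₀ := by
    have := gx.2.1
    dsimp only at this
    field_simp
    ring
  obtain ⟨Tj, hTj⟩ : ∃ y, y = t₀ / (Ti + (s i).p) - (s j).p := ⟨_, rfl⟩
  rw [← hTj] at gy h1
  have hroot' : quad (s i).p (s i).m (s j).p (s j).m ((s i).V * (s j).V) t₀ Ti = 0 := by
    rw [quad_eq]
    linear_combination hroot + (Ti - (s i).T) * hsum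
  have hV := (quad_iff gx gy h1).1 hroot'
  refine ⟨Ti, Tj, ?_, gx, gy, by rw [h1, ht], ?_, ?_⟩
  · intro h
    rw [h, hself, ← two_smul ℚ] at hrel
    exact h0 ((smul_eq_zero.1 hrel).resolve_left two_ne_zero)
  · have e1 : (4 : k) * t₀ ≠ 0 := mul_ne_zero (by norm_num) ht0
    unfold Side.V at hV
    dsimp only at hV
    rw [div_mul_div_comm, div_mul_div_comm, div_eq_div_iff (mul_ne_zero (mul_ne_zero two_ne_zero gx.1)
      (mul_ne_zero two_ne_zero gy.1)) (mul_ne_zero (mul_ne_zero two_ne_zero (hs i).1)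
      (mul_ne_zero two_ne_zero (hs j).1))] at hV
    apply mul_left_cancel₀ e1
    linear_combination hV - 4 * (Ti + (s i).m) * (Tj + (s j).m) * (s i).T * (s j).T * h1 -
      4 * ((s i).T + (s i).m) * ((s j).T + (s j).m) * Ti * Tj * ht
  · intro w' hw' hp
    rw [← Gv_eq c gx gy h1 hV w' hw' hp]
    exact eq_neg_of_add_eq_zero_right hrel

/-- The same for two given good solutions. -/
theorem recut' (hf : WFn ν ζ δ B om f) (hζ : IsPrimitiveRoot ζ ν) (hν : 0 < ν)
    (s : Fin n → Side k) (hs : ∀ j, (s j).Good) (hB : ∀ j, (s j).p + (s j).m = -B j)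
    (hδ : ∀ j, ((s j).p - (s j).m) ^ 2 = 4 * δ j) (hδ0 : ∀ j, δ j ≠ 0)
    (hpm : ∀ j, (s j).p * (s j).m ≠ 0) (w : Fin n → k)
    (hw : ∀ j, w j ^ ν = (s j).V) {i j : Fin n} (hij : i ≠ j) (Ti Tj : k)
    (hne : Ti ≠ (s i).T) (hi : (⟨(s i).p, (s i).m, Ti⟩ : Side k).Good)
    (hj : (⟨(s j).p, (s j).m, Tj⟩ : Side k).Good)
    (h1 : (Ti + (s i).p) * (Tj + (s j).p) = ((s i).T + (s i).p) * ((s j).T + (s j).p))
    (h2 : (Ti + (s i).m) * (Tj + (s j).m) * ((s i).T * (s j).T) =
        ((s i).T + (s i).m) * ((s j).T + (s j).m) * (Ti * Tj))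
    (w' : Fin n → k) (hw' : ∀ a, w' a ^ ν = (upd s i j Ti Tj a).V)
    (hp : ∏ a, w' a = ∏ a, w a) :
    (f fun a => wpt (upd s i j Ti Tj a) (w' a)) = -(f fun a => wpt (s a) (w a)) := by
  have c : Ctx ν ζ δ B om f s w i j := ⟨hf, hζ, hν, hs, hB, hδ, hδ0, hpm, hw, hij⟩
  obtain ⟨t₀, ht⟩ : ∃ t₀, t₀ = ((s i).T + (s i).p) * ((s j).T + (s j).p) := ⟨_, rfl⟩
  rw [← ht] at h1
  have hself : Gv f ν s w i j t₀ (some (s i).T) = (f fun a => wpt (s a) (w a)) := by
    rw [ht]
    exact Gv_self c
  have hV : (⟨(s i).p, (s i).m, Ti⟩ : Side k).V * (⟨(s j).p, (s j).m, Tj⟩ : Side k).V =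
      (s i).V * (s j).V := by
    unfold Side.V
    dsimp only
    rw [div_mul_div_comm, div_mul_div_comm, div_eq_div_iff (mul_ne_zero (mul_ne_zero two_ne_zero hi.1)
      (mul_ne_zero two_ne_zero hj.1)) (mul_ne_zero (mul_ne_zero two_ne_zero (hs i).1)
      (mul_ne_zero two_ne_zero (hs j).1))]
    have h3 := h1.trans ht
    linear_combination 4 * (Ti + (s i).m) * (Tj + (s j).m) * (s i).T * (s j).T * h3 +
      4 * ((s i).T + (s i).p) * ((s j).T + (s j).p) * h2
  have hroot : quad (s i).p (s i).m (s j).p (s j).m ((s i).V * (s j).V) t₀ (s i).T = 0 :=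
    (quad_iff (c.hs i) (c.hs j) ht.symm).2 rfl
  have hroot' : quad (s i).p (s i).m (s j).p (s j).m ((s i).V * (s j).V) t₀ Ti = 0 :=
    (quad_iff hi hj h1).2 hV
  rw [← Gv_eq c hi hj h1 hV w' hw' hp]
  rw [quad_eq] at hroot hroot'
  have hd : (Ti - (s i).T) * (lc (s j).p (s j).m ((s i).V * (s j).V) t₀ * ((s i).T + Ti) +
      lb (s i).p (s i).m (s j).p (s j).m ((s i).V * (s j).V) t₀) = 0 := by
    linear_combination hroot' - hroot
  have hsum := (mul_eq_zero.1 hd).resolve_left (sub_ne_zero.2 hne)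
  by_cases hA : lc (s j).p (s j).m ((s i).V * (s j).V) t₀ = 0
  · have hB' : lb (s i).p (s i).m (s j).p (s j).m ((s i).V * (s j).V) t₀ = 0 := by
      rw [hA] at hsum
      linear_combination hsum
    have hq : ∀ x, quad (s i).p (s i).m (s j).p (s j).m ((s i).V * (s j).V) t₀ x = 0 := by
      intro x
      rw [quad_eq, hA, hB']
      rw [hA, hB'] at hroot
      linear_combination hroot
    rw [← hself, degenerate c ht hq, degenerate c ht hq, neg_zero]
  · have hrel := two_roots c ht (some Ti) (Or.inl ⟨Ti, rfl, hA, by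
      linear_combination hsum⟩)
    exact eq_neg_of_add_eq_zero_right hrel

end Pool.Agent.DK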