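import Pool.Agent.DK.Closing

/-!
# The class `Psi`
-/

set_option autoImplicit false

noncomputable section

namespace Pool.Agent.DK

open Pool.Agent.ZCyc Pool.Agent.TInf Polynomial
open Pool.Agent.VFP (Om tt)

universe u

section alg

variable {K : Type*} [Field K] {n ν : ℕ}

/-- the configuration for the permuted points -/
private def pmc (π : Equiv.Perm (Fin n)) (c : Cfg K n) : Cfg K n :=
  ⟨π⁻¹ * c.ord, c.β ∘ π, c.T ∘ π⟩

private theorem pmc_side (π : Equiv.Perm (Fin n)) (c : Cfg K n) (B : Fin n → K) (j : Fin n) :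
    (pmc π c).side (B ∘ π) j = c.side B (π j) := rfl

private theorem pmc_M (π : Equiv.Perm (Fin n)) (c : Cfg K n) (B : Fin n → K) :
    (pmc π c).M (B ∘ π) = c.M B := by
  unfold Cfg.M
  congr 1
  refine List.map_congr_left fun a _ => ?_
  rw [pmc_side]
  have : π ((pmc π c).ord a) = c.ord a := by
    simp [pmc, Equiv.Perm.mul_apply]
  rw [this]

private theorem pmc_rz (π : Equiv.Perm (Fin n)) {δ B : Fin n → K} {M : Mq K} {P : K}
    {c : Cfg K n} {w : Fin n → K} (h : Rz ν δ B M P c w) :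
    Rz ν (δ ∘ π) (B ∘ π) M P (pmc π c) (w ∘ π) where
  good := ⟨fun j => h.good.1 (π j), fun j => h.good.2 (π j)⟩
  st := by
    rw [pmc_M]
    exact h.st
  w6 := fun j => h.w6 (π j)
  prod := by
    rw [← h.prod]
    exact Equiv.prod_comp π w
  adm := by
    refine ⟨fun j => h.adm.1 (π j), h.adm.2.imp (fun h1 i j hij => ?_) fun h1 i j => ?_⟩
    · exact h1 (π i) (π j) fun e => hij (π.injective e)
    · exact h1 (π i) (π j)

theorem Nd.perm (π : Equiv.Perm (Fin n)) {δ B : Fin n → K} (h : Nd δ B) :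
    Nd (δ ∘ π) (B ∘ π) where
  hδ := fun j => h.hδ (π j)
  hB := fun j => h.hB (π j)
  disc := fun j => h.disc (π j)
  dist := h.dist.imp (fun h1 i j hij => h1 (π i) (π j) fun e => hij (π.injective e))
    fun h1 i j => h1 (π i) (π j)

end alg

variable {k : Type u} [Field k] {n ν : ℕ} {ζ : k} {D : Bas k} {W : Type*} [AddCommGroup W]
  [Module ℚ W]

/-- the class function for fixed `s` -/
theorem SysW.fn (Y : SysW ν ζ D n W) (s : Fin n → D.P) :
    WFn ν ζ (D.ed s) (D.eb s) Y.om (Y.F s) where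
  rot p j w σ h := Y.rot s p j w σ h
  inf p j h := Y.inf s p j h
  bridge := by
    intro I _ c P hP c₀ c₁ C₀ C₁ h₀ h₁
    have hon : ∀ x, D.OnQ ν (fun j => D.cst (s j)) (P x) := by
      intro x j
      have e1 : D.ED (fun j => D.cst (s j)) j = algebraMap k (Om k) (D.ed s j) := D.cst_de _
      have e2 : D.EB (fun j => D.cst (s j)) j = algebraMap k (Om k) (D.eb s j) := D.cst_be _
      rw [e1, e2]
      exact hP x j
    have key : ∀ (C : W) (v : Place k (Om k)), (∃ p : I → Fin n → WPt k,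
        (∀ i j, WVal v (P i j) (p i j)) ∧ ∑ i, c i • Y.F s (p i) = C) →
        ∃ E : I → W, (∀ x, Y.Val v (fun j => D.cst (s j)) (P x) (E x)) ∧
          ∑ x, c x • E x = C := by
      rintro C v ⟨p, hp, hC⟩
      exact ⟨fun x => Y.F s (p x), fun x => Y.fin v _ _ (hon x) s _
        (fun j => D.cst_at v (s j)) (hp x), hC⟩
    exact Y.bridge c (fun _ j => D.cst (s j)) P hon c₀ c₁ C₀ C₁
      (fun v hv => key C₀ v (h₀ v hv)) (fun v hv => key C₁ v (h₁ v hv))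

private theorem sgz_mul (a b : Equiv.Perm (Fin n)) : sgz (a * b) = sgz a * sgz b := by
  simp [sgz, Equiv.Perm.sign_mul]

private theorem sgz_inv_mul (a : Equiv.Perm (Fin n)) : sgz a⁻¹ * sgz a = 1 := by
  rw [← sgz_mul, inv_mul_cancel]
  simp [sgz]

private theorem Psi_none (Y : SysW ν ζ D n W) {s : Fin n → D.P} {M : Mq k} {P : k}
    (h : ¬ ∃ cw : Cfg k n × (Fin n → k), Rz ν (D.ed s) (D.eb s) M P cw.1 cw.2) :
    Psi Y s M P = 0 := by
  unfold Psi
  rw [dif_neg h]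

/-- multiply `w j` by a root of unity -/
private theorem shift_mul {s : Fin n → D.P} {M : Mq k} {P : k} {c : Cfg k n} {w : Fin n → k}
    (h : Rz ν (D.ed s) (D.eb s) M P c w) {e : k} (he : e ^ ν = 1) (j : Fin n) :
    Rz ν (D.ed s) (D.eb s) M (e * P) c (Function.update w j (e * w j)) := by
  refine ⟨⟨h.good, h.st, ?_, ?_⟩, h.adm⟩
  · intro j'
    by_cases hj : j' = j
    · subst hj
      rw [Function.update_self, mul_pow, he, one_mul]
      exact h.w6 j'
    · rw [Function.update_of_ne hj]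
      exact h.w6 j'
  · rw [← h.prod, Finset.prod_update_of_mem (Finset.mem_univ j), mul_assoc]
    congr 1
    rw [← Finset.mul_prod_erase _ _ (Finset.mem_univ j), Finset.sdiff_singleton_eq_erase]

variable [IsAlgClosed k] [CharZero k]

/-- One can use every realisation of the state and of the product in the definition of `Psi`. -/
theorem Psi_eq (Y : SysW ν ζ D n W) (hζ : IsPrimitiveRoot ζ ν) (hν : 0 < ν) {s : Fin n → D.P}
    (hs : Nd (D.ed s) (D.eb s)) {M : Mq k} {P : k} {c : Cfg k n} {w : Fin n → k}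
    (h : Rz ν (D.ed s) (D.eb s) M P c w) :
    Psi Y s M P = sgz c.ord • Y.F s (cpt (D.eb s) c w) := by
  have hex : ∃ cw : Cfg k n × (Fin n → k), Rz ν (D.ed s) (D.eb s) M P cw.1 cw.2 :=
    ⟨(c, w), h⟩
  unfold Psi
  rw [dif_pos hex]
  have h' := hex.choose_spec
  exact val_inv (Y.fn s) hζ hν hs h.good h'.good h.adm h'.adm (h'.st.trans h.st.symm) h.w6
    h'.w6 (h'.prod.trans h.prod.symm)

theorem Psi_full (Y : SysW ν ζ D n W) (hζ : IsPrimitiveRoot ζ ν) (hν : 0 < ν)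
    {s : Fin n → D.P} (hs : Nd (D.ed s) (D.eb s)) {M : Mq k} {P : k} (h : Psi Y s M P ≠ 0) :
    Full (D.ed s) (D.eb s) M := by
  unfold Psi at h
  split_ifs at h with h1
  · have h2 := h1.choose_spec
    have h3 : Y.F s (cpt (D.eb s) h1.choose.1 h1.choose.2) ≠ 0 := by
      intro h0
      apply h
      rw [h0, smul_zero]
    rw [← h2.st]
    exact full_of_ne (Y.fn s) hζ hν hs h2.good h2.w6 h3
  · exact absurd rfl h

/-- Permutation of the points `s j`. -/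
theorem Psi_perm (Y : SysW ν ζ D n W) (hζ : IsPrimitiveRoot ζ ν) (hν : 0 < ν)
    {s : Fin n → D.P} (hs : Nd (D.ed s) (D.eb s)) (π : Equiv.Perm (Fin n)) (M : Mq k)
    (P : k) : Psi Y (s ∘ π) M P = Psi Y s M P := by
  classical
  have hs' : Nd (D.ed (s ∘ π)) (D.eb (s ∘ π)) := Nd.perm π hs
  by_cases h : ∃ cw : Cfg k n × (Fin n → k), Rz ν (D.ed s) (D.eb s) M P cw.1 cw.2
  · obtain ⟨⟨c, w⟩, hcw⟩ := h
    have h2 : Rz ν (D.ed (s ∘ π)) (D.eb (s ∘ π)) M P (pmc π c) (w ∘ π) := pmc_rz π hcw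
    rw [Psi_eq Y hζ hν hs hcw, Psi_eq Y hζ hν hs' h2]
    have h3 : Y.F (s ∘ π) (cpt (D.eb (s ∘ π)) (pmc π c) (w ∘ π)) =
        sgz π • Y.F s (cpt (D.eb s) c w) := Y.perm s (cpt (D.eb s) c w) π
    rw [h3, smul_smul]
    congr 1
    have h4 : sgz (pmc π c).ord = sgz π⁻¹ * sgz c.ord := sgz_mul _ _
    rw [h4]
    calc sgz π⁻¹ * sgz c.ord * sgz π = (sgz π⁻¹ * sgz π) * sgz c.ord := by ring
      _ = _ := by rw [sgz_inv_mul, one_mul]
  · have h' : ¬ ∃ cw : Cfg k n × (Fin n → k),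
        Rz ν (D.ed (s ∘ π)) (D.eb (s ∘ π)) M P cw.1 cw.2 := by
      rintro ⟨⟨c, w⟩, hcw⟩
      apply h
      refine ⟨(pmc π⁻¹ c, w ∘ (π⁻¹ : Equiv.Perm (Fin n))), ?_⟩
      have h5 := pmc_rz π⁻¹ hcw
      have e1 : D.ed (s ∘ π) ∘ (π⁻¹ : Equiv.Perm (Fin n)) = D.ed s := by
        funext j
        simp [Bas.ed, Function.comp]
      have e2 : D.eb (s ∘ π) ∘ (π⁻¹ : Equiv.Perm (Fin n)) = D.eb s := by
        funext j
        simp [Bas.eb, Function.comp]
      rw [e1, e2] at h5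
      exact h5
    rw [Psi_none Y h', Psi_none Y h]

/-- multiplication of the product by a power of `ζ` -/
theorem Psi_shift (Y : SysW ν ζ D n W) (hζ : IsPrimitiveRoot ζ ν) (hν : 0 < ν) (hn : 0 < n)
    {s : Fin n → D.P} (hs : Nd (D.ed s) (D.eb s)) (M : Mq k) (P : k) (c : ℕ) :
    Psi Y s M (ζ ^ c * P) = (Y.om ^ c) (Psi Y s M P) := by
  classical
  set j : Fin n := ⟨0, hn⟩
  have hp : ∀ c : ℕ, (ζ ^ c) ^ ν = 1 := fun c => by
    rw [← pow_mul, mul_comm, pow_mul, hζ.pow_eq_one, one_pow]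
  by_cases h : ∃ cw : Cfg k n × (Fin n → k), Rz ν (D.ed s) (D.eb s) M P cw.1 cw.2
  · obtain ⟨⟨c', w⟩, h⟩ := h
    have h1 := shift_mul h (hp c) j
    rw [Psi_eq Y hζ hν hs h1, Psi_eq Y hζ hν hs h, map_zsmul]
    congr 1
    have h2 : cpt (D.eb s) c' (Function.update w j (ζ ^ c * w j)) =
        Function.update (cpt (D.eb s) c' w) j
          (some (ζ ^ c * w j, (c'.side (D.eb s) j).Sg)) := by
      funext j'
      by_cases hj : j' = j
      · subst hj
        rw [Function.update_self]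
        show (some (Function.update w j (ζ ^ c * w j) j, _) : WPt k) = _
        rw [Function.update_self]
      · rw [Function.update_of_ne hj]
        show (some (Function.update w j (ζ ^ c * w j) j', _) : WPt k) = _
        rw [Function.update_of_ne hj]
        rfl
    rw [h2]
    exact (Y.fn s).rot_pow (cpt (D.eb s) c' w) j (w j) _ rfl c
  · rw [Psi_none Y h, map_zero]
    refine Psi_none Y ?_
    rintro ⟨⟨c', w⟩, h'⟩
    apply h
    obtain ⟨d, hd⟩ : ∃ d : ℕ, ζ ^ d * ζ ^ c = 1 := by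
      refine ⟨c * (ν - 1), ?_⟩
      rw [← pow_add]
      have : c * (ν - 1) + c = ν * c := by
        obtain ⟨m, rfl⟩ : ∃ m, ν = m + 1 := ⟨ν - 1, by omega⟩
        simp only [Nat.add_sub_cancel]
        ring
      rw [this, pow_mul, hζ.pow_eq_one, one_pow]
    have h1 := shift_mul h' (hp d) j
    rw [← mul_assoc, hd, one_mul] at h1
    exact ⟨(c', Function.update w j (ζ ^ d * w j)), h1⟩

omit [IsAlgClosed k] [CharZero k] in
private theorem pfl_b (M : Mq k) (ρ : k) : (M.rot ρ).b.eval 1 = ρ * M.b.eval 1 := by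
  simp [Mq.rot]

omit [IsAlgClosed k] [CharZero k] in
private theorem pfl_c (M : Mq k) (ρ : k) : (M.rot ρ).c.eval 1 = ρ⁻¹ * M.c.eval 1 := by
  simp [Mq.rot]

omit [IsAlgClosed k] [CharZero k] in
private theorem pfl_rot (M : Mq k) {ρ : k} (hρ : ρ ≠ 0) : (M.rot ρ).rot ρ⁻¹ = M := by
  refine Mq.ext rfl ?_ ?_ rfl
  · change C ρ⁻¹ * (C ρ * M.b) = M.b
    rw [← mul_assoc, ← C_mul, inv_mul_cancel₀ hρ, C_1, one_mul]
  · change C ρ⁻¹⁻¹ * (C ρ⁻¹ * M.c) = M.c
    rw [← mul_assoc, ← C_mul, inv_inv, mul_inv_cancel₀ hρ, C_1, one_mul]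

/-- the case where the class is not zero -/
private theorem pfl_flip (Y : SysW ν ζ D n W) (hζ : IsPrimitiveRoot ζ ν) (hν : 0 < ν)
    (hn : 0 < n) {s : Fin n → D.P} (hs : Nd (D.ed s) (D.eb s)) (M : Mq k)
    (P : k) (hne : Psi Y s M P ≠ 0) :
    Psi Y s (M.rot (-(M.c.eval 1) / M.b.eval 1)) P = -Psi Y s M P := by
  classical
  have hex : ∃ cw : Cfg k n × (Fin n → k), Rz ν (D.ed s) (D.eb s) M P cw.1 cw.2 := by
    by_contra hcon
    exact hne (Psi_none Y hcon)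
  obtain ⟨⟨c, w⟩, h⟩ := hex
  dsimp only at h
  have h1 := Psi_eq Y hζ hν hs h
  have h2 : Y.F s (cpt (D.eb s) c w) ≠ 0 := by
    intro h0
    apply hne
    rw [h1, h0, smul_zero]
  obtain ⟨hb, hc, -, hg, hM, hall⟩ :=
    closing_side (Y.fn s) hζ hν hs hn h.good h.w6 h2
  obtain ⟨ρ, hρ⟩ : ∃ ρ, ρ = -((c.M (D.eb s)).c.eval 1 / (c.M (D.eb s)).b.eval 1) := ⟨_, rfl⟩
  rw [← hρ] at hg hM hall
  rw [h.st] at hb hc hρ hM
  have hρ' : -(M.c.eval 1) / M.b.eval 1 = ρ := by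
    rw [hρ, neg_div]
  rw [hρ']
  have hρ0 : ρ ≠ 0 := by
    rw [hρ]
    exact neg_ne_zero.2 (div_ne_zero hc hb)
  have hbρ : ρ * M.b.eval 1 = -M.c.eval 1 := by
    rw [hρ, neg_mul, div_mul_cancel₀ _ hb]
  have hcρ : ρ⁻¹ * M.c.eval 1 = -M.b.eval 1 := by
    rw [inv_mul_eq_iff_eq_mul₀ hρ0]
    linear_combination hbρ
  have hP : P ^ ν = ∏ j, ((c.rotc (D.eb s) ρ).side (D.eb s) j).V := by
    have e1 := DK.prod_V h.good
    have e2 := DK.prod_V hg
    unfold Mq.V0 at e1 e2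
    rw [e2, hM, pfl_b, pfl_c, hbρ, hcρ, ← h.prod, ← Finset.prod_pow,
      Finset.prod_congr rfl fun j _ => h.w6 j, e1, h.st]
    change M.a.eval 1 + _ = M.a.eval 1 + _
    ring
  obtain ⟨w', hw', hwP⟩ := exists_roots hν hn (fun j => V_ne (hg.2 j)) hP
  have h3 := hall w' hw' (hwP.trans h.prod.symm)
  have h4 : Rz ν (D.ed s) (D.eb s) (M.rot ρ) P (c.rotc (D.eb s) ρ) w' :=
    ⟨⟨hg, hM, hw', hwP⟩, h.adm⟩
  rw [Psi_eq Y hζ hν hs h4, h1, h3, smul_neg]
  rfl

omit [IsAlgClosed k] [CharZero k] in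
/-- there are no configurations with `b(1) ≠ 0` for `n = 0` -/
private theorem pfl_zero (Y : SysW ν ζ D n W) (hn : ¬ 0 < n) (s : Fin n → D.P)
    (M : Mq k) (P : k) (hb : M.b.eval 1 ≠ 0) : Psi Y s M P = 0 := by
  refine Psi_none Y ?_
  rintro ⟨cw, h⟩
  apply hb
  have h0 : n = 0 := by omega
  subst h0
  rw [← h.st]
  simp [Cfg.M, Mq.one]

/-- The relation for the closing side. -/
theorem Psi_flip (Y : SysW ν ζ D n W) (hζ : IsPrimitiveRoot ζ ν) (hν : 0 < ν)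
    {s : Fin n → D.P} (hs : Nd (D.ed s) (D.eb s)) (M : Mq k) (P : k)
    (hb : M.b.eval 1 ≠ 0) (hc : M.c.eval 1 ≠ 0) :
    Psi Y s (M.rot (-(M.c.eval 1) / M.b.eval 1)) P = -Psi Y s M P := by
  classical
  obtain ⟨ρ, hρ⟩ : ∃ ρ, ρ = -(M.c.eval 1) / M.b.eval 1 := ⟨_, rfl⟩
  have hρ0 : ρ ≠ 0 := by
    rw [hρ]
    exact div_ne_zero (neg_ne_zero.2 hc) hb
  have hbρ : ρ * M.b.eval 1 = -M.c.eval 1 := by
    rw [hρ, div_mul_cancel₀ _ hb]
  have hcρ : ρ⁻¹ * M.c.eval 1 = -M.b.eval 1 := by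
    rw [inv_mul_eq_iff_eq_mul₀ hρ0]
    linear_combination hbρ
  by_cases hn : 0 < n
  · by_cases hne : Psi Y s M P = 0
    · rw [hne, neg_zero]
      by_contra hne'
      rw [← hρ] at hne'
      have h1 := pfl_flip Y hζ hν hn hs (M.rot ρ) P hne'
      rw [pfl_b, pfl_c, hbρ, hcρ] at h1
      have h2 : - -M.b.eval 1 / -M.c.eval 1 = ρ⁻¹ := by
        rw [hρ, inv_div, neg_neg, div_neg, neg_div']
      rw [h2, pfl_rot _ hρ0, hne] at h1
      exact hne' (neg_eq_zero.1 h1.symm)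
    · exact pfl_flip Y hζ hν hn hs M P hne
  · rw [pfl_zero Y hn s M P hb, pfl_zero Y hn s _ P, neg_zero]
    rw [← hρ, pfl_b, hbρ]
    exact neg_ne_zero.2 hc

/-- If the closing side of the configuration is degenerate, or has `Sg₀ = 0`, then
the class is zero. -/
theorem F_closing (Y : SysW ν ζ D n W) (hζ : IsPrimitiveRoot ζ ν) (hν : 0 < ν) (hn : 0 < n)
    {s : Fin n → D.P} (hs : Nd (D.ed s) (D.eb s)) {c : Cfg k n} {w : Fin n → k}
    (hc : Good (D.ed s) (D.eb s) c) (hw : ∀ j, w j ^ ν = (c.side (D.eb s) j).V)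
    (h : (c.M (D.eb s)).b.eval 1 = 0 ∨ (c.M (D.eb s)).c.eval 1 = 0 ∨
      (c.M (D.eb s)).b.eval 1 + (c.M (D.eb s)).c.eval 1 = 0) :
    Y.F s (cpt (D.eb s) c w) = 0 := by
  by_contra hne
  obtain ⟨h1, h2, h3, -⟩ := closing_side (Y.fn s) hζ hν hs hn hc hw hne
  rcases h with h | h | h
  · exact h1 h
  · exact h2 h
  · exact h3 (by linear_combination h)

end Pool.Agent.DK
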