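import Pool.Agent.DK.WValue

/-!
# The roots `w`: the class depends only on their product
-/

set_option autoImplicit false

noncomputable section

namespace Pool.Agent.DK

open Pool.Agent.ZCyc Pool.Agent.TInf Polynomial
open Pool.Agent.VFP (Om tt)

universe u

/-- roots with a given product -/
theorem exists_roots {K : Type*} [Field K] [IsAlgClosed K] {n ν : ℕ} (hν : 0 < ν) (hn : 0 < n)
    {V : Fin n → K} (hV : ∀ j, V j ≠ 0) {P : K} (hP : P ^ ν = ∏ j, V j) :
    ∃ w : Fin n → K, (∀ j, w j ^ ν = V j) ∧ ∏ j, w j = P := by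
  obtain ⟨i⟩ : Nonempty (Fin n) := ⟨⟨0, hn⟩⟩
  have h1 : ∀ j, ∃ w, w ^ ν = V j := fun j => IsAlgClosed.exists_pow_nat_eq (V j) hν
  choose w hw using h1
  have hw0 : ∀ j, w j ≠ 0 := by
    intro j h
    apply hV j
    rw [← hw j, h, zero_pow hν.ne']
  have hp0 : ∏ j, w j ≠ 0 := Finset.prod_ne_zero_iff.2 fun j _ => hw0 j
  have hp6 : (∏ j, w j) ^ ν = P ^ ν := by
    rw [← Finset.prod_pow, hP]
    exact Finset.prod_congr rfl fun j _ => hw j
  refine ⟨Function.update w i (P / (∏ j, w j) * w i), ?_, ?_⟩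
  · intro j
    rcases eq_or_ne j i with rfl | hj
    · rw [Function.update_self, mul_pow, div_pow, hp6, div_self, one_mul, hw]
      rw [← hp6]
      exact pow_ne_zero ν hp0
    · rw [Function.update_of_ne hj, hw]
  · rw [Finset.prod_update_of_mem (Finset.mem_univ i)]
    have h2 : w i * ∏ j ∈ Finset.univ \ {i}, w j = ∏ j, w j := by
      rw [← Finset.prod_update_of_mem (Finset.mem_univ i), Function.update_eq_self]
    rw [mul_assoc, h2, div_mul_cancel₀ _ hp0]

section cls

variable {k : Type u} [Field k] {n ν : ℕ} {W : Type*} [AddCommGroup W] [Module ℚ W] {ζ : k}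
  {δ B : Fin n → k} {om : Module.End ℚ W} {f : (Fin n → WPt k) → W}

/-- multiplication of `w` by a power of `ζ` -/
theorem WFn.rot_pow (hf : WFn ν ζ δ B om f) (p : Fin n → WPt k) (j : Fin n) (w σ : k)
    (h : p j = some (w, σ)) (c : ℕ) :
    f (Function.update p j (some (ζ ^ c * w, σ))) = (om ^ c) (f p) := by
  induction c with
  | zero =>
    rw [pow_zero, one_mul, ← h, Function.update_eq_self, pow_zero]
    rfl
  | succ c ih =>
    have h1 := hf.rot (Function.update p j (some (ζ ^ c * w, σ))) j (ζ ^ c * w) σ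
      (Function.update_self _ _ _)
    rw [Function.update_idem, ih, ← mul_assoc, ← pow_succ'] at h1
    rw [h1, pow_succ']
    rfl

/-- The class depends only on the product of the `w j`. -/
theorem WFn.congr (hf : WFn ν ζ δ B om f) (hζ : IsPrimitiveRoot ζ ν) (hν : 0 < ν)
    {w w' : Fin n → k} (σ : Fin n → k) (hw0 : ∀ j, w j ≠ 0) (h6 : ∀ j, w' j ^ ν = w j ^ ν)
    (hp : ∏ j, w' j = ∏ j, w j) :
    f (fun j => some (w' j, σ j)) = f (fun j => some (w j, σ j)) := by
  have key : ∀ j, ∃ c : ℕ, w' j = ζ ^ c * w j := by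
    intro j
    have h2 : (w' j / w j) ^ ν = 1 := by
      rw [div_pow, h6, div_self (pow_ne_zero ν (hw0 j))]
    haveI : NeZero ν := ⟨hν.ne'⟩
    obtain ⟨i, -, hi⟩ := hζ.eq_pow_of_pow_eq_one h2
    exact ⟨i, by rw [hi, div_mul_cancel₀ _ (hw0 j)]⟩
  choose c hw' using key
  have hT : ∀ T : Finset (Fin n), f (fun j => some (if j ∈ T then w' j else w j, σ j)) =
      (om ^ (∑ j ∈ T, c j)) (f fun j => some (w j, σ j)) := by
    intro T
    induction T using Finset.induction_on with
    | empty => simp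
    | insert i T hi ih =>
      have h1 : (fun j => some (if j ∈ insert i T then w' j else w j, σ j)) =
          Function.update (fun j => (some (if j ∈ T then w' j else w j, σ j) : WPt k)) i
            (some (ζ ^ c i * w i, σ i)) := by
        funext j
        rcases eq_or_ne j i with rfl | hji
        · rw [Function.update_self, if_pos (Finset.mem_insert_self j T), hw' j]
        · rw [Function.update_of_ne hji]
          simp only [Finset.mem_insert, hji, false_or]
      rw [h1, hf.rot_pow _ i (w i) (σ i) (by rw [if_neg hi]), ih, Finset.sum_insert hi, pow_add]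
      rfl
  have h1 := hT Finset.univ
  simp only [Finset.mem_univ, if_true] at h1
  rw [h1]
  rcases Nat.eq_zero_or_pos n with hn | hn
  · subst hn
    simp
  obtain ⟨i⟩ : Nonempty (Fin n) := ⟨⟨0, hn⟩⟩
  have h2 : ζ ^ (∑ j, c j) = 1 := by
    have h4 : ∏ j, w' j = ζ ^ (∑ j, c j) * ∏ j, w j := by
      rw [← Finset.prod_pow_eq_pow_sum, ← Finset.prod_mul_distrib]
      exact Finset.prod_congr rfl fun j _ => hw' j
    have h5 : ∏ j, w j ≠ 0 := Finset.prod_ne_zero_iff.2 fun j _ => hw0 j
    rw [hp] at h4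
    exact (mul_right_cancel₀ h5 (by rw [one_mul]; exact h4)).symm
  rw [← hf.rot_pow _ i (w i) (σ i) rfl, h2, one_mul, Function.update_eq_self]

end cls

variable {k : Type u} [Field k] [IsAlgClosed k] [CharZero k] {n ν : ℕ} {v : Place k (Om k)}

omit [IsAlgClosed k] [CharZero k] in
/-- a root of `V` -/
theorem bad_w {V w : Om k} (hw : w ^ ν = V) (h : V ∉ v.ring ∨ v.At V 0) :
    w ∉ v.ring ∨ v.At w 0 := by
  subst hw
  rcases h with h | h
  · exact Or.inl fun h1 => h (pow_mem h1 ν)
  · exact Or.inr (Place.at_zero_iff.2 (v.vanishes_of_pow (Place.at_zero_iff.1 h)))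

/-- the value of a root -/
theorem w_at (hν : 0 < ν) {V w : Om k} {V' : k} (hw : w ^ ν = V) (hV : v.At V V') :
    ∃ w' : k, v.At w w' ∧ w' ^ ν = V' := by
  have h1 : w ∈ v.ring := by
    have h2 := hV.mem
    rw [← hw, ← v.ring.valuation_le_one_iff, map_pow] at h2
    rw [← v.ring.valuation_le_one_iff]
    exact (pow_le_one_iff hν.ne').1 h2
  obtain ⟨w', hw'⟩ := Pool.Agent.DCI57.exists_at v h1
  refine ⟨w', hw', ?_⟩
  have h3 := hw'.pow ν
  rw [hw] at h3
  exact h3.unique hV

omit [IsAlgClosed k] [CharZero k] in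
/-- if all `w j` are units then the product is a unit -/
theorem exists_bad_of_prod {w : Fin n → Om k}
    (h : (∏ j, w j) ∉ v.ring ∨ v.At (∏ j, w j) 0) : ∃ j, w j ∉ v.ring ∨ v.At (w j) 0 := by
  rcases h with h | h
  · by_contra hcon
    push Not at hcon
    exact h (prod_mem fun j _ => (hcon j).1)
  · obtain ⟨j, -, hj⟩ := v.vanishes_prod (Place.at_zero_iff.1 h)
    exact ⟨j, Or.inr (Place.at_zero_iff.2 hj)⟩

end Pool.Agent.DK
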