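import Pool.Agent.DK.Inv

/-!
# Families of configurations with moving frame
-/

set_option autoImplicit false

noncomputable section

namespace Pool.Agent.DK

open Pool.Agent.ZCyc Pool.Agent.TInf Polynomial
open Pool.Agent.VFP (Om tt)

universe u

variable {k : Type u} [Field k] [IsAlgClosed k] [CharZero k] {n ν : ℕ} {W : Type*}
  [AddCommGroup W] [Module ℚ W] {ζ : k} {δ B : Fin n → k} {om : Module.End ℚ W}
  {f : (Fin n → WPt k) → W}

/-- the value at the place `v` of the configuration after the change of the frame by `ρ`, where the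
product of the `w j` is `P` -/
inductive Contr (ν : ℕ) (f : (Fin n → WPt k) → W) (δ B : Fin n → k) (c : Cfg k n)
    (v : Place k (Om k)) (ρ P : Om k) : W → Prop
  | bad : (BadAt v δ B c ρ ∨ v.At P 0) → Contr ν f δ B c v ρ P 0
  | good (ρ' : k) (w : Fin n → k) : v.At ρ ρ' → ρ' ≠ 0 → Good δ B (c.rotc B ρ') →
      (∀ j, w j ^ ν = ((c.rotc B ρ').side B j).V) → v.At P (∏ j, w j) →
      Contr ν f δ B c v ρ P (f (cpt B (c.rotc B ρ') w))

omit [IsAlgClosed k] in
/-- the points of a good configuration are on the curves -/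
theorem cpt_on {K : Type*} [Field K] [CharZero K] {δ B : Fin n → K} {c : Cfg K n} {w : Fin n → K}
    (hν : 0 < ν) (hc : Good δ B c) (hw : ∀ j, w j ^ ν = (c.side B j).V) (j : Fin n) :
    WOn ν (δ j) (B j) (cpt B c w j) := by
  refine wpt_on hν (hc.2 j) ?_ ?_ (hw j)
  · simp only [Cfg.side]
    ring
  · have e1 : (c.side B j).p - (c.side B j).m = 2 * c.β j := by
      simp only [Cfg.side]
      ring
    rw [e1, mul_pow, hc.1 j]
    ring

/-- the points over `k` belonging to a value -/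
private theorem contr_points (hf : WFn ν ζ δ B om f) (hζ : IsPrimitiveRoot ζ ν) (hν : 0 < ν)
    (h : Nd δ B) (hn : 0 < n) {c : Cfg k n} (hc : Good δ B c)
    {v : Place k (Om k)} {ρ P : Om k} (hρ : ∀ x : k, ρ ≠ algebraMap k (Om k) x)
    {w : Fin n → Om k}
    (hw : ∀ j, w j ^ ν = ((c.up.rotc (TInf.up B) ρ).side (TInf.up B) j).V)
    (hwP : ∏ j, w j = P) (hg : Good (TInf.up δ) (TInf.up B) (c.up.rotc (TInf.up B) ρ))
    {x : W} (hx : Contr ν f δ B c v ρ P x) :
    ∃ p : Fin n → WPt k,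
      (∀ j, WVal v (cpt (TInf.up B) (c.up.rotc (TInf.up B) ρ) w j) (p j)) ∧ f p = x := by
  -- all points exist
  have hex : ∀ j : Fin n, ∃ q : WPt k,
      WVal v (cpt (TInf.up B) (c.up.rotc (TInf.up B) ρ) w j) q := fun j =>
    wval_exists (Place.at_const (v := v) (δ j)).mem (Place.at_const (v := v) (B j)).mem
      (cpt_on hν hg hw j)
  -- the bad case
  have hbad : (∃ j, w j ∉ v.ring ∨ v.At (w j) 0) →
      ∃ p : Fin n → WPt k,
      (∀ j, WVal v (cpt (TInf.up B) (c.up.rotc (TInf.up B) ρ) w j) (p j)) ∧ f p = 0 := by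
    rintro ⟨j, hj⟩
    choose p hp using hex
    refine ⟨p, hp, ?_⟩
    have h1 : p j = none := wval_unique (hp j) (wpt_inf hj)
    exact hf.inf p j h1
  cases hx with
  | bad hb =>
    apply hbad
    rcases hb with hb | hb
    · obtain ⟨j, hj⟩ := DK.bad_V h hn hc hρ hb
      exact ⟨j, DK.bad_w (hw j) hj⟩
    · rw [← hwP] at hb
      exact DK.exists_bad_of_prod (Or.inr hb)
  | good ρ' w' hρ' hρ0 hg' hw' hP' =>
    have hS : ∀ j, SAt v ((c.up.rotc (TInf.up B) ρ).side (TInf.up B) j)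
        ((c.rotc B ρ').side B j) := fun j => DK.rotc_at hc hρ' hρ0 hg' j
    choose u hu hu6 using fun j => w_at hν (hw j) (V_at (hS j) (hg'.2 j))
    refine ⟨cpt B (c.rotc B ρ') u, fun j => ?_, ?_⟩
    · exact wpt_val (hS j) (hg'.2 j) (hu j) (DK.w_ne hν (hg'.2 j) (hu6 j))
    · have hprod : ∏ j, u j = ∏ j, w' j := by
        have h1 : v.At (∏ j, w j) (∏ j, u j) := Place.At.prod fun j _ => hu j
        rw [hwP] at h1
        exact h1.unique hP'
      exact WFn.congr hf hζ hν (fun j => ((c.rotc B ρ').side B j).Sg)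
        (fun j => DK.w_ne hν (hg'.2 j) (hw' j)) (fun j => by rw [hu6, hw']) hprod

/-- Comparison of the values. For every `r` choose roots `w r j` of degree `ν` over `Om k` of
the `V` of the sides of `c.up.rotc _ (ρ r)` with product `P r`. Use `hf.bridge`. -/
theorem contr_family (hf : WFn ν ζ δ B om f) (hζ : IsPrimitiveRoot ζ ν) (hν : 0 < ν)
    (h : Nd δ B) (hn : 0 < n) {c : Cfg k n} (hc : Good δ B c) {R : Type} [Fintype R]
    (ρ P : R → Om k) (hρ : ∀ r, ∀ x : k, ρ r ≠ algebraMap k (Om k) x)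
    (hP : ∀ r, P r ^ ν = ∏ j, ((c.up.rotc (TInf.up B) (ρ r)).side (TInf.up B) j).V)
    (c₀ c₁ : k) (C₀ C₁ : W)
    (h₀ : ∀ v : Place k (Om k), v.At (tt k) c₀ → ∃ x : R → W,
      (∀ r, Contr ν f δ B c v (ρ r) (P r) (x r)) ∧ ∑ r, x r = C₀)
    (h₁ : ∀ v : Place k (Om k), v.At (tt k) c₁ → ∃ x : R → W,
      (∀ r, Contr ν f δ B c v (ρ r) (P r) (x r)) ∧ ∑ r, x r = C₁) : C₀ = C₁ := by
  have hg : ∀ r, Good (TInf.up δ) (TInf.up B) (c.up.rotc (TInf.up B) (ρ r)) :=
    fun r => DK.rotc_up_good h hc (hρ r)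
  choose w hw hwP using fun r => exists_roots hν hn (fun j => V_ne ((hg r).2 j)) (hP r)
  have key : ∀ (v : Place k (Om k)) (C : W), (∃ x : R → W,
      (∀ r, Contr ν f δ B c v (ρ r) (P r) (x r)) ∧ ∑ r, x r = C) →
      ∃ p : R → Fin n → WPt k,
        (∀ i j, WVal v (cpt (TInf.up B) (c.up.rotc (TInf.up B) (ρ i)) (w i) j) (p i j)) ∧
        ∑ i, (1 : ℚ) • f (p i) = C := by
    rintro v C ⟨x, hx, hxC⟩
    choose p hp1 hp2 using fun r =>
      contr_points hf hζ hν h hn hc (hρ r) (hw r) (hwP r) (hg r) (hx r)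
    refine ⟨p, hp1, ?_⟩
    rw [← hxC]
    exact Finset.sum_congr rfl fun r _ => by rw [hp2 r, one_smul]
  exact hf.bridge (I := R) (fun _ => (1 : ℚ))
    (fun i j => cpt (TInf.up B) (c.up.rotc (TInf.up B) (ρ i)) (w i) j)
    (fun i j => cpt_on hν (hg i) (hw i) j) c₀ c₁ C₀ C₁
    (fun v hv => key v C₀ (h₀ v hv)) (fun v hv => key v C₁ (h₁ v hv))

end Pool.Agent.DK
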