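import Pool.Agent.DK.Defs
import Pool.Agent.TInf.InvU
import Pool.Agent.TInf.FamIsSt
import Pool.Agent.TInf.RotProd
import Pool.Agent.TInf.RotBad

/-!
# States and configurations for the curves `σ ² = w ^ (2 ν) + B w ^ ν + δ`

The theorems of `Pool/Agent/TInf` for `δ = α ³`, for arbitrary `δ`.
-/

set_option autoImplicit false

noncomputable section

namespace Pool.Agent.DK

open Pool.Agent.ZCyc Pool.Agent.TInf Polynomial
open Pool.Agent.VFP (Om tt)

universe u

section alg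

variable {K : Type*} [Field K] {n : ℕ}

/-- cube roots -/
theorem exists_cb [IsAlgClosed K] (δ : Fin n → K) : ∃ α : Fin n → K, δ = fun j => α j ^ 3 := by
  choose α hα using fun j => IsAlgClosed.exists_pow_nat_eq (δ j) (n := 3) (by norm_num)
  exact ⟨α, funext fun j => (hα j).symm⟩

variable {α B : Fin n → K}

private theorem Nd.ndU (h : Nd (fun j => α j ^ 3) B) : NdU α B :=
  ⟨fun j h0 => h.hδ j (by rw [h0]; exact zero_pow (by norm_num)), h.hB, h.disc, h.dist⟩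

private theorem full_iff {M : Mq K} : Full (fun j => α j ^ 3) B M ↔ FullU α B M := Iff.rfl

private theorem isSt_iff {M : Mq K} : IsSt (fun j => α j ^ 3) B M ↔ TInf.IsSt α B M :=
  ⟨fun h => ⟨h.deg, h.q, h.a0⟩, fun h => ⟨h.deg, h.q, h.a0⟩⟩

theorem IsSt.bc [IsAlgClosed K] {δ : Fin n → K} {M : Mq K} (h : IsSt δ B M) :
    M.b.eval 1 * M.c.eval 1 = ∏ j, δ j - M.a.eval 1 ^ 2 := by
  obtain ⟨α, rfl⟩ := exists_cb δ
  exact (isSt_iff.1 h).bc

/-- change of the frame -/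
theorem IsSt.rot [IsAlgClosed K] {δ : Fin n → K} {M : Mq K} (h : IsSt δ B M) {ρ : K}
    (hρ : ρ ≠ 0) : IsSt δ B (M.rot ρ) := by
  obtain ⟨α, rfl⟩ := exists_cb δ
  exact isSt_iff.2 ((isSt_iff.1 h).rot hρ)

variable [IsAlgClosed K] [CharZero K] {δ : Fin n → K}

theorem side_nd (h : Nd δ B) {c : Cfg K n} (hc : Good δ B c) (j : Fin n) :
    (c.side B j).Nd := by
  obtain ⟨α, rfl⟩ := exists_cb δ
  exact Cfg.side_ndU h.ndU hc j

theorem sides_nd (h : Nd δ B) {c : Cfg K n} (hc : Good δ B c) : ∀ s ∈ c.sides B, s.Nd := by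
  obtain ⟨α, rfl⟩ := exists_cb δ
  exact Cfg.sides_ndU h.ndU hc

theorem sides_good {c : Cfg K n} (hc : Good δ B c) : ∀ s ∈ c.sides B, s.Good := by
  obtain ⟨α, rfl⟩ := exists_cb δ
  exact Cfg.sides_good (α := α) hc

/-- `p m = (B ² - 4 δ) / 4` -/
theorem side_pm {c : Cfg K n} (hc : Good δ B c) (j : Fin n) :
    (c.side B j).p * (c.side B j).m = (B j ^ 2 - 4 * δ j) / 4 := by
  have h := hc.1 j
  show (-B j / 2 + c.β j) * (-B j / 2 - c.β j) = _
  linear_combination -h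

theorem side_pm_ne (h : Nd δ B) {c : Cfg K n} (hc : Good δ B c) (j : Fin n) :
    (c.side B j).p * (c.side B j).m ≠ 0 := by
  rw [side_pm hc]
  exact div_ne_zero (sub_ne_zero.mpr (h.disc j)) (by norm_num)

/-- uniqueness, if the denominators are not zero for one configuration -/
theorem unique_of_gdP (h : Nd δ B) {c c' : Cfg K n} (hc : Good δ B c)
    (hG : GdP (c.sides B)) (hc' : Good δ B c') (ho : c'.ord = c.ord) (hβ : c'.β = c.β)
    (hM : c'.M B = c.M B) : c' = c := by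
  obtain ⟨α, rfl⟩ := exists_cb δ
  exact cfg_unique_of_gdP h.ndU hc hG hc' ho hβ hM

/-- uniqueness -/
theorem cfg_unique (h : Nd δ B) {M : Mq K} (hF : Full δ B M) {c c' : Cfg K n}
    (hc : Good δ B c) (hc' : Good δ B c') (hA : Adm δ B c.β) (ho : c'.ord = c.ord)
    (hβ : c'.β = c.β) (hM : c.M B = M) (hM' : c'.M B = M) : c' = c := by
  obtain ⟨α, rfl⟩ := exists_cb δ
  exact cfg_uniqueU h.ndU (full_iff.1 hF) hc hc' hA ho hβ hM hM'

/-- the denominators are not zero -/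
theorem cfg_gdP (h : Nd δ B) {M : Mq K} (hF : Full δ B M) {c : Cfg K n}
    (hc : Good δ B c) (hA : Adm δ B c.β) (hM : c.M B = M) : GdP (c.sides B) := by
  obtain ⟨α, rfl⟩ := exists_cb δ
  exact Cfg.gdPU h.ndU (full_iff.1 hF) hc hA hM

/-- the denominators are not zero, if the ratios are distinct -/
theorem gdP_of_dist (h : Nd δ B) (hd : ∀ i j, i ≠ j → B i ^ 2 * δ j ≠ B j ^ 2 * δ i) {M : Mq K}
    (hF : ∀ (o : Equiv.Perm (Fin n)) (β : Fin n → K), (∀ j, β j ^ 2 = δ j) →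
      ∃ T : Fin n → K, Good δ B (⟨o, β, T⟩ : Cfg K n) ∧ (⟨o, β, T⟩ : Cfg K n).M B = M)
    {c : Cfg K n} (hc : Good δ B c) (hM : c.M B = M) : GdP (c.sides B) := by
  obtain ⟨α, rfl⟩ := exists_cb δ
  exact Gd.gdP (Cfg.sides_ndU h.ndU hc) (Cfg.gd (h.ndU.nd hd) hF hc hM)

/-- the state of a good configuration -/
theorem isSt_of_cfg {c : Cfg K n} (h : Good δ B c) : IsSt δ B (c.M B) := by
  obtain ⟨α, rfl⟩ := exists_cb δ
  exact isSt_iff.2 (TInf.isSt_of_cfg h)

theorem rotc_good {c : Cfg K n} (hc : Good δ B c) {ρ : K}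
    (h : ∀ s ∈ rotL ρ (c.sides B), s.Good) : Good δ B (c.rotc B ρ) := by
  obtain ⟨α, rfl⟩ := exists_cb δ
  exact Cfg.rotc_good (α := α) hc h

theorem rotc_M {c : Cfg K n} (hc : Good δ B c) {ρ : K} (hρ : ρ ≠ 0)
    (h : Good δ B (c.rotc B ρ)) : (c.rotc B ρ).M B = (c.M B).rot ρ := by
  obtain ⟨α, rfl⟩ := exists_cb δ
  exact Cfg.rotc_M (α := α) hc hρ h

end alg

variable {k : Type u} [Field k] [IsAlgClosed k] [CharZero k] {n : ℕ} {δ B : Fin n → k}

/-- the product of the `V` -/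
theorem prod_V {c : Cfg k n} (hc : Good δ B c) : ∏ j, (c.side B j).V = (c.M B).V0 := by
  obtain ⟨α, rfl⟩ := exists_cb δ
  exact prod_VU (α := α) hc

/-- cube roots with values -/
private theorem exists_cb_at (v : Place k (Om k)) {δ' : Fin n → Om k}
    (h : ∀ j, v.At (δ' j) (δ j)) :
    ∃ (α' : Fin n → Om k) (α : Fin n → k), δ' = (fun j => α' j ^ 3) ∧ δ = (fun j => α j ^ 3) ∧
      ∀ j, v.At (α' j) (α j) := by
  obtain ⟨α', rfl⟩ := exists_cb δ'
  have h1 : ∀ j, α' j ∈ v.ring := by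
    intro j
    rcases v.ring.mem_or_inv_mem (α' j) with h1 | h1
    · exact h1
    · by_cases h0 : α' j = 0
      · rw [h0]
        exact zero_mem _
      · have h2 : α' j = α' j ^ 3 * ((α' j)⁻¹ * (α' j)⁻¹) := by field_simp
        rw [h2]
        exact mul_mem (h j).mem (mul_mem h1 h1)
  choose α hα using fun j => DCI57.exists_at v (h1 j)
  exact ⟨α', α, rfl, funext fun j => (h j).unique ((hα j).pow 3), hα⟩

/-- Let `M'` be a state over `Om k`, and let `M` be its value at the place `v`. If the values `δ`, `B` of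
the coefficients `δ'`, `B'` of the curves are nondegenerate and all orderings and square roots occur
in configurations with the state `M`, then there is a configuration with the state `M'` for every
ordering and all square roots, and its value is the configuration over `k`. -/
theorem cfg_lift (v : Place k (Om k)) {δ' B' : Fin n → Om k}
    (hδ : ∀ j, v.At (δ' j) (δ j)) (hB : ∀ j, v.At (B' j) (B j)) (h : Nd δ B) {M : Mq k}
    {M' : Mq (Om k)} (hM : MAt v M' M) (hst : IsSt δ' B' M') (hF : Full δ B M)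
    (ord : Equiv.Perm (Fin n)) {β' : Fin n → Om k} (hβ : ∀ j, β' j ^ 2 = δ' j) {β : Fin n → k}
    (hβv : ∀ j, v.At (β' j) (β j)) (hA : Adm δ B β) :
    ∃ (T' : Fin n → Om k) (T : Fin n → k), Good δ' B' (⟨ord, β', T'⟩ : Cfg (Om k) n) ∧
      (⟨ord, β', T'⟩ : Cfg (Om k) n).M B' = M' ∧
      GdP ((⟨ord, β', T'⟩ : Cfg (Om k) n).sides B') ∧ Good δ B (⟨ord, β, T⟩ : Cfg k n) ∧
      (⟨ord, β, T⟩ : Cfg k n).M B = M ∧ ∀ j, v.At (T' j) (T j) := by
  obtain ⟨α', α, rfl, rfl, hα⟩ := exists_cb_at v hδ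
  exact cfg_liftU v hα hB h.ndU hM hst.deg hst.q hst.a0 (full_iff.1 hF) ord hβ hβv hA

/-- Every good configuration over `Om k` with the state `M'`, whose square roots have admissible
values `β`, has a value at `v`, which is a good configuration over `k` with the state `M`. -/
theorem cfg_value (v : Place k (Om k)) {δ' B' : Fin n → Om k}
    (hδ : ∀ j, v.At (δ' j) (δ j)) (hB : ∀ j, v.At (B' j) (B j)) (h : Nd δ B) {M : Mq k}
    {M' : Mq (Om k)} (hM : MAt v M' M) (hst : IsSt δ' B' M') (hF : Full δ B M)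
    {c' : Cfg (Om k) n} (hc' : Good δ' B' c') (hcM : c'.M B' = M') {β : Fin n → k}
    (hβv : ∀ j, v.At (c'.β j) (β j)) (hA : Adm δ B β) :
    ∃ c : Cfg k n, Good δ B c ∧ c.M B = M ∧ c.ord = c'.ord ∧ c.β = β ∧
      ∀ j, v.At (c'.T j) (c.T j) := by
  obtain ⟨α', α, rfl, rfl, hα⟩ := exists_cb_at v hδ
  exact cfg_valueU v hα hB h.ndU hM hst.deg hst.q hst.a0 (full_iff.1 hF) hc' hcM hβv hA

omit [IsAlgClosed k] [CharZero k] in
/-- the values of admissible square roots are admissible if they satisfy the second condition -/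
theorem Adm.of_at (v : Place k (Om k)) {β : Fin n → k} {δ' B' β' : Fin n → Om k}
    (hδ : ∀ j, v.At (δ' j) (δ j)) (hB : ∀ j, v.At (B' j) (B j)) (hβ : ∀ j, v.At (β' j) (β j))
    (hsq : ∀ j, β' j ^ 2 = δ' j)
    (h : (∀ i j, i ≠ j → B i ^ 2 * δ j ≠ B j ^ 2 * δ i) ∨
      ∀ i j, β' i * B' j = β' j * B' i) : Adm δ B β := by
  refine ⟨fun j => ?_, h.imp id fun h1 i j => ?_⟩
  · have h2 := (hβ j).pow 2
    rw [hsq j] at h2
    exact h2.unique (hδ j)
  · have h2 := (hβ i).mul (hB j)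
    rw [h1 i j] at h2
    exact h2.unique ((hβ j).mul (hB i))

theorem up_good {c : Cfg k n} (hc : Good δ B c) :
    Good (TInf.up δ) (TInf.up B) (c.up : Cfg (Om k) n) := by
  obtain ⟨α, rfl⟩ := exists_cb δ
  have h := Cfg.up_good (α := α) (B := B) (c := c) hc
  refine ⟨fun j => ?_, h.2⟩
  rw [h.1 j]
  show (algebraMap k (Om k) (α j)) ^ 3 = algebraMap k (Om k) (α j ^ 3)
  rw [map_pow]

theorem rotc_up_good (h : Nd δ B) {c : Cfg k n} (hc : Good δ B c) {ρ : Om k}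
    (hρ : ∀ x : k, ρ ≠ algebraMap k (Om k) x) :
    Good (TInf.up δ) (TInf.up B) (c.up.rotc (TInf.up B) ρ) := by
  obtain ⟨α, rfl⟩ := exists_cb δ
  have h := Cfg.rotc_up_good h.ndU hc hρ
  refine ⟨fun j => ?_, h.2⟩
  rw [h.1 j]
  show (algebraMap k (Om k) (α j)) ^ 3 = algebraMap k (Om k) (α j ^ 3)
  rw [map_pow]

theorem rotc_at {v : Place k (Om k)} {c : Cfg k n} (hc : Good δ B c) {ρ : Om k} {ρ' : k}
    (hρ : v.At ρ ρ') (h0 : ρ' ≠ 0) (h' : Good δ B (c.rotc B ρ')) (j : Fin n) :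
    SAt v ((c.up.rotc (TInf.up B) ρ).side (TInf.up B) j) ((c.rotc B ρ').side B j) := by
  obtain ⟨α, rfl⟩ := exists_cb δ
  exact Cfg.rotc_at (α := α) hc hρ h0 h' j

theorem rotc_one {c : Cfg k n} (hc : Good δ B c) : c.rotc B 1 = c := by
  obtain ⟨α, rfl⟩ := exists_cb δ
  exact Cfg.rotc_one (α := α) B hc

/-- `ρ` has no value, or the value `0`, or the sides of the configuration after the change of the
frame by the value of `ρ` are not good. -/
def BadAt (v : Place k (Om k)) (δ B : Fin n → k) (c : Cfg k n) (ρ : Om k) : Prop :=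
  ρ ∉ v.ring ∨ v.At ρ 0 ∨ ∃ ρ' : k, v.At ρ ρ' ∧ ρ' ≠ 0 ∧ ¬ Good δ B (c.rotc B ρ')

theorem bad_V {v : Place k (Om k)} (h : Nd δ B) (hn : 0 < n) {c : Cfg k n} (hc : Good δ B c)
    {ρ : Om k} (hρ : ∀ x : k, ρ ≠ algebraMap k (Om k) x) (hb : BadAt v δ B c ρ) :
    ∃ j, ((c.up.rotc (TInf.up B) ρ).side (TInf.up B) j).V ∉ v.ring ∨
      v.At ((c.up.rotc (TInf.up B) ρ).side (TInf.up B) j).V 0 := by
  obtain ⟨α, rfl⟩ := exists_cb δ
  exact TInf.bad_V h.ndU hn hc hρ hb

/-- the product of the `V` after the change of the frame -/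
theorem prod_V_rotc (h : Nd δ B) {c : Cfg k n} (hc : Good δ B c) {ρ : Om k}
    (hρ : ∀ x : k, ρ ≠ algebraMap k (Om k) x) :
    ∏ j, ((c.up.rotc (TInf.up B) ρ).side (TInf.up B) j).V =
      algebraMap k (Om k) ((c.M B).a.eval 1) + (ρ * algebraMap k (Om k) ((c.M B).b.eval 1) -
        ρ⁻¹ * algebraMap k (Om k) ((c.M B).c.eval 1)) / 2 := by
  obtain ⟨α, rfl⟩ := exists_cb δ
  exact TInf.prod_V_rotc h.ndU hc hρ

end Pool.Agent.DK
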