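import Pool.Agent.DK.State

/-!
# Values of points of the curves at places
-/

set_option autoImplicit false

noncomputable section

namespace Pool.Agent.DK

open Pool.Agent.ZCyc Pool.Agent.TInf Polynomial
open Pool.Agent.VFP (Om tt)

universe u

theorem V_ne {K : Type*} [Field K] [CharZero K] {s : Side K} (hs : s.Good) : s.V ≠ 0 := by
  obtain ⟨h1, h2, h3⟩ := hs
  exact div_ne_zero (mul_ne_zero h2 h3) (mul_ne_zero two_ne_zero h1)

theorem Sg_sq {K : Type*} [Field K] [CharZero K] {δ B : K} {s : Side K} (hs : s.Good)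
    (hB : s.p + s.m = -B) (hδ : (s.p - s.m) ^ 2 = 4 * δ) :
    s.Sg ^ 2 = s.V ^ 2 + B * s.V + δ := by
  obtain ⟨h1, _, _⟩ := hs
  have hB' : B = -(s.p + s.m) := by rw [hB, neg_neg]
  have hδ' : δ = (s.p - s.m) ^ 2 / 4 := by
    rw [hδ]
    ring
  rw [hδ', hB']
  unfold Side.Sg Side.V
  field_simp
  ring

theorem w_ne {K : Type*} [Field K] [CharZero K] {ν : ℕ} (hν : 0 < ν) {s : Side K}
    (hs : s.Good) {w : K} (hw : w ^ ν = s.V) : w ≠ 0 := by
  rintro rfl
  rw [zero_pow hν.ne'] at hw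
  exact V_ne hs hw.symm

/-- the point `wpt s w` is on the curve -/
theorem wpt_on {K : Type*} [Field K] [CharZero K] {ν : ℕ} (hν : 0 < ν) {δ B w : K} {s : Side K}
    (hs : s.Good) (hB : s.p + s.m = -B) (hδ : (s.p - s.m) ^ 2 = 4 * δ) (hw : w ^ ν = s.V) :
    WOn ν δ B (wpt s w) := by
  refine ⟨w_ne hν hs hw, ?_⟩
  rw [Sg_sq hs hB hδ, mul_comm 2 ν, pow_mul, hw]

/-- every point with `w ≠ 0` is given by a side -/
theorem exists_side {K : Type*} [Field K] [CharZero K] {ν : ℕ} {δ B β w σ : K}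
    (hβ : β ^ 2 = δ) (hd : B ^ 2 ≠ 4 * δ) (h : WOn ν δ B (some (w, σ))) :
    ∃ T : K, (⟨-B / 2 + β, -B / 2 - β, T⟩ : Side K).Good ∧
      w ^ ν = (⟨-B / 2 + β, -B / 2 - β, T⟩ : Side K).V ∧
      (⟨-B / 2 + β, -B / 2 - β, T⟩ : Side K).Sg = σ := by
  obtain ⟨hw, h⟩ := h
  rw [mul_comm 2 ν, pow_mul] at h
  have hV : w ^ ν ≠ 0 := pow_ne_zero _ hw
  set V := w ^ ν with hVd
  have h1 : (V + σ + B / 2) * (V - σ + B / 2) = (B ^ 2 - 4 * δ) / 4 := by
    linear_combination -h
  have h2 : (V + σ + B / 2) * (V - σ + B / 2) ≠ 0 := by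
    rw [h1]
    exact div_ne_zero (sub_ne_zero.2 hd) (by norm_num)
  have hT : V + σ + B / 2 ≠ 0 := left_ne_zero_of_mul h2
  have h3 : (V + σ + B / 2 + (-B / 2 + β)) * (V + σ + B / 2 + (-B / 2 - β)) =
      2 * V * (V + σ + B / 2) := by
    linear_combination -hβ + h
  have h4 : (V + σ + B / 2 + (-B / 2 + β)) * (V + σ + B / 2 + (-B / 2 - β)) ≠ 0 := by
    rw [h3]
    exact mul_ne_zero (mul_ne_zero two_ne_zero hV) hT
  refine ⟨V + σ + B / 2, ⟨hT, left_ne_zero_of_mul h4, right_ne_zero_of_mul h4⟩, ?_, ?_⟩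
  · unfold Side.V
    rw [eq_div_iff (mul_ne_zero two_ne_zero hT), h3]
    ring
  · unfold Side.Sg
    rw [div_eq_iff (mul_ne_zero two_ne_zero hT)]
    linear_combination hβ - h

variable {k : Type u} [Field k] [IsAlgClosed k] [CharZero k] {v : Place k (Om k)}

omit [IsAlgClosed k] in
theorem V_at {s' : Side (Om k)} {s : Side k} (h : SAt v s' s) (hs : s.Good) :
    v.At s'.V s.V := by
  have h2 : v.At (2 : Om k) (2 : k) := by
    have := Place.at_const (v := v) (2 : k)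
    rwa [map_ofNat] at this
  exact ((h.T.add h.p).mul (h.T.add h.m)).div (h2.mul h.T) (mul_ne_zero two_ne_zero hs.1)

omit [IsAlgClosed k] in
theorem Sg_at {s' : Side (Om k)} {s : Side k} (h : SAt v s' s) (hs : s.Good) :
    v.At s'.Sg s.Sg := by
  have h2 : v.At (2 : Om k) (2 : k) := by
    have := Place.at_const (v := v) (2 : k)
    rwa [map_ofNat] at this
  exact ((h.T.pow 2).sub (h.p.mul h.m)).div (h2.mul h.T) (mul_ne_zero two_ne_zero hs.1)

omit [IsAlgClosed k] in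
/-- the value of `wpt` -/
theorem wpt_val {w : Om k} {s : Side (Om k)} {w' : k} {s' : Side k} (hs : SAt v s s')
    (hs' : s'.Good) (hw : v.At w w') (hw' : w' ≠ 0) : WVal v (wpt s w) (wpt s' w') :=
  ⟨hw', hw, Sg_at hs hs'⟩

omit [IsAlgClosed k] [CharZero k] in
/-- the value of `wpt` is `none` if `w` has a zero or a pole -/
theorem wpt_inf {w : Om k} {s : Side (Om k)} (hw : w ∉ v.ring ∨ v.At w 0) :
    WVal v (wpt s w) none := hw

/-- points have values -/
theorem wval_exists {ν : ℕ} {δ B : Om k} (hδ : δ ∈ v.ring) (hB : B ∈ v.ring)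
    {P : WPt (Om k)} (hP : WOn ν δ B P) : ∃ p, WVal v P p := by
  rcases P with _ | ⟨w, σ⟩
  · exact ⟨none, trivial⟩
  · by_cases hw : w ∈ v.ring
    · obtain ⟨w', hw'⟩ := DCI57.exists_at v hw
      by_cases h0 : w' = 0
      · subst h0
        exact ⟨none, Or.inr hw'⟩
      · have h1 : σ ^ 2 ∈ v.ring := by
          rw [hP.2]
          exact add_mem (add_mem (pow_mem hw _) (mul_mem hB (pow_mem hw _))) hδ
        have h2 : σ ∈ v.ring := by
          rcases v.ring.mem_or_inv_mem σ with h2 | h2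
          · exact h2
          · by_cases hσ0 : σ = 0
            · rw [hσ0]
              exact zero_mem _
            · have h3 : σ = σ ^ 2 * σ⁻¹ := by field_simp
              rw [h3]
              exact mul_mem h1 h2
        obtain ⟨σ', hσ'⟩ := DCI57.exists_at v h2
        exact ⟨some (w', σ'), h0, hw', hσ'⟩
    · exact ⟨none, Or.inl hw⟩

omit [IsAlgClosed k] [CharZero k] in
theorem wval_on {ν : ℕ} {δ B : Om k} {δ' B' : k} (hδ : v.At δ δ') (hB : v.At B B')
    {P : WPt (Om k)} {p : WPt k} (hP : WOn ν δ B P) (h : WVal v P p) : WOn ν δ' B' p := by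
  rcases p with _ | ⟨w', σ'⟩
  · trivial
  · rcases P with _ | ⟨w, σ⟩
    · exact h.elim
    · obtain ⟨h0, hw, hσ⟩ := h
      refine ⟨h0, ?_⟩
      have h1 : v.At (σ ^ 2) (σ' ^ 2) := hσ.pow 2
      rw [hP.2] at h1
      exact h1.unique (((hw.pow _).add (hB.mul (hw.pow _))).add hδ)

omit [IsAlgClosed k] [CharZero k] in
theorem wval_unique {P : WPt (Om k)} {p q : WPt k} (hp : WVal v P p) (hq : WVal v P q) :
    p = q := by
  have key : ∀ (w : Om k) (w' : k), w' ≠ 0 → v.At w w' → ¬ (w ∉ v.ring ∨ v.At w 0) := by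
    rintro w w' h0 h1 (h2 | h2)
    · exact h2 h1.mem
    · exact h0 (h1.unique h2)
  rcases P with _ | ⟨w, σ⟩
  · rcases p with _ | ⟨w', σ'⟩
    · rcases q with _ | ⟨w'', σ''⟩
      · rfl
      · exact hq.elim
    · exact hp.elim
  · rcases p with _ | ⟨w', σ'⟩
    · rcases q with _ | ⟨w'', σ''⟩
      · rfl
      · exact absurd hp (key w w'' hq.1 hq.2.1)
    · rcases q with _ | ⟨w'', σ''⟩
      · exact absurd hq (key w w' hp.1 hp.2.1)
      · rw [hp.2.1.unique hq.2.1, hp.2.2.unique hq.2.2]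

omit [IsAlgClosed k] [CharZero k] in
/-- a constant point -/
theorem wval_const {ν : ℕ} {δ B : k} {p : WPt k} (hp : WOn ν δ B p) :
    WVal v (Option.map (fun z : k × k => (algebraMap k (Om k) z.1, algebraMap k (Om k) z.2)) p)
      p := by
  rcases p with _ | ⟨w, σ⟩
  · trivial
  · exact ⟨hp.1, Place.at_const w, Place.at_const σ⟩

end Pool.Agent.DK
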