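import Pool.Agent.DK.FamSum

/-!
# The classes are zero: the case of many parameters

`σ ² = w ^ (2 ν) + B w ^ ν + δ`, with the closing data `(w, σ)`.
-/

set_option autoImplicit false

noncomputable section

namespace Pool.Agent.DK

open Pool.Agent.ZCyc Pool.Agent.TInf Polynomial
open Pool.Agent.VFP (Om tt)

universe u

variable {k : Type u} [Field k] [IsAlgClosed k] [CharZero k] {n ν : ℕ} {ζ : k} {D : Bas k}
  {W : Type*} [AddCommGroup W] [Module ℚ W]

/-- admissible square roots exist -/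
theorem exists_adm {δ B : Fin n → k} (h : Nd δ B) (hn : 0 < n) : ∃ β : Fin n → k, Adm δ B β := by
  rcases h.dist with hd | hd
  · choose β hβ using fun j => IsAlgClosed.exists_pow_nat_eq (δ j) (n := 2) (by norm_num)
    exact ⟨β, hβ, Or.inl hd⟩
  · obtain ⟨g, hg⟩ := IsAlgClosed.exists_pow_nat_eq (δ ⟨0, hn⟩ / B ⟨0, hn⟩ ^ 2) (n := 2)
      (by norm_num)
    refine ⟨fun j => g * B j, fun j => ?_, Or.inr fun i j => by ring⟩
    have h0 : B ⟨0, hn⟩ ^ 2 ≠ 0 := pow_ne_zero 2 (h.hB _)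
    have h1 := hd ⟨0, hn⟩ j
    rw [mul_pow, hg, div_mul_eq_mul_div, div_eq_iff h0]
    linear_combination -h1

/-- Zero from the classes `GG`. -/
theorem zero_of_GG (Y : SysW ν ζ D n W) (hζ : IsPrimitiveRoot ζ ν) (hν : 0 < ν) (hn : 0 < n)
    {s : Fin n → D.P} (hs : D.Gen s)
    (H : ∀ (M : Mq k) (S w : k), IsSt (D.ed s) (D.eb s) M → Clo ν (D.ed s) M S w → S ≠ 0 →
      GG Y s M S w = 0) (p : Fin n → WPt k) : Y.F s p = 0 := by
  classical
  by_cases hp : D.On ν s p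
  swap
  · exact Y.off s p hp
  by_cases hnone : ∃ j, p j = none
  · obtain ⟨j, hj⟩ := hnone
    exact Y.inf s p j hj
  push Not at hnone
  have hsome : ∀ j, ∃ z : k × k, p j = some z := fun j => Option.ne_none_iff_exists'.1 (hnone j)
  choose z hz using hsome
  obtain ⟨β, hβ⟩ := exists_adm hs.nd hn
  have hon : ∀ j, WOn ν (D.ed s j) (D.eb s j) (some ((z j).1, (z j).2)) := by
    intro j
    have h1 := hp j
    rwa [hz j] at h1
  have hT := fun j => exists_side (hβ.1 j) (hs.nd.disc j) (hon j)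
  choose T hT1 hT2 hT3 using hT
  obtain ⟨c, hc⟩ : ∃ c : Cfg k n, c = ⟨1, β, T⟩ := ⟨_, rfl⟩
  have hside : ∀ j, c.side (D.eb s) j =
      ⟨-D.eb s j / 2 + β j, -D.eb s j / 2 - β j, T j⟩ := by
    intro j
    rw [hc]
    rfl
  have hg : Good (D.ed s) (D.eb s) c := by
    refine ⟨fun j => ?_, fun j => ?_⟩
    · rw [hc]
      exact hβ.1 j
    · rw [hside]
      exact hT1 j
  obtain ⟨w, hw⟩ : ∃ w : Fin n → k, w = fun j => (z j).1 := ⟨_, rfl⟩
  have hw6 : ∀ j, w j ^ ν = (c.side (D.eb s) j).V := by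
    intro j
    rw [hside, hw]
    exact hT2 j
  have hpc : p = cpt (D.eb s) c w := by
    funext j
    show p j = some (w j, (c.side (D.eb s) j).Sg)
    rw [hz j, hside, hT3, hw]
  rw [hpc]
  by_cases hcl : (c.M (D.eb s)).b.eval 1 = 0 ∨ (c.M (D.eb s)).c.eval 1 = 0 ∨
      (c.M (D.eb s)).b.eval 1 + (c.M (D.eb s)).c.eval 1 = 0
  · exact F_closing Y hζ hν hn hs.nd hg hw6 hcl
  push Not at hcl
  obtain ⟨h1, h2, h3⟩ := hcl
  have hSt := isSt_of_cfg hg
  have hP0 : ∏ j, w j ≠ 0 :=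
    Finset.prod_ne_zero_iff.2 fun j _ => DK.w_ne hν (hg.2 j) (hw6 j)
  have hV0 : (c.M (D.eb s)).V0 = (∏ j, w j) ^ ν := by
    rw [← DK.prod_V hg, ← Finset.prod_pow]
    exact Finset.prod_congr rfl fun j _ => (hw6 j).symm
  obtain ⟨h4, h5⟩ := clo_of_state (δ := D.ed s) (M := c.M (D.eb s)) (w := ∏ j, w j) (ν := ν)
    hSt.bc (mul_ne_zero h1 h2) hP0 hV0
  have h6 := H _ _ _ hSt h4 (div_ne_zero (neg_ne_zero.2 h3) two_ne_zero)
  unfold GG at h6
  rw [h5] at h6
  have hR : Rz ν (D.ed s) (D.eb s) (c.M (D.eb s)) (∏ j, w j) c w :=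
    ⟨⟨hg, rfl, hw6, rfl⟩, by rw [hc]; exact hβ⟩
  rw [Psi_eq Y hζ hν hs.nd hR] at h6
  have hsg : sgz c.ord = 1 := by
    rw [hc]
    simp [sgz]
  rwa [hsg, one_smul] at h6

/-- the equation of the closing side -/
private def gpI (k : Type u) [Field k] (ν : ℕ) : MvPolynomial (Fin 3) k :=
  MvPolynomial.X 0 ^ (2 * ν) - 2 * MvPolynomial.X 2 * MvPolynomial.X 0 ^ ν + MvPolynomial.X 1

omit [IsAlgClosed k] [CharZero k] in
private theorem gpI_eval {R : Type*} [CommRing R] [Algebra k R] (ν : ℕ) (x c a : R) :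
    MvPolynomial.aeval ![x, c, a] (gpI k ν) = x ^ (2 * ν) - 2 * a * x ^ ν + c := by
  unfold gpI
  simp

omit [IsAlgClosed k] [CharZero k] in
private theorem gpI_degree {a : ℕ} (x c b : k[X]) (hx : x.natDegree ≤ a)
    (hc : c.natDegree ≤ 2 * ν * a) (hb : b.natDegree ≤ ν * a) :
    (MvPolynomial.aeval ![x, c, b] (gpI k ν)).natDegree ≤ 2 * (ν * a) := by
  rw [gpI_eval]
  have h1 : (x ^ (2 * ν)).natDegree ≤ 2 * (ν * a) := by
    refine natDegree_pow_le.trans ?_
    calc 2 * ν * x.natDegree ≤ 2 * ν * a := Nat.mul_le_mul_left _ hx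
      _ = 2 * (ν * a) := by ring
  have h2 : (2 * b * x ^ ν).natDegree ≤ 2 * (ν * a) := by
    have e1 : (2 * b).natDegree ≤ ν * a := by
      refine natDegree_mul_le.trans ?_
      have : (2 : k[X]).natDegree = 0 := natDegree_ofNat 2
      omega
    have e2 : (x ^ ν).natDegree ≤ ν * a :=
      natDegree_pow_le.trans (Nat.mul_le_mul_left _ hx)
    refine natDegree_mul_le.trans ?_
    omega
  have h3 : c.natDegree ≤ 2 * (ν * a) := by
    rw [← mul_assoc]
    exact hc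
  refine (natDegree_add_le _ _).trans (max_le ?_ h3)
  exact (natDegree_sub_le _ _).trans (max_le h1 h2)

/-- The class is zero for all points of the curves over a general tuple with deformations with
sufficiently many parameters. -/
theorem SysW.zeroI (Y : SysW ν ζ D n W) (hζ : IsPrimitiveRoot ζ ν) (hν : 0 < ν) {a : ℕ}
    (ha : 0 < a) {s : Fin n → D.P} (F : CurveFam D (ν * a) (2 * ν * a) 1 s)
    (hρ : (ν - 1) * a ≤ F.ρ) (hs : D.Gen s) (hn : 0 < n) (p : Fin n → WPt k) :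
    Y.F s p = 0 := by
  refine zero_of_GG Y hζ hν hn hs (fun M S w hSt hC hS => ?_) p
  have hL : ν * a ≤ F.ρ + a := by
    obtain ⟨m, rfl⟩ : ∃ m, ν = m + 1 := ⟨ν - 1, by omega⟩
    simp only [Nat.add_sub_cancel] at hρ
    calc (m + 1) * a = m * a + a := by ring
      _ ≤ F.ρ + a := Nat.add_le_add_right hρ a
  have hcm : F.cv = ∏ j, D.ed s j := by
    have := F.cm
    rwa [pow_one] at this
  refine fam_sum Y hζ hν hn hs F (Nat.mul_pos hν ha) hL (Gp := gpI k ν)
    (fun x c b hx hc hb => gpI_degree x c b hx hc hb) hSt hC.ne (x := w) (y := S) hS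
    (by rw [gpI_eval, hC.sg, hcm]) (I := Unit) ⟨?_⟩
  intro X' Y' c' a' h
  rw [gpI_eval] at h
  refine ⟨fun _ => Y', fun _ => X', fun _ => by rw [h, pow_one], fun v h1 h2 _ => ?_,
    fun v _ _ _ h1 _ => h1⟩
  exact ⟨fun _ => S, fun _ => w, fun _ => h2, fun _ => h1, fun _ => hC.W0, by simp⟩

end Pool.Agent.DK
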