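import Pool.Agent.DK.ZeroI
import Pool.Agent.TInf.FamSqrt

/-!
# The classes are zero: the case of Dickson polynomials

For `ν = 2 m` and `δ = α ^ m` the curve `σ ² = w ^ (2 ν) + B w ^ ν + δ` covers the curve
`y ² = D_m(x, α) + B` with `x = w ² + α / w ²`, `y = σ / w ^ m`, where `D_m` is the Dickson polynomial. The
closing data are `(x, y)`.
-/

set_option autoImplicit false

noncomputable section

namespace Pool.Agent.DK

open Pool.Agent.ZCyc Pool.Agent.TInf Polynomial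
open Pool.Agent.VFP (Om tt)

universe u

/-- The Dickson polynomial in `x = X 0`, `α = X 1`. -/
def dkp (k : Type u) [Field k] : ℕ → MvPolynomial (Fin 3) k
  | 0 => 2
  | 1 => MvPolynomial.X 0
  | (m + 2) => MvPolynomial.X 0 * dkp k (m + 1) - MvPolynomial.X 1 * dkp k m

/-- `D_m(a + b, a b) = a ^ m + b ^ m` -/
theorem dkp_eval {k : Type u} [Field k] {R : Type*} [CommRing R] [Algebra k R] (a b t : R) :
    ∀ m : ℕ, MvPolynomial.aeval ![a + b, a * b, t] (dkp k m) = a ^ m + b ^ m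
  | 0 => by
    unfold dkp
    rw [map_ofNat, pow_zero, pow_zero]
    norm_num
  | 1 => by
    unfold dkp
    simp
  | (m + 2) => by
    unfold dkp
    rw [map_sub, map_mul, map_mul, dkp_eval a b t (m + 1), dkp_eval a b t m]
    simp only [MvPolynomial.aeval_X, Matrix.cons_val_zero, Matrix.cons_val_one]
    ring

theorem dkp_degree {k : Type u} [Field k] {d : ℕ} (x c b : k[X]) (hx : x.natDegree ≤ d)
    (hc : c.natDegree ≤ 2 * d) :
    ∀ m : ℕ, (MvPolynomial.aeval ![x, c, b] (dkp k m)).natDegree ≤ m * d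
  | 0 => by
    unfold dkp
    rw [map_ofNat]
    exact (natDegree_ofNat 2).le.trans (Nat.zero_le _)
  | 1 => by
    unfold dkp
    rw [MvPolynomial.aeval_X]
    simpa using hx
  | (m + 2) => by
    unfold dkp
    rw [map_sub, map_mul, map_mul]
    simp only [MvPolynomial.aeval_X, Matrix.cons_val_zero, Matrix.cons_val_one]
    refine (natDegree_sub_le _ _).trans (max_le ?_ ?_)
    · refine natDegree_mul_le.trans ?_
      have := dkp_degree x c b hx hc (m + 1)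
      calc x.natDegree + (MvPolynomial.aeval ![x, c, b] (dkp k (m + 1))).natDegree
          ≤ d + (m + 1) * d := Nat.add_le_add hx this
        _ = (m + 2) * d := by ring
    · refine natDegree_mul_le.trans ?_
      have := dkp_degree x c b hx hc m
      calc c.natDegree + (MvPolynomial.aeval ![x, c, b] (dkp k m)).natDegree
          ≤ 2 * d + m * d := Nat.add_le_add hc this
        _ = (m + 2) * d := by ring

variable {k : Type u} [Field k] [IsAlgClosed k] [CharZero k] {n m : ℕ} {ζ : k} {D : Bas k}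
  {W : Type*} [AddCommGroup W] [Module ℚ W]

/-- the equation of the closing side -/
private def gpD (k : Type u) [Field k] (m : ℕ) : MvPolynomial (Fin 3) k :=
  dkp k m - 2 * MvPolynomial.X 2

omit [IsAlgClosed k] [CharZero k] in
private theorem gpD_eval {R : Type*} [CommRing R] [Algebra k R] (m : ℕ) (a b t : R) :
    MvPolynomial.aeval ![a + b, a * b, t] (gpD k m) = a ^ m + b ^ m - 2 * t := by
  unfold gpD
  rw [map_sub, dkp_eval]
  simp

omit [IsAlgClosed k] [CharZero k] in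
private theorem gpD_degree {d : ℕ} (x c b : k[X]) (hx : x.natDegree ≤ d)
    (hc : c.natDegree ≤ 2 * d) (hb : b.natDegree ≤ m * d) :
    (MvPolynomial.aeval ![x, c, b] (gpD k m)).natDegree ≤ m * d := by
  unfold gpD
  rw [map_sub]
  refine (natDegree_sub_le _ _).trans (max_le (dkp_degree x c b hx hc m) ?_)
  simp only [map_mul, map_ofNat, MvPolynomial.aeval_X]
  have h2 : (2 : k[X]).natDegree = 0 := natDegree_ofNat 2
  refine natDegree_mul_le.trans ?_
  rw [h2, zero_add]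
  exact hb

private theorem sq_eq_one_iff_eq_one_or_eq_neg_one {x : k} :
    x ^ 2 = 1 ↔ x = 1 ∨ x = -1 := by
  have h := sq_eq_sq_iff_eq_or_eq_neg (a := x) (b := 1)
  rwa [one_pow] at h

private theorem prim_half (hm : 0 < m) (hζ : IsPrimitiveRoot ζ (2 * m)) : ζ ^ m = -1 := by
  have h1 : (ζ ^ m) ^ 2 = 1 := by
    rw [← pow_mul, mul_comm, hζ.pow_eq_one]
  rcases sq_eq_one_iff_eq_one_or_eq_neg_one.1 h1 with h | h
  · exfalso
    have := hζ.pow_inj (i := m) (j := 0) (by omega) (by omega) (by rw [h, pow_zero])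
    omega
  · exact h

/-- the change of the sign of `w` -/
private theorem GG_negW (Y : SysW (2 * m) ζ D n W) (hm : 0 < m)
    (hζ : IsPrimitiveRoot ζ (2 * m)) (hn : 0 < n) {s : Fin n → D.P}
    (hs : Nd (D.ed s) (D.eb s)) {M : Mq k} {Θ w : k}
    (hC : Clo (2 * m) (D.ed s) M (Θ * w ^ m) w)
    (hom : ∀ x, (Y.om ^ m) x = ((-1 : ℤ) ^ m) • x) :
    GG Y s M (Θ * (-w) ^ m) (-w) = GG Y s M (Θ * w ^ m) w := by
  have hν : 0 < 2 * m := by omega
  have h1 : -w = ζ ^ m * w := by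
    rw [prim_half hm hζ, neg_one_mul]
  have h2 : Θ * (-w) ^ m = (-1) ^ m * (Θ * w ^ m) := by
    rw [neg_pow]
    ring
  rw [h2]
  rcases Nat.even_or_odd m with he | ho
  · rw [he.neg_one_pow, one_mul, h1, GG_shift Y hζ hν hn hs, hom, he.neg_one_pow, one_smul]
  · rw [ho.neg_one_pow, neg_one_mul, h1, GG_shift Y hζ hν hn hs, hom, ho.neg_one_pow,
      GG_negS Y hζ hν hs hC, neg_smul, one_smul, neg_neg]

/-- the sum over the two points with the same closing data -/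
private theorem sum_two (Y : SysW (2 * m) ζ D n W) (hm : 0 < m)
    (hζ : IsPrimitiveRoot ζ (2 * m)) (hn : 0 < n) {d L : ℕ} (hd : 0 < d) (hL : m * d = 2 * L)
    {s : Fin n → D.P} (hs : D.Gen s) (F : CurveFam D (m * d) (2 * d) m s)
    (hρ : L ≤ F.ρ + d) (hom : ∀ x, (Y.om ^ m) x = ((-1 : ℤ) ^ m) • x) {M : Mq k} {Θ : k}
    (hSt : IsSt (D.ed s) (D.eb s) M) (hne : M.b.eval 1 * M.c.eval 1 ≠ 0) (hΘ : Θ ≠ 0)
    {w : Bool → k} (hw : ∀ b, w b ≠ 0) (hw2 : w false ^ 2 * w true ^ 2 = F.cv)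
    (hw3 : Θ ^ 2 = w false ^ (2 * m) + w true ^ (2 * m) - 2 * M.a.eval 1) :
    GG Y s M (Θ * w false ^ m) (w false) + GG Y s M (Θ * w true ^ m) (w true) = 0 := by
  classical
  have hν : 0 < 2 * m := by omega
  have hC : ∀ b, Clo (2 * m) (D.ed s) M (Θ * w b ^ m) (w b) := by
    intro b
    refine ⟨hSt.bc, hne, hw b, ?_⟩
    have h1 : ∏ j, D.ed s j = w false ^ (2 * m) * w true ^ (2 * m) := by
      rw [← F.cm, ← hw2, mul_pow, ← pow_mul, ← pow_mul]
    rw [mul_pow, hw3, h1]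
    have e1 : (w b ^ m) ^ 2 = w b ^ (2 * m) := by rw [← pow_mul, mul_comm]
    have e2 : w b ^ (2 * (2 * m)) = w b ^ (2 * m) * w b ^ (2 * m) := by
      rw [← pow_add]
      congr 1
      ring
    rw [e1, e2]
    cases b <;> ring
  have hL0 : 0 < L := by
    have := Nat.mul_pos hm hd
    omega
  have key := fam_sum Y hζ hν hn hs F hL0 hρ (Gp := gpD k m)
    (fun x c b hx hc hb => (gpD_degree x c b hx hc hb).trans hL.le) hSt hne
    (x := w false ^ 2 + w true ^ 2) (y := Θ) hΘ (by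
      rw [← hw2, gpD_eval, hw3, ← pow_mul, ← pow_mul]) (I := Bool)
    (T := ∑ b : Bool, GG Y s M (Θ * w b ^ m) (w b)) ⟨?_⟩
  · rw [Fintype.sum_bool, add_comm] at key
    exact key
  intro X' Y' c' a' h
  obtain ⟨w', h1, h2⟩ := exists_W X' c'
  rw [← h1, ← h2, gpD_eval, ← pow_mul, ← pow_mul] at h
  refine ⟨fun b => Y' * w' b ^ m, w', ?_, ?_, ?_⟩
  · intro b
    have hc : c' ^ m = w' false ^ (2 * m) * w' true ^ (2 * m) := by
      rw [← h2, mul_pow, ← pow_mul, ← pow_mul]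
    rw [mul_pow, h, hc]
    have e1 : (w' b ^ m) ^ 2 = w' b ^ (2 * m) := by rw [← pow_mul, mul_comm]
    have e2 : w' b ^ (2 * (2 * m)) = w' b ^ (2 * m) * w' b ^ (2 * m) := by
      rw [← pow_add]
      congr 1
      ring
    rw [e1, e2]
    cases b <;> ring
  · intro v hX hY hc
    obtain ⟨u, σ, hu, huw⟩ := W_value hX hc (w' := w') h1 h2 (w := w) rfl hw2
    refine ⟨fun b => Θ * u b ^ m, u, fun b => hY.mul ((hu b).pow m), hu, fun b => ?_, ?_⟩
    · rcases huw b with h3 | h3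
      · rw [h3]
        exact hw _
      · rw [h3]
        exact neg_ne_zero.2 (hw _)
    · rw [← Equiv.sum_comp σ fun b => GG Y s M (Θ * w b ^ m) (w b)]
      refine Finset.sum_congr rfl fun b _ => ?_
      show GG Y s M (Θ * u b ^ m) (u b) = GG Y s M (Θ * w (σ b) ^ m) (w (σ b))
      rcases huw b with h3 | h3
      · rw [h3]
      · rw [h3]
        exact GG_negW Y hm hζ hn hs.nd (hC (σ b)) hom
  · intro v b hc h5 h3 h4
    have e : X' = w' b ^ 2 + c' * (w' b)⁻¹ ^ 2 := by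
      rw [← h1, ← h2]
      cases b
      · field_simp
      · field_simp
        ring
    rw [e]
    exact add_mem (pow_mem h3 2) (mul_mem hc (pow_mem h4 2))

/-- the multiplication of `w` by `ζ` -/
private theorem GG_rotW (Y : SysW (2 * m) ζ D n W) (hm : 0 < m)
    (hζ : IsPrimitiveRoot ζ (2 * m)) (hn : 0 < n) {s : Fin n → D.P}
    (hs : Nd (D.ed s) (D.eb s)) {M : Mq k} {Θ w : k}
    (hC : Clo (2 * m) (D.ed s) M (Θ * w ^ m) w) :
    GG Y s M (Θ * (ζ * w) ^ m) (ζ * w) = -Y.om (GG Y s M (Θ * w ^ m) w) := by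
  have hν : 0 < 2 * m := by omega
  have h2 : Θ * (ζ * w) ^ m = -(Θ * w ^ m) := by
    rw [mul_pow, prim_half hm hζ]
    ring
  have h3 := GG_shift Y hζ hν hn hs M (-(Θ * w ^ m)) w 1
  rw [pow_one, pow_one] at h3
  rw [h2, h3, GG_negS Y hζ hν hs hC, map_neg]

/-- The class is zero for all points of the curves over a general tuple, for the characters which
occur in the cohomology of the curves `y ² = D_m(x, α) + B`. -/
theorem SysW.zeroII (Y : SysW (2 * m) ζ D n W) (hm : 0 < m)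
    (hζ : IsPrimitiveRoot ζ (2 * m)) {d L : ℕ} (hd : 0 < d) (hL : m * d = 2 * L)
    {s : Fin n → D.P} (F : CurveFam D (m * d) (2 * d) m s) (hρ : L ≤ F.ρ + d)
    (hom : ∀ x, (Y.om ^ m) x = ((-1 : ℤ) ^ m) • x)
    (hom2 : ∀ x, (Y.om ^ 2) x = x → x = 0) (hs : D.Gen s) (hn : 0 < n)
    (p : Fin n → WPt k) : Y.F s p = 0 := by
  have hν : 0 < 2 * m := by omega
  refine zero_of_GG Y hζ hν hn hs (fun M S P hSt hC hS => ?_) p
  have hP := hC.W0
  have hζ0 : ζ ≠ 0 := hζ.ne_zero (by omega)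
  have hcv0 : F.cv ≠ 0 := by
    intro h
    have h1 := F.cm
    rw [h, zero_pow hm.ne'] at h1
    exact (Finset.prod_ne_zero_iff.2 fun j _ => hs.nd.hδ j) h1.symm
  obtain ⟨γ, hγ⟩ := IsAlgClosed.exists_pow_nat_eq F.cv (n := 2) (by norm_num)
  have hγ0 : γ ≠ 0 := by
    rintro rfl
    apply hcv0
    rw [← hγ]
    norm_num
  obtain ⟨u, hu⟩ : ∃ u : k, u = γ / P := ⟨_, rfl⟩
  have hu0 : u ≠ 0 := by
    rw [hu]
    exact div_ne_zero hγ0 hP
  have hPu : P ^ 2 * u ^ 2 = F.cv := by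
    rw [hu, ← mul_pow, mul_div_cancel₀ _ hP, hγ]
  obtain ⟨Θ, hΘ⟩ : ∃ Θ : k, Θ = S / P ^ m := ⟨_, rfl⟩
  have hPm : P ^ m ≠ 0 := pow_ne_zero m hP
  have hΘ0 : Θ ≠ 0 := by
    rw [hΘ]
    exact div_ne_zero hS hPm
  have hSΘ : S = Θ * P ^ m := by
    rw [hΘ, div_mul_cancel₀ _ hPm]
  have hpr : ∏ j, D.ed s j = P ^ (2 * m) * u ^ (2 * m) := by
    rw [← F.cm, ← hPu, mul_pow, ← pow_mul, ← pow_mul]
  have hΘ2 : Θ ^ 2 = P ^ (2 * m) + u ^ (2 * m) - 2 * M.a.eval 1 := by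
    have h1 := hC.sg
    rw [hpr, hSΘ, mul_pow] at h1
    have e1 : (P ^ m) ^ 2 = P ^ (2 * m) := by rw [← pow_mul, mul_comm]
    have e2 : P ^ (2 * (2 * m)) = P ^ (2 * m) * P ^ (2 * m) := by
      rw [← pow_add]
      congr 1
      ring
    rw [e1, e2] at h1
    have h3 : P ^ (2 * m) ≠ 0 := pow_ne_zero _ hP
    apply mul_right_cancel₀ h3
    rw [h1]
    ring
  have hz : ζ ^ (2 * m) = 1 := hζ.pow_eq_one
  have hclo : ∀ x y : k, x ≠ 0 → y ≠ 0 → x ^ (2 * m) * y ^ (2 * m) = ∏ j, D.ed s j →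
      Θ ^ 2 = x ^ (2 * m) + y ^ (2 * m) - 2 * M.a.eval 1 →
      Clo (2 * m) (D.ed s) M (Θ * x ^ m) x := by
    intro x y hx hy h1 h2
    refine ⟨hSt.bc, hC.ne, hx, ?_⟩
    rw [mul_pow, h2, ← h1]
    have e1 : (x ^ m) ^ 2 = x ^ (2 * m) := by rw [← pow_mul, mul_comm]
    have e2 : x ^ (2 * (2 * m)) = x ^ (2 * m) * x ^ (2 * m) := by
      rw [← pow_add]
      congr 1
      ring
    rw [e1, e2]
    ring
  -- the two relations
  have hrel : ∀ x y : k, x ≠ 0 → y ≠ 0 → x ^ 2 * y ^ 2 = F.cv →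
      Θ ^ 2 = x ^ (2 * m) + y ^ (2 * m) - 2 * M.a.eval 1 →
      GG Y s M (Θ * x ^ m) x + GG Y s M (Θ * y ^ m) y = 0 := by
    intro x y hx hy h1 h2
    refine sum_two Y hm hζ hn hd hL hs F hρ hom hSt hC.ne hΘ0
      (w := fun b => if b = true then y else x) ?_ ?_ ?_
    · intro b
      cases b
      · exact hx
      · exact hy
    · exact h1
    · exact h2
  have r1 := hrel P u hP hu0 hPu hΘ2
  obtain ⟨u', hu'⟩ : ∃ u' : k, u' = ζ⁻¹ * u := ⟨_, rfl⟩
  have hu'0 : u' ≠ 0 := by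
    rw [hu']
    exact mul_ne_zero (inv_ne_zero hζ0) hu0
  have hζu : u = ζ * u' := by
    rw [hu', ← mul_assoc, mul_inv_cancel₀ hζ0, one_mul]
  have e3 : (ζ * P) ^ (2 * m) = P ^ (2 * m) := by rw [mul_pow, hz, one_mul]
  have e4 : u' ^ (2 * m) = u ^ (2 * m) := by rw [hζu, mul_pow, hz, one_mul]
  have r2 := hrel (ζ * P) u' (mul_ne_zero hζ0 hP) hu'0 (by
    rw [← hPu, hζu]
    ring) (by rw [e3, e4, hΘ2])
  have c1 : Clo (2 * m) (D.ed s) M (Θ * P ^ m) P := hclo P u hP hu0 hpr.symm hΘ2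
  have c2 : Clo (2 * m) (D.ed s) M (Θ * u' ^ m) u' := hclo u' P hu'0 hP
    (by rw [e4, hpr, mul_comm]) (by rw [e4, hΘ2]; ring)
  rw [GG_rotW Y hm hζ hn hs.nd c1] at r2
  rw [hζu, GG_rotW Y hm hζ hn hs.nd c2] at r1
  have r3 : GG Y s M (Θ * u' ^ m) u' = Y.om (GG Y s M (Θ * P ^ m) P) :=
    eq_of_sub_eq_zero (by rw [← r2]; abel)
  rw [r3] at r1
  rw [hSΘ]
  apply hom2
  rw [pow_two]
  show Y.om (Y.om _) = _
  exact (eq_of_sub_eq_zero (by rw [← r1]; abel)).symm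

end Pool.Agent.DK
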